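import Pool.Agent.P.MP_99daa8_nt.Defs

namespace Pool.Agent.P.MP_99daa8_nt

open scoped MatrixGroups
open Finset

theorem act_mul (g h : SL(2, ℤ)) (v : ℤ × ℤ) : act (g * h) v = act g (act h v) := by
  simp only [act, Matrix.SpecialLinearGroup.coe_mul, Matrix.mul_apply, Fin.sum_univ_two]
  ext <;> simp only <;> ring

theorem act_one (v : ℤ × ℤ) : act 1 v = v := by
  simp [act]

@[simp] theorem Lm_00 : Lm 0 0 = 1 := rfl
@[simp] theorem Lm_01 : Lm 0 1 = 0 := rfl
@[simp] theorem Lm_10 : Lm 1 0 = 1 := rfl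
@[simp] theorem Lm_11 : Lm 1 1 = 1 := rfl
@[simp] theorem Rm_00 : Rm 0 0 = 1 := rfl
@[simp] theorem Rm_01 : Rm 0 1 = 1 := rfl
@[simp] theorem Rm_10 : Rm 1 0 = 0 := rfl
@[simp] theorem Rm_11 : Rm 1 1 = 1 := rfl

theorem mul_entry (g h : SL(2, ℤ)) (i j : Fin 2) :
    (g * h) i j = g i 0 * h 0 j + g i 1 * h 1 j := by
  simp [Matrix.mul_apply, Fin.sum_univ_two]

theorem det_eq (g : SL(2, ℤ)) : g 0 0 * g 1 1 - g 0 1 * g 1 0 = 1 := by
  have := g.det_coe
  rwa [Matrix.det_fin_two] at this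

theorem act_Lm (v : ℤ × ℤ) : act Lm v = (v.1, v.1 + v.2) := by
  simp [act]

theorem act_Rm (v : ℤ × ℤ) : act Rm v = (v.1 + v.2, v.2) := by
  simp [act]

theorem mem_seg {c d M : ℕ} (hc : 0 < c) (hd : 0 < d) {v : ℕ × ℕ} :
    v ∈ seg c d M ↔ 0 < v.1 ∧ c * v.1 + d * v.2 = M := by
  simp only [seg, mem_filter, mem_product, mem_range]
  constructor
  · exact fun h => h.2
  · rintro ⟨h1, h2⟩
    refine ⟨⟨?_, ?_⟩, h1, h2⟩
    · have := Nat.le_mul_of_pos_left v.1 hc
      omega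
    · have := Nat.le_mul_of_pos_left v.2 hd
      omega

theorem mem_tri {c d X : ℕ} (hc : 0 < c) (hd : 0 < d) {v : ℕ × ℕ} :
    v ∈ tri c d X ↔ 0 < v.1 ∧ c * v.1 + d * v.2 ≤ X := by
  simp only [tri, mem_filter, mem_product, mem_range]
  constructor
  · exact fun h => h.2
  · rintro ⟨h1, h2⟩
    refine ⟨⟨?_, ?_⟩, h1, h2⟩
    · have := Nat.le_mul_of_pos_left v.1 hc
      omega
    · have := Nat.le_mul_of_pos_left v.2 hd
      omega

/-- The half-open quadrant is the disjoint union of its images under `Lm` and `Rm`. -/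
theorem segSum_split (s : ℤ × ℤ → ℂ) (g : SL(2, ℤ)) {c d : ℕ} (hc : 0 < c) (hd : 0 < d)
    (M : ℕ) :
    segSum s g c d M = segSum s (g * Lm) (c + d) d M + segSum s (g * Rm) c (c + d) M := by
  have hcd : 0 < c + d := by omega
  unfold segSum
  rw [← Finset.sum_filter_add_sum_filter_not (seg c d M) (fun v => v.1 ≤ v.2)]
  congr 1
  · symm
    refine Finset.sum_bij' (fun v _ => (v.1, v.1 + v.2)) (fun v _ => (v.1, v.2 - v.1))
      ?_ ?_ ?_ ?_ ?_
    · intro v hv
      rw [mem_seg hcd hd] at hv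
      rw [mem_filter, mem_seg hc hd]
      refine ⟨⟨hv.1, ?_⟩, by simp⟩
      simp only
      nlinarith [hv.2]
    · intro v hv
      rw [mem_filter, mem_seg hc hd] at hv
      rw [mem_seg hcd hd]
      obtain ⟨⟨h1, h2⟩, h3⟩ := hv
      refine ⟨h1, ?_⟩
      obtain ⟨k, hk⟩ := Nat.exists_eq_add_of_le h3
      simp only
      rw [hk] at h2 ⊢
      rw [Nat.add_sub_cancel_left]
      nlinarith
    · intro v _
      simp
    · intro v hv
      rw [mem_filter] at hv
      ext
      · rfl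
      · simp only
        omega
    · intro v _
      rw [act_mul, act_Lm]
      simp
  · symm
    refine Finset.sum_bij' (fun v _ => (v.1 + v.2, v.2)) (fun v _ => (v.1 - v.2, v.2))
      ?_ ?_ ?_ ?_ ?_
    · intro v hv
      rw [mem_seg hc hcd] at hv
      rw [mem_filter, mem_seg hc hd]
      refine ⟨⟨by simp only; omega, ?_⟩, by simp only; omega⟩
      simp only
      nlinarith [hv.2]
    · intro v hv
      rw [mem_filter, mem_seg hc hd] at hv
      rw [mem_seg hc hcd]
      obtain ⟨⟨h1, h2⟩, h3⟩ := hv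
      refine ⟨by simp only; omega, ?_⟩
      obtain ⟨k, hk⟩ := Nat.exists_eq_add_of_le (le_of_lt (not_le.mp h3))
      simp only
      rw [hk] at h2 ⊢
      rw [Nat.add_sub_cancel_left]
      nlinarith
    · intro v _
      simp
    · intro v hv
      rw [mem_filter] at hv
      ext
      · simp only
        omega
      · rfl
    · intro v _
      rw [act_mul, act_Rm]
      simp

/-- A sum over the triangle, sliced along the lines `c x + d y = M`. -/
theorem sum_tri_eq {β : Type*} [AddCommMonoid β] (F : ℕ × ℕ → β) {c d : ℕ} (hc : 0 < c)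
    (hd : 0 < d) (X : ℕ) :
    ∑ v ∈ tri c d X, F v = ∑ M ∈ range (X + 1), ∑ v ∈ seg c d M, F v := by
  rw [← Finset.sum_fiberwise_of_maps_to (s := tri c d X) (t := range (X + 1))
    (g := fun v => c * v.1 + d * v.2)]
  · refine Finset.sum_congr rfl fun M hM => Finset.sum_congr ?_ fun _ _ => rfl
    ext v
    rw [mem_filter, mem_tri hc hd, mem_seg hc hd]
    rw [mem_range] at hM
    constructor
    · rintro ⟨⟨h1, _⟩, h3⟩
      exact ⟨h1, h3⟩
    · rintro ⟨h1, h2⟩
      exact ⟨⟨h1, by omega⟩, h2⟩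
  · intro v hv
    rw [mem_tri hc hd] at hv
    rw [mem_range]
    omega

theorem triSum_eq (s : ℤ × ℤ → ℂ) (g : SL(2, ℤ)) {c d : ℕ} (hc : 0 < c) (hd : 0 < d) (X : ℕ) :
    triSum s g c d X = ∑ M ∈ range (X + 1), segSum s g c d M :=
  sum_tri_eq _ hc hd X

theorem triSum_split (s : ℤ × ℤ → ℂ) (g : SL(2, ℤ)) {c d : ℕ} (hc : 0 < c) (hd : 0 < d)
    (X : ℕ) :
    triSum s g c d X = triSum s (g * Lm) (c + d) d X + triSum s (g * Rm) c (c + d) X := by
  have hcd : 0 < c + d := by omega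
  rw [triSum_eq s g hc hd, triSum_eq s _ hcd hd, triSum_eq s _ hc hcd, ← Finset.sum_add_distrib]
  exact Finset.sum_congr rfl fun M _ => segSum_split s g hc hd M

end Pool.Agent.P.MP_99daa8_nt
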