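import Pool.Agent.P.MP_99daa8_nt.Tree

namespace Pool.Agent.P.MP_99daa8_nt

open scoped MatrixGroups
open Finset

theorem norm_segSum_le (s : ℤ × ℤ → ℂ) (hs : ∀ v, ‖s v‖ ≤ 1) (g : SL(2, ℤ)) (c d M : ℕ) :
    ‖segSum s g c d M‖ ≤ (seg c d M).card := by
  unfold segSum
  refine (norm_sum_le _ _).trans ?_
  refine (Finset.sum_le_sum fun v _ => hs _).trans ?_
  simp

theorem card_seg_le_two {c d X C M : ℕ} (hc : 0 < c) (hd : 0 < d) (hcd : Nat.Coprime c d)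
    (hC : c * d ≤ C) (hCX : C ≤ X) (hM : M ∈ range (X + 1)) :
    (c : ℝ) * d * (seg c d M).card ≤ 2 * X := by
  have h1 := card_seg_le hc hd hcd M
  rw [mem_range] at hM
  have h2 : c * d * (seg c d M).card ≤ 2 * X := by omega
  exact_mod_cast h2

/-- The test vectors of the Bessel inequality. -/
noncomputable def besselVec (s : ℤ × ℤ → ℂ) (g : SL(2, ℤ)) (c d X : ℕ) (v : ℕ × ℕ) : ℂ :=
  if v ∈ tri c d X then (c : ℂ) * d * segSum s g c d (c * v.1 + d * v.2) else 0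

theorem sum_mul_conj_besselVec (s : ℤ × ℤ → ℂ) (g : SL(2, ℤ)) {c d : ℕ} (hc : 0 < c) (hd : 0 < d)
    (X : ℕ) (U : Finset (ℕ × ℕ)) (hU : tri c d X ⊆ U) (F : ℕ × ℕ → ℂ) :
    ∑ v ∈ U, F v * (starRingEnd ℂ) (besselVec s g c d X v) =
      ∑ M ∈ range (X + 1), (∑ v ∈ seg c d M, F v) *
        (starRingEnd ℂ) ((c : ℂ) * d * segSum s g c d M) := by
  rw [← Finset.sum_subset hU (fun v _ hv => by simp [besselVec, hv]), sum_tri_eq _ hc hd]
  refine Finset.sum_congr rfl fun M hM => ?_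
  rw [Finset.sum_mul]
  refine Finset.sum_congr rfl fun v hv => ?_
  rw [mem_seg hc hd] at hv
  rw [mem_range] at hM
  have : v ∈ tri c d X := (mem_tri hc hd).2 ⟨hv.1, by omega⟩
  simp only [besselVec, if_pos this, hv.2]

theorem bessel_diag (s : ℤ × ℤ → ℂ) (g : SL(2, ℤ)) {c d X C : ℕ} (hc : 0 < c) (hd : 0 < d)
    (hcd : Nat.Coprime c d) (hC : c * d ≤ C) (hCX : C ≤ X) (U : Finset (ℕ × ℕ))
    (hU : tri c d X ⊆ U) :
    ‖∑ v ∈ U, besselVec s g c d X v * (starRingEnd ℂ) (besselVec s g c d X v)‖ ≤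
      2 * X * ((c : ℝ) * d * ∑ M ∈ range (X + 1), ‖segSum s g c d M‖ ^ 2) := by
  rw [sum_mul_conj_besselVec s g hc hd X U hU, Finset.mul_sum, Finset.mul_sum]
  refine (norm_sum_le _ _).trans (Finset.sum_le_sum fun M hM => ?_)
  have h1 : ∑ v ∈ seg c d M, besselVec s g c d X v =
      (seg c d M).card * ((c : ℂ) * d * segSum s g c d M) := by
    rw [← nsmul_eq_mul, ← Finset.sum_const]
    refine Finset.sum_congr rfl fun v hv => ?_
    rw [mem_seg hc hd] at hv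
    rw [mem_range] at hM
    have : v ∈ tri c d X := (mem_tri hc hd).2 ⟨hv.1, by omega⟩
    simp only [besselVec, if_pos this, hv.2]
  have h2 := card_seg_le_two hc hd hcd hC hCX hM
  rw [h1]
  simp only [norm_mul, RCLike.norm_conj, Complex.norm_natCast]
  have h3 : 0 ≤ (c : ℝ) * d * ‖segSum s g c d M‖ ^ 2 := by positivity
  calc ((seg c d M).card : ℝ) * ((c : ℝ) * d * ‖segSum s g c d M‖) *
        ((c : ℝ) * d * ‖segSum s g c d M‖)
      = ((c : ℝ) * d * (seg c d M).card) * ((c : ℝ) * d * ‖segSum s g c d M‖ ^ 2) := by ring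
    _ ≤ 2 * X * ((c : ℝ) * d * ‖segSum s g c d M‖ ^ 2) := mul_le_mul_of_nonneg_right h2 h3

theorem bessel_off (s : ℤ × ℤ → ℂ) (hs : ∀ v, ‖s v‖ ≤ 1) (g : SL(2, ℤ)) {c d c' d' X C : ℕ}
    (hc : 0 < c) (hd : 0 < d) (hcd : Nat.Coprime c d) (hC : c * d ≤ C)
    (hc' : 0 < c') (hd' : 0 < d') (hcd' : Nat.Coprime c' d') (hC' : c' * d' ≤ C) (hCX : C ≤ X)
    (hne : ¬ (c = c' ∧ d = d')) (U : Finset (ℕ × ℕ)) (hU : tri c' d' X ⊆ U) {E : ℝ}
    (hE0 : 0 ≤ E)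
    (hE : ∀ k x : ℕ, x ≤ X + 1 →
      ‖∑ m ∈ (range x).filter (fun m => m % ((c : ℤ) * d' - d * c').natAbs = k),
        segSum s g c d m‖ ≤ E) :
    ‖∑ v ∈ U, besselVec s g c d X v * (starRingEnd ℂ) (besselVec s g c' d' X v)‖ ≤
      (C : ℝ) * (X + 1) * (2 * X) * (2 * E) := by
  rw [sum_mul_conj_besselVec s g hc' hd' X U hU]
  refine (norm_sum_le _ _).trans ?_
  have key : ∀ M ∈ range (X + 1), ‖(∑ v ∈ seg c' d' M, besselVec s g c d X v) *
      (starRingEnd ℂ) ((c' : ℂ) * d' * segSum s g c' d' M)‖ ≤ (C : ℝ) * (2 * E) * (2 * X) := by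
    intro M hM
    have h1 : ∑ v ∈ seg c' d' M, besselVec s g c d X v =
        (c : ℂ) * d * ∑ v ∈ (seg c' d' M).filter (fun v => c * v.1 + d * v.2 ≤ X),
          segSum s g c d (c * v.1 + d * v.2) := by
      rw [Finset.mul_sum, Finset.sum_filter]
      refine Finset.sum_congr rfl fun v hv => ?_
      rw [mem_seg hc' hd'] at hv
      simp only [besselVec, mem_tri hc hd, hv.1, true_and]
    have h2 := cross_le (fun m => segSum s g c d m) hc hd hc' hd' hcd hcd' hne X hE M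
    have h3 := card_seg_le_two hc' hd' hcd' hC' hCX hM
    have h4 := norm_segSum_le s hs g c' d' M
    have h5 : (c : ℝ) * d ≤ C := by exact_mod_cast hC
    rw [h1, norm_mul, RCLike.norm_conj]
    refine mul_le_mul ?_ ?_ (norm_nonneg _) (by positivity)
    · simp only [norm_mul, Complex.norm_natCast]
      exact mul_le_mul h5 h2 (norm_nonneg _) (by positivity)
    · simp only [norm_mul, Complex.norm_natCast]
      exact (mul_le_mul_of_nonneg_left h4 (by positivity)).trans h3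
  refine (Finset.sum_le_sum key).trans (le_of_eq ?_)
  simp only [Finset.sum_const, card_range, nsmul_eq_mul]
  push_cast
  ring

/- HINT.  B_i m = segSum s g (c i) (d i) m, l_i v = c i * v.1 + d i * v.2, T_i = tri (c i) (d i) X,
beta_i v = if v in T_i then c_i d_i B_i (l_i v) else 0, F v = s (act g v).  By sum_tri_eq,
sum over v in U of F v * conj (beta_i v) = c_i d_i sum_M |B_i M|^2 = Y_i.  Cauchy-Schwarz with |F| <= 1:
Y^2 <= card U * sum_{v in U} |sum_i beta_i v|^2 = card U * sum_{i,j} sum_v beta_i v * conj (beta_j v).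
Diagonal: sum_v |beta_i v|^2 = (c_i d_i)^2 sum_M card (seg M) |B_i M|^2 <= 2 X Y_i by card_seg_le.
Off the diagonal, slice T_j along l_j v = m' (m' <= X): c_j d_j |B_j m'| <= 2 X, and the inner sum of
B_i (l_i v) over v in seg (c j) (d j) m' with l_i v <= X is at most 2 E by cross_le. -/
theorem bessel {ι : Type*} (I : Finset ι) (s : ℤ × ℤ → ℂ) (hs : ∀ v, ‖s v‖ ≤ 1) (g : SL(2, ℤ))
    (c d : ι → ℕ) (hpos : ∀ i ∈ I, 0 < c i ∧ 0 < d i ∧ Nat.Coprime (c i) (d i))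
    (hinj : ∀ i ∈ I, ∀ j ∈ I, c i = c j → d i = d j → i = j)
    (X C : ℕ) (hC : ∀ i ∈ I, c i * d i ≤ C) (hCX : C ≤ X)
    (U : Finset (ℕ × ℕ)) (hU : ∀ i ∈ I, tri (c i) (d i) X ⊆ U) {E : ℝ} (hE0 : 0 ≤ E)
    (hE : ∀ i ∈ I, ∀ j ∈ I, i ≠ j → ∀ k x : ℕ, x ≤ X + 1 →
      ‖∑ m ∈ (range x).filter (fun m => m % ((c i : ℤ) * d j - d i * c j).natAbs = k),
        segSum s g (c i) (d i) m‖ ≤ E)
    (Y : ℝ)
    (hY : Y = ∑ i ∈ I, (c i : ℝ) * d i * ∑ M ∈ range (X + 1), ‖segSum s g (c i) (d i) M‖ ^ 2) :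
    Y ^ 2 ≤ U.card * (2 * X * Y + (I.card : ℝ) ^ 2 * C * (X + 1) * (2 * X) * (2 * E)) := by
  classical
  set β : ι → ℕ × ℕ → ℂ := fun i v => besselVec s g (c i) (d i) X v with hβ
  have hY0 : 0 ≤ Y := by
    rw [hY]
    exact Finset.sum_nonneg fun i _ => by positivity
  have h1 : (Y : ℂ) = ∑ v ∈ U, s (act g ((v.1 : ℤ), (v.2 : ℤ))) *
      (starRingEnd ℂ) (∑ i ∈ I, β i v) := by
    simp only [map_sum, Finset.mul_sum]
    rw [Finset.sum_comm, hY]
    push_cast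
    refine Finset.sum_congr rfl fun i hi => ?_
    obtain ⟨hc, hd, _⟩ := hpos i hi
    rw [hβ, sum_mul_conj_besselVec s g hc hd X U (hU i hi), Finset.mul_sum]
    refine Finset.sum_congr rfl fun M _ => ?_
    have : ∑ v ∈ seg (c i) (d i) M, s (act g ((v.1 : ℤ), (v.2 : ℤ))) =
        segSum s g (c i) (d i) M := rfl
    rw [this]
    simp only [map_mul, map_natCast]
    rw [← Complex.mul_conj']
    ring
  have h2 : Y ≤ ∑ v ∈ U, ‖∑ i ∈ I, β i v‖ := by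
    have : Y = ‖(Y : ℂ)‖ := by rw [Complex.norm_real, Real.norm_of_nonneg hY0]
    rw [this, h1]
    refine (norm_sum_le _ _).trans (Finset.sum_le_sum fun v _ => ?_)
    rw [norm_mul, RCLike.norm_conj]
    exact mul_le_of_le_one_left (norm_nonneg _) (hs _)
  have h3 : (∑ v ∈ U, ‖∑ i ∈ I, β i v‖) ^ 2 ≤ U.card * ∑ v ∈ U, ‖∑ i ∈ I, β i v‖ ^ 2 :=
    sq_sum_le_card_mul_sum_sq
  have h4 : ((∑ v ∈ U, ‖∑ i ∈ I, β i v‖ ^ 2 : ℝ) : ℂ) =
      ∑ i ∈ I, ∑ j ∈ I, ∑ v ∈ U, β i v * (starRingEnd ℂ) (β j v) := by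
    push_cast
    simp only [← Complex.mul_conj', map_sum, Finset.sum_mul_sum]
    rw [Finset.sum_comm]
    refine Finset.sum_congr rfl fun i _ => ?_
    rw [Finset.sum_comm]
  set W : ℝ := (C : ℝ) * (X + 1) * (2 * X) * (2 * E) with hW
  have hW0 : 0 ≤ W := by positivity
  have h5 : ∀ i ∈ I, ‖∑ j ∈ I, ∑ v ∈ U, β i v * (starRingEnd ℂ) (β j v)‖ ≤
      2 * X * ((c i : ℝ) * d i * ∑ M ∈ range (X + 1), ‖segSum s g (c i) (d i) M‖ ^ 2) +
        I.card * W := by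
    intro i hi
    obtain ⟨hc, hd, hcd⟩ := hpos i hi
    rw [← Finset.add_sum_erase I _ hi]
    refine (norm_add_le _ _).trans (add_le_add ?_ ?_)
    · exact bessel_diag s g hc hd hcd (hC i hi) hCX U (hU i hi)
    · refine (norm_sum_le _ _).trans ?_
      have : ∀ j ∈ I.erase i, ‖∑ v ∈ U, β i v * (starRingEnd ℂ) (β j v)‖ ≤ W := by
        intro j hj
        rw [Finset.mem_erase] at hj
        obtain ⟨hc', hd', hcd'⟩ := hpos j hj.2
        exact bessel_off s hs g hc hd hcd (hC i hi) hc' hd' hcd' (hC j hj.2) hCX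
          (fun h => hj.1 (hinj i hi j hj.2 h.1 h.2).symm) U (hU j hj.2) hE0
          (hE i hi j hj.2 (fun h => hj.1 h.symm))
      refine (Finset.sum_le_sum this).trans ?_
      rw [Finset.sum_const, nsmul_eq_mul]
      refine mul_le_mul_of_nonneg_right ?_ hW0
      exact_mod_cast Finset.card_erase_le
  have h6 : ∑ v ∈ U, ‖∑ i ∈ I, β i v‖ ^ 2 ≤ 2 * X * Y + (I.card : ℝ) ^ 2 * W := by
    have h0 : 0 ≤ ∑ v ∈ U, ‖∑ i ∈ I, β i v‖ ^ 2 := Finset.sum_nonneg fun v _ => by positivity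
    have : ∑ v ∈ U, ‖∑ i ∈ I, β i v‖ ^ 2 = ‖((∑ v ∈ U, ‖∑ i ∈ I, β i v‖ ^ 2 : ℝ) : ℂ)‖ := by
      rw [Complex.norm_real, Real.norm_of_nonneg h0]
    rw [this, h4]
    refine (norm_sum_le _ _).trans ((Finset.sum_le_sum h5).trans (le_of_eq ?_))
    rw [Finset.sum_add_distrib, ← Finset.mul_sum, ← hY, Finset.sum_const, nsmul_eq_mul]
    ring
  calc Y ^ 2 ≤ (∑ v ∈ U, ‖∑ i ∈ I, β i v‖) ^ 2 := pow_le_pow_left₀ hY0 h2 2
    _ ≤ U.card * (2 * X * Y + (I.card : ℝ) ^ 2 * W) :=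
        h3.trans (mul_le_mul_of_nonneg_left h6 (by positivity))
    _ = _ := by rw [hW]; ring

end Pool.Agent.P.MP_99daa8_nt
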