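import Pool.Agent.P.MP_99daa8_nt.Basic

namespace Pool.Agent.P.MP_99daa8_nt

open scoped MatrixGroups
open Finset

theorem contract_NN_induction (Q : SL(2, ℤ) → Prop) (h1 : Q 1)
    (hL : ∀ w, NN w → Q w → Q (Lm * w)) (hR : ∀ w, NN w → Q w → Q (Rm * w)) :
    ∀ w, NN w → Q w := by
  have key : ∀ n : ℕ, ∀ w : SL(2, ℤ), NN w → w 0 0 + w 0 1 + w 1 0 + w 1 1 ≤ n → Q w := by
    intro n
    induction n with
    | zero =>
      intro w hw hs
      have h00 := hw 0 0
      have h01 := hw 0 1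
      have h10 := hw 1 0
      have h11 := hw 1 1
      have hdet := det_eq w
      have e0 : w 0 0 = 0 := by push_cast at hs; omega
      have e1 : w 0 1 = 0 := by push_cast at hs; omega
      rw [e0, e1] at hdet
      simp at hdet
    | succ n ih =>
      intro w hw hs
      have h00 := hw 0 0
      have h01 := hw 0 1
      have h10 := hw 1 0
      have h11 := hw 1 1
      have hdet := det_eq w
      by_cases hA : w 1 0 ≤ w 0 0 ∧ w 1 1 ≤ w 0 1
      · let w' : SL(2, ℤ) := ⟨!![w 0 0 - w 1 0, w 0 1 - w 1 1; w 1 0, w 1 1], by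
          rw [Matrix.det_fin_two_of]; linear_combination hdet⟩
        have e00 : w' 0 0 = w 0 0 - w 1 0 := rfl
        have e01 : w' 0 1 = w 0 1 - w 1 1 := rfl
        have e10 : w' 1 0 = w 1 0 := rfl
        have e11 : w' 1 1 = w 1 1 := rfl
        have hw' : NN w' := by
          intro i j
          fin_cases i <;> fin_cases j
          · change 0 ≤ w' 0 0
            rw [e00]; omega
          · change 0 ≤ w' 0 1
            rw [e01]; omega
          · change 0 ≤ w' 1 0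
            rw [e10]; omega
          · change 0 ≤ w' 1 1
            rw [e11]; omega
        have hpos : 0 < w 1 0 + w 1 1 := by
          by_contra hcon
          have e0 : w 1 0 = 0 := by omega
          have e1 : w 1 1 = 0 := by omega
          rw [e0, e1] at hdet
          simp at hdet
        have heq : w = Rm * w' := by
          ext i j
          rw [mul_entry]
          fin_cases i <;> fin_cases j
          · change w 0 0 = Rm 0 0 * w' 0 0 + Rm 0 1 * w' 1 0
            rw [e00, e10]; simp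
          · change w 0 1 = Rm 0 0 * w' 0 1 + Rm 0 1 * w' 1 1
            rw [e01, e11]; simp
          · change w 1 0 = Rm 1 0 * w' 0 0 + Rm 1 1 * w' 1 0
            rw [e00, e10]; simp
          · change w 1 1 = Rm 1 0 * w' 0 1 + Rm 1 1 * w' 1 1
            rw [e01, e11]; simp
        rw [heq]
        refine hR w' hw' (ih w' hw' ?_)
        rw [e00, e01, e10, e11]
        push_cast at hs
        omega
      by_cases hB : w 0 0 ≤ w 1 0 ∧ w 0 1 ≤ w 1 1
      · let w' : SL(2, ℤ) := ⟨!![w 0 0, w 0 1; w 1 0 - w 0 0, w 1 1 - w 0 1], by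
          rw [Matrix.det_fin_two_of]; linear_combination hdet⟩
        have e00 : w' 0 0 = w 0 0 := rfl
        have e01 : w' 0 1 = w 0 1 := rfl
        have e10 : w' 1 0 = w 1 0 - w 0 0 := rfl
        have e11 : w' 1 1 = w 1 1 - w 0 1 := rfl
        have hw' : NN w' := by
          intro i j
          fin_cases i <;> fin_cases j
          · change 0 ≤ w' 0 0
            rw [e00]; omega
          · change 0 ≤ w' 0 1
            rw [e01]; omega
          · change 0 ≤ w' 1 0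
            rw [e10]; omega
          · change 0 ≤ w' 1 1
            rw [e11]; omega
        have hpos : 0 < w 0 0 + w 0 1 := by
          by_contra hcon
          have e0 : w 0 0 = 0 := by omega
          have e1 : w 0 1 = 0 := by omega
          rw [e0, e1] at hdet
          simp at hdet
        have heq : w = Lm * w' := by
          ext i j
          rw [mul_entry]
          fin_cases i <;> fin_cases j
          · change w 0 0 = Lm 0 0 * w' 0 0 + Lm 0 1 * w' 1 0
            rw [e00, e10]; simp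
          · change w 0 1 = Lm 0 0 * w' 0 1 + Lm 0 1 * w' 1 1
            rw [e01, e11]; simp
          · change w 1 0 = Lm 1 0 * w' 0 0 + Lm 1 1 * w' 1 0
            rw [e00, e10]; simp
          · change w 1 1 = Lm 1 0 * w' 0 1 + Lm 1 1 * w' 1 1
            rw [e01, e11]; simp
        rw [heq]
        refine hL w' hw' (ih w' hw' ?_)
        rw [e00, e01, e10, e11]
        push_cast at hs
        omega
      have hw1 : w = 1 := by
        by_cases hC : w 0 0 < w 1 0
        · have hD : w 1 1 < w 0 1 := by omega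
          exfalso
          nlinarith [mul_nonneg h00 h11, mul_le_mul (show w 1 1 + 1 ≤ w 0 1 by omega)
            (show w 0 0 + 1 ≤ w 1 0 by omega) (by omega) h01]
        · have hD : w 0 1 < w 1 1 := by omega
          have hE : w 1 0 < w 0 0 := by omega
          have hm := mul_le_mul (show w 1 0 + 1 ≤ w 0 0 by omega)
            (show w 0 1 + 1 ≤ w 1 1 by omega) (by omega) h00
          have e01 : w 0 1 = 0 := by nlinarith
          have e10 : w 1 0 = 0 := by nlinarith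
          rw [e01, e10] at hdet
          have e00 : w 0 0 = 1 := by
            have : w 0 0 * w 1 1 = 1 := by linarith
            exact Int.eq_one_of_mul_eq_one_right h00 this
          have e11 : w 1 1 = 1 := by
            rw [e00] at hdet
            linarith
          ext i j
          fin_cases i <;> fin_cases j
          · exact e00
          · exact e01
          · exact e10
          · exact e11
      rw [hw1]
      exact h1
  intro w hw
  have h00 := hw 0 0
  have h01 := hw 0 1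
  have h10 := hw 1 0
  have h11 := hw 1 1
  refine key (w 0 0 + w 0 1 + w 1 0 + w 1 1).toNat w hw ?_
  omega

theorem contract_row {w : SL(2, ℤ)} (hw : NN w) {c d : ℕ} (hc : 0 < c) (hd : 0 < d) :
    ∃ c' d' : ℕ, 0 < c' ∧ 0 < d' ∧ (c' : ℤ) = c * w 0 0 + d * w 1 0 ∧
      (d' : ℤ) = c * w 0 1 + d * w 1 1 := by
  have h00 := hw 0 0
  have h01 := hw 0 1
  have h10 := hw 1 0
  have h11 := hw 1 1
  have hdet := det_eq w
  have hc' : (1 : ℤ) ≤ c := by exact_mod_cast hc
  have hd' : (1 : ℤ) ≤ d := by exact_mod_cast hd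
  have p0 : 0 < w 0 0 + w 1 0 := by
    by_contra hcon
    have e0 : w 0 0 = 0 := by omega
    have e1 : w 1 0 = 0 := by omega
    rw [e0, e1] at hdet
    simp at hdet
  have p1 : 0 < w 0 1 + w 1 1 := by
    by_contra hcon
    have e0 : w 0 1 = 0 := by omega
    have e1 : w 1 1 = 0 := by omega
    rw [e0, e1] at hdet
    simp at hdet
  have q0 : 0 < (c : ℤ) * w 0 0 + d * w 1 0 := by nlinarith
  have q1 : 0 < (c : ℤ) * w 0 1 + d * w 1 1 := by nlinarith
  refine ⟨((c : ℤ) * w 0 0 + d * w 1 0).toNat, ((c : ℤ) * w 0 1 + d * w 1 1).toNat, ?_, ?_, ?_, ?_⟩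
  · omega
  · omega
  · rw [Int.toNat_of_nonneg q0.le]
  · rw [Int.toNat_of_nonneg q1.le]

theorem contract_a_add {c d : ℕ} (hc : 0 < c) (hd : 0 < d) :
    1 / ((c : ℝ) * d) = 1 / (((c + d : ℕ) : ℝ) * d) + 1 / ((c : ℝ) * ((c + d : ℕ) : ℝ)) := by
  have hc' : (0 : ℝ) < c := by exact_mod_cast hc
  have hd' : (0 : ℝ) < d := by exact_mod_cast hd
  push_cast
  field_simp

theorem contract_removal (Λ : SL(2, ℤ) → ℕ → ℕ → ℂ)
    (hadd : ∀ g c d, 0 < c → 0 < d → Λ g c d = Λ (g * Lm) (c + d) d + Λ (g * Rm) c (c + d))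
    {D : ℝ} (hP : ∀ g c d, 0 < c → 0 < d → ‖Λ g c d‖ ≤ D * (1 / ((c : ℝ) * d))) :
    ∀ w, NN w → ∀ g (c d c' d' : ℕ), 0 < c → 0 < d → (c' : ℤ) = c * w 0 0 + d * w 1 0 →
      (d' : ℤ) = c * w 0 1 + d * w 1 1 →
      ‖Λ g c d - Λ (g * w) c' d'‖ ≤ D * (1 / ((c : ℝ) * d) - 1 / ((c' : ℝ) * d')) := by
  refine contract_NN_induction _ ?_ ?_ ?_
  · intro g c d c' d' _ _ h1 h2
    have e1 : c' = c := by
      have : (c' : ℤ) = c := by simpa using h1
      exact_mod_cast this
    have e2 : d' = d := by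
      have : (d' : ℤ) = d := by simpa using h2
      exact_mod_cast this
    subst e1 e2
    simp
  · intro w _ ih g c d c' d' hc hd h1 h2
    have hcd : 0 < c + d := by omega
    have i1 := ih (g * Lm) (c + d) d c' d' hcd hd
      (by rw [h1, mul_entry, mul_entry]; simp only [Lm_00, Lm_01, Lm_10, Lm_11]; push_cast; ring)
      (by rw [h2, mul_entry, mul_entry]; simp only [Lm_00, Lm_01, Lm_10, Lm_11]; push_cast; ring)
    have i2 := hP (g * Rm) c (c + d) hc hcd
    rw [hadd g c d hc hd, contract_a_add hc hd, ← mul_assoc]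
    calc ‖Λ (g * Lm) (c + d) d + Λ (g * Rm) c (c + d) - Λ (g * Lm * w) c' d'‖
        = ‖(Λ (g * Lm) (c + d) d - Λ (g * Lm * w) c' d') + Λ (g * Rm) c (c + d)‖ := by
          congr 1; ring
      _ ≤ ‖Λ (g * Lm) (c + d) d - Λ (g * Lm * w) c' d'‖ + ‖Λ (g * Rm) c (c + d)‖ :=
          norm_add_le _ _
      _ ≤ _ := by linarith
  · intro w _ ih g c d c' d' hc hd h1 h2
    have hcd : 0 < c + d := by omega
    have i1 := ih (g * Rm) c (c + d) c' d' hc hcd
      (by rw [h1, mul_entry, mul_entry]; simp only [Rm_00, Rm_01, Rm_10, Rm_11]; push_cast; ring)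
      (by rw [h2, mul_entry, mul_entry]; simp only [Rm_00, Rm_01, Rm_10, Rm_11]; push_cast; ring)
    have i2 := hP (g * Lm) (c + d) d hcd hd
    rw [hadd g c d hc hd, contract_a_add hc hd, ← mul_assoc]
    calc ‖Λ (g * Lm) (c + d) d + Λ (g * Rm) c (c + d) - Λ (g * Rm * w) c' d'‖
        = ‖(Λ (g * Rm) c (c + d) - Λ (g * Rm * w) c' d') + Λ (g * Lm) (c + d) d‖ := by
          congr 1; ring
      _ ≤ ‖Λ (g * Rm) c (c + d) - Λ (g * Rm * w) c' d'‖ + ‖Λ (g * Lm) (c + d) d‖ :=
          norm_add_le _ _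
      _ ≤ _ := by linarith

theorem contract_limit {x A D : ℝ} {c d e : ℝ} (hd : 0 < d) (he : 0 < e)
    (h : ∀ k : ℕ, x ≤ D * (A - 1 / ((c + k * d) * e)) + 1 / ((c + k * d) * e)) : x ≤ D * A := by
  have t1 : Filter.Tendsto (fun k : ℕ => (c + k * d) * e) Filter.atTop Filter.atTop := by
    refine Filter.Tendsto.atTop_mul_const he ?_
    refine Filter.tendsto_atTop_add_const_left _ _ ?_
    exact Filter.Tendsto.atTop_mul_const hd tendsto_natCast_atTop_atTop
  have t2 : Filter.Tendsto (fun k : ℕ => 1 / ((c + k * d) * e)) Filter.atTop (nhds 0) := by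
    simpa only [one_div, Function.comp_def] using tendsto_inv_atTop_zero.comp t1
  have t3 : Filter.Tendsto
      (fun k : ℕ => D * (A - 1 / ((c + k * d) * e)) + 1 / ((c + k * d) * e)) Filter.atTop
      (nhds (D * (A - 0) + 0)) :=
    ((tendsto_const_nhds.sub t2).const_mul D).add t2
  have := ge_of_tendsto' t3 h
  simpa using this

theorem contract_general (Λ : SL(2, ℤ) → ℕ → ℕ → ℂ)
    (hadd : ∀ g c d, 0 < c → 0 < d → Λ g c d = Λ (g * Lm) (c + d) d + Λ (g * Rm) c (c + d))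
    (hbdd : ∀ g c d, 0 < c → 0 < d → ‖Λ g c d‖ ≤ 1 / ((c : ℝ) * d)) {D : ℝ}
    (hbal : ∀ g c d, 0 < c → 0 < d → c ≤ 2 * d → d ≤ 2 * c →
      ‖Λ g c d‖ ≤ D * (1 / ((c : ℝ) * d))) :
    ∀ g c d, 0 < c → 0 < d → ‖Λ g c d‖ ≤ D * (1 / ((c : ℝ) * d)) := by
  have A : ∀ k : ℕ, ∀ g (c d : ℕ), 0 < c → 0 < d → d ≤ c →
      ‖Λ g c d‖ ≤ D * (1 / ((c : ℝ) * d) - 1 / (((c : ℝ) + k * d) * d)) +
        1 / (((c : ℝ) + k * d) * d) := by
    intro k
    induction k with
    | zero =>
      intro g c d hc hd _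
      simpa using hbdd g c d hc hd
    | succ k ih =>
      intro g c d hc hd hdc
      have hcd : 0 < c + d := by omega
      have i1 := ih (g * Lm) (c + d) d hcd hd (by omega)
      have i2 := hbal (g * Rm) c (c + d) hc hcd (by omega) (by omega)
      have e : (((c + d : ℕ) : ℝ) + k * d) = (c : ℝ) + ((k + 1 : ℕ) : ℝ) * d := by
        push_cast; ring
      rw [e] at i1
      rw [hadd g c d hc hd, contract_a_add hc hd]
      have := norm_add_le (Λ (g * Lm) (c + d) d) (Λ (g * Rm) c (c + d))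
      linarith
  have B : ∀ k : ℕ, ∀ g (c d : ℕ), 0 < c → 0 < d → c ≤ d →
      ‖Λ g c d‖ ≤ D * (1 / ((c : ℝ) * d) - 1 / (((d : ℝ) + k * c) * c)) +
        1 / (((d : ℝ) + k * c) * c) := by
    intro k
    induction k with
    | zero =>
      intro g c d hc hd _
      have := hbdd g c d hc hd
      simp only [Nat.cast_zero, zero_mul, add_zero]
      rw [mul_comm (d : ℝ) c]
      simpa using this
    | succ k ih =>
      intro g c d hc hd hdc
      have hcd : 0 < c + d := by omega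
      have i1 := ih (g * Rm) c (c + d) hc hcd (by omega)
      have i2 := hbal (g * Lm) (c + d) d hcd hd (by omega) (by omega)
      have e : (((c + d : ℕ) : ℝ) + k * c) = (d : ℝ) + ((k + 1 : ℕ) : ℝ) * c := by
        push_cast; ring
      rw [e] at i1
      rw [hadd g c d hc hd, contract_a_add hc hd]
      have := norm_add_le (Λ (g * Lm) (c + d) d) (Λ (g * Rm) c (c + d))
      linarith
  intro g c d hc hd
  have hc' : (0 : ℝ) < c := by exact_mod_cast hc
  have hd' : (0 : ℝ) < d := by exact_mod_cast hd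
  rcases le_total d c with h | h
  · exact contract_limit hd' hd' fun k => A k g c d hc hd h
  · exact contract_limit hc' hc' fun k => B k g c d hc hd h

theorem contract_between {c d x : ℕ} {u v : ℤ} {Zlo Zhi : ℕ} (hx : (x : ℤ) = c * u + d * v)
    (hu : (Zlo : ℤ) ≤ u ∧ u ≤ Zhi) (hv : (Zlo : ℤ) ≤ v ∧ v ≤ Zhi) :
    (c + d) * Zlo ≤ x ∧ x ≤ (c + d) * Zhi := by
  have hc : (0 : ℤ) ≤ c := Int.natCast_nonneg c
  have hd : (0 : ℤ) ≤ d := Int.natCast_nonneg d
  constructor
  · have : (((c + d) * Zlo : ℕ) : ℤ) ≤ x := by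
      push_cast
      nlinarith [mul_le_mul_of_nonneg_left hu.1 hc, mul_le_mul_of_nonneg_left hv.1 hd]
    exact_mod_cast this
  · have : (x : ℤ) ≤ (((c + d) * Zhi : ℕ) : ℤ) := by
      push_cast
      nlinarith [mul_le_mul_of_nonneg_left hu.2 hc, mul_le_mul_of_nonneg_left hv.2 hd]
    exact_mod_cast this

theorem contract_a_bounds {x y Z Z' : ℕ} (hZ : 0 < Z) (hx : Z ≤ x ∧ x ≤ Z') (hy : Z ≤ y ∧ y ≤ Z') :
    1 / (Z' : ℝ) ^ 2 ≤ 1 / ((x : ℝ) * y) ∧ 1 / ((x : ℝ) * y) ≤ 1 / (Z : ℝ) ^ 2 := by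
  have hZ' : (0 : ℝ) < Z := by exact_mod_cast hZ
  have x1 : (Z : ℝ) ≤ x := by exact_mod_cast hx.1
  have x2 : (x : ℝ) ≤ Z' := by exact_mod_cast hx.2
  have y1 : (Z : ℝ) ≤ y := by exact_mod_cast hy.1
  have y2 : (y : ℝ) ≤ Z' := by exact_mod_cast hy.2
  have hxp : (0 : ℝ) < x := by linarith
  have hyp : (0 : ℝ) < y := by linarith
  constructor
  · refine one_div_le_one_div_of_le (mul_pos hxp hyp) ?_
    rw [sq]
    exact mul_le_mul x2 y2 hyp.le (by linarith)
  · refine one_div_le_one_div_of_le (by positivity) ?_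
    rw [sq]
    exact mul_le_mul x1 y1 hZ'.le hxp.le

/- HINT.  Write a(c,d) = 1/(c d); a(c,d) = a(c+d,d) + a(c,c+d).  Let P(D) say
|Lam g c d| <= D a(c,d) for all g and c, d > 0; let D0 = sSup of the values |Lam g c d| c d, so
0 <= D0 <= 1 and P(D0).
(1) Removal: if P(D), w has nonnegative entries, c' = c w00 + d w10, d' = c w01 + d w11 (naturals,
    stated through casts; they are positive), then
    |Lam g c d - Lam (g w) c' d'| <= D (a(c,d) - a(c',d')).  Strong induction on the sum of the entries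
    of w:  either w = 1, or w = Rm w' (first row >= second row) or w = Lm w' (second row >= first
    row) with w' nonnegative and smaller (determinant one forces one of the three cases).
(2) Balanced to general: if D >= 0 and the bound D a(c,d) holds whenever c <= 2d and d <= 2c, it holds
    for all c, d:  for c >= d, (c, c+d) is balanced, so by hadd
    |Lam g c d| <= |Lam (g L^k) (c + k d) d| + D (a(c,d) - a(c + k d, d)) and the first term is at most
    a(c + k d, d) -> 0;  symmetric for d >= c with Rm.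
(3) Balanced c, d, s = c + d; w0 = p Lm u0, w1 = p Rm u1 from hswap; l0, l1 the rows (c,d) w0,
    (c,d) w1, with entries in [s Zlo, s Zhi].  Remove p, split by hadd, remove u0 and u1:
    |Lam g c d| <= D0 (a(c,d) - a(l0) - a(l1)) + |Lam (g w0) l0 + zeta Lam (g w0) l1|, and the last term is
    <= (2 - kappa) D0 a(l0) + delta with delta = 1/(s Zlo)^2 - 1/(s Zhi)^2 <= 3 eps/(s Zhi)^2 (eps <= 1).
    Also a(l0) - a(l1) <= delta, a(l0) >= 1/(s Zhi)^2, and c d >= (2/9) s^2.  If kappa D0 > 6 eps this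
    gives the balanced bound with D0 - (kappa D0 - 6 eps)(2/9)/Zmax^2 < D0 (use max with 0 or note that
    it is nonnegative), contradiction with (2) and the definition of D0.  So D0 = 0. -/
theorem contract (Λ : SL(2, ℤ) → ℕ → ℕ → ℂ)
    (hadd : ∀ g c d, 0 < c → 0 < d → Λ g c d = Λ (g * Lm) (c + d) d + Λ (g * Rm) c (c + d))
    (hbdd : ∀ g c d, 0 < c → 0 < d → ‖Λ g c d‖ ≤ 1 / ((c : ℝ) * d))
    (hcont : ∀ g (c d c' d' Z Z' : ℕ), 0 < Z → Z ≤ c → Z ≤ d → Z ≤ c' → Z ≤ d' →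
      c ≤ Z' → d ≤ Z' → c' ≤ Z' → d' ≤ Z' →
      ‖Λ g c d - Λ g c' d'‖ ≤ 1 / (Z : ℝ) ^ 2 - 1 / (Z' : ℝ) ^ 2)
    (hswap : ∃ κ : ℝ, 0 < κ ∧ ∀ ε : ℝ, 0 < ε → ∃ Zmax : ℕ, ∀ g : SL(2, ℤ),
      ∃ (p u₀ u₁ : SL(2, ℤ)) (Zlo Zhi : ℕ) (ζ : ℂ), NN p ∧ NN u₀ ∧ NN u₁ ∧ 0 < Zlo ∧
        Zhi ≤ Zmax ∧ (Zhi : ℝ) ≤ (1 + ε) * Zlo ∧
        (∀ i j, (Zlo : ℤ) ≤ (p * Lm * u₀) i j ∧ (p * Lm * u₀) i j ≤ Zhi) ∧
        (∀ i j, (Zlo : ℤ) ≤ (p * Rm * u₁) i j ∧ (p * Rm * u₁) i j ≤ Zhi) ∧
        ‖ζ‖ = 1 ∧ ‖1 + ζ‖ ≤ 2 - κ ∧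
        ∀ c d, Λ (g * (p * Rm * u₁)) c d = ζ * Λ (g * (p * Lm * u₀)) c d)
    (g : SL(2, ℤ)) {c d : ℕ} (hc : 0 < c) (hd : 0 < d) : Λ g c d = 0 := by
  obtain ⟨κ, hκ, hswap⟩ := hswap
  set S : Set ℝ := {D | ∀ g c d, 0 < c → 0 < d → ‖Λ g c d‖ ≤ D * (1 / ((c : ℝ) * d))} with hS
  have h1S : (1 : ℝ) ∈ S := by
    intro g c d hc hd
    rw [one_mul]
    exact hbdd g c d hc hd
  have hlow : ∀ D ∈ S, 0 ≤ D := by
    intro D hD
    have := hD 1 1 1 one_pos one_pos
    simp only [Nat.cast_one, mul_one, div_one] at this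
    exact (norm_nonneg _).trans this
  have hbb : BddBelow S := ⟨0, hlow⟩
  have hne : S.Nonempty := ⟨1, h1S⟩
  have hD0S : sInf S ∈ S := by
    intro g c d hc hd
    have hc' : (0 : ℝ) < c := by exact_mod_cast hc
    have hd' : (0 : ℝ) < d := by exact_mod_cast hd
    have hcd : (0 : ℝ) < (c : ℝ) * d := mul_pos hc' hd'
    have : ‖Λ g c d‖ * ((c : ℝ) * d) ≤ sInf S := by
      refine le_csInf hne fun D hD => ?_
      have := hD g c d hc hd
      rw [mul_one_div, le_div_iff₀ hcd] at this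
      exact this
    rw [mul_one_div, le_div_iff₀ hcd]
    exact this
  have hD0le : sInf S ≤ 1 := csInf_le hbb h1S
  have hD0ge : 0 ≤ sInf S := hlow _ hD0S
  generalize hD : sInf S = D at hD0S hD0le hD0ge
  have hP : ∀ g c d, 0 < c → 0 < d → ‖Λ g c d‖ ≤ D * (1 / ((c : ℝ) * d)) := hD0S
  have hD0 : D = 0 := by
    by_contra hne0
    have hDpos : 0 < D := lt_of_le_of_ne hD0ge (Ne.symm hne0)
    set ε : ℝ := min 1 (κ * D / 12) with hε
    have hεpos : 0 < ε := lt_min one_pos (by positivity)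
    have hε1 : ε ≤ 1 := min_le_left _ _
    have hε2 : ε ≤ κ * D / 12 := min_le_right _ _
    have hgap : 0 < κ * D - 6 * ε := by
      have : 0 < κ * D := mul_pos hκ hDpos
      linarith
    obtain ⟨Zmax, hZ⟩ := hswap ε hεpos
    have hZmax : 0 < Zmax := by
      obtain ⟨p, u₀, u₁, Zlo, Zhi, ζ, -, -, -, hlo, hhi, -, hw0, -⟩ := hZ 1
      have := hw0 0 0
      omega
    have hZmax' : (0 : ℝ) < Zmax := by exact_mod_cast hZmax
    have hnew : D - (κ * D - 6 * ε) * (2 / 9) / (Zmax : ℝ) ^ 2 ∈ S := by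
      refine contract_general Λ hadd hbdd ?_
      intro g c d hc hd hcd hdc
      obtain ⟨p, u₀, u₁, Zlo, Zhi, ζ, hp, hu₀, hu₁, hlo, hhi, hrat, hw0, hw1, hζ, hζ1, hsw⟩ := hZ g
      obtain ⟨c1, d1, hc1, hd1, ec1, ed1⟩ := contract_row hp hc hd
      have hcd1 : 0 < c1 + d1 := by omega
      obtain ⟨x0, y0, hx0, hy0, ex0, ey0⟩ := contract_row hu₀ hcd1 hd1
      obtain ⟨x1, y1, hx1, hy1, ex1, ey1⟩ := contract_row hu₁ hc1 hcd1
      have r0 := contract_removal Λ hadd hP p hp g c d c1 d1 hc hd ec1 ed1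
      have r1 := contract_removal Λ hadd hP u₀ hu₀ (g * p * Lm) (c1 + d1) d1 x0 y0 hcd1 hd1 ex0 ey0
      have r2 := contract_removal Λ hadd hP u₁ hu₁ (g * p * Rm) c1 (c1 + d1) x1 y1 hc1 hcd1 ex1 ey1
      have ha := hadd (g * p) c1 d1 hc1 hd1
      have haa := contract_a_add hc1 hd1
      have eg0 : g * p * Lm * u₀ = g * (p * Lm * u₀) := by simp only [mul_assoc]
      have eg1 : g * p * Rm * u₁ = g * (p * Rm * u₁) := by simp only [mul_assoc]
      rw [eg0] at r1
      rw [eg1, hsw] at r2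
      have bx0 : (c + d) * Zlo ≤ x0 ∧ x0 ≤ (c + d) * Zhi := by
        refine contract_between ?_ (hw0 0 0) (hw0 1 0)
        rw [ex0]
        simp only [mul_entry, Lm_00, Lm_01, Lm_10, Lm_11]
        push_cast
        rw [ec1, ed1]
        ring
      have by0 : (c + d) * Zlo ≤ y0 ∧ y0 ≤ (c + d) * Zhi := by
        refine contract_between ?_ (hw0 0 1) (hw0 1 1)
        rw [ey0]
        simp only [mul_entry, Lm_00, Lm_01, Lm_10, Lm_11]
        push_cast
        rw [ec1, ed1]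
        ring
      have bx1 : (c + d) * Zlo ≤ x1 ∧ x1 ≤ (c + d) * Zhi := by
        refine contract_between ?_ (hw1 0 0) (hw1 1 0)
        rw [ex1]
        simp only [mul_entry, Rm_00, Rm_01, Rm_10, Rm_11]
        push_cast
        rw [ec1, ed1]
        ring
      have by1 : (c + d) * Zlo ≤ y1 ∧ y1 ≤ (c + d) * Zhi := by
        refine contract_between ?_ (hw1 0 1) (hw1 1 1)
        rw [ey1]
        simp only [mul_entry, Rm_00, Rm_01, Rm_10, Rm_11]
        push_cast
        rw [ec1, ed1]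
        ring
      have hslo : 0 < (c + d) * Zlo := Nat.mul_pos (by omega) hlo
      have hco := hcont (g * (p * Lm * u₀)) x1 y1 x0 y0 ((c + d) * Zlo) ((c + d) * Zhi) hslo
        bx1.1 by1.1 bx0.1 by0.1 bx1.2 by1.2 bx0.2 by0.2
      have a0 := contract_a_bounds hslo bx0 by0
      have a1 := contract_a_bounds hslo bx1 by1
      have hP0 := hP (g * (p * Lm * u₀)) x0 y0 hx0 hy0
      have hlast : ‖Λ (g * (p * Lm * u₀)) x0 y0 + ζ * Λ (g * (p * Lm * u₀)) x1 y1‖ ≤
          (2 - κ) * (D * (1 / ((x0 : ℝ) * y0))) +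
            (1 / (((c + d) * Zlo : ℕ) : ℝ) ^ 2 - 1 / (((c + d) * Zhi : ℕ) : ℝ) ^ 2) := by
        have e : Λ (g * (p * Lm * u₀)) x0 y0 + ζ * Λ (g * (p * Lm * u₀)) x1 y1 =
            (1 + ζ) * Λ (g * (p * Lm * u₀)) x0 y0 +
              ζ * (Λ (g * (p * Lm * u₀)) x1 y1 - Λ (g * (p * Lm * u₀)) x0 y0) := by ring
        rw [e]
        refine (norm_add_le _ _).trans (add_le_add ?_ ?_)
        · rw [norm_mul]
          exact mul_le_mul hζ1 hP0 (norm_nonneg _) ((norm_nonneg _).trans hζ1)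
        · rw [norm_mul, hζ, one_mul]
          exact hco
      have hmain : ‖Λ g c d‖ ≤ ‖Λ g c d - Λ (g * p) c1 d1‖ +
          ‖Λ (g * p * Lm) (c1 + d1) d1 - Λ (g * (p * Lm * u₀)) x0 y0‖ +
          ‖Λ (g * p * Rm) c1 (c1 + d1) - ζ * Λ (g * (p * Lm * u₀)) x1 y1‖ +
          ‖Λ (g * (p * Lm * u₀)) x0 y0 + ζ * Λ (g * (p * Lm * u₀)) x1 y1‖ := by
        have e : Λ g c d = (Λ g c d - Λ (g * p) c1 d1) +
            (Λ (g * p * Lm) (c1 + d1) d1 - Λ (g * (p * Lm * u₀)) x0 y0) +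
            (Λ (g * p * Rm) c1 (c1 + d1) - ζ * Λ (g * (p * Lm * u₀)) x1 y1) +
            (Λ (g * (p * Lm * u₀)) x0 y0 + ζ * Λ (g * (p * Lm * u₀)) x1 y1) := by
          rw [ha]; ring
        calc ‖Λ g c d‖ = ‖(Λ g c d - Λ (g * p) c1 d1) +
            (Λ (g * p * Lm) (c1 + d1) d1 - Λ (g * (p * Lm * u₀)) x0 y0) +
            (Λ (g * p * Rm) c1 (c1 + d1) - ζ * Λ (g * (p * Lm * u₀)) x1 y1) +
            (Λ (g * (p * Lm * u₀)) x0 y0 + ζ * Λ (g * (p * Lm * u₀)) x1 y1)‖ := by rw [← e]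
          _ ≤ _ := norm_add₄_le
      have hc' : (0 : ℝ) < c := by exact_mod_cast hc
      have hd' : (0 : ℝ) < d := by exact_mod_cast hd
      have hcd' : (c : ℝ) ≤ 2 * d := by exact_mod_cast hcd
      have hdc' : (d : ℝ) ≤ 2 * c := by exact_mod_cast hdc
      have hlo' : (0 : ℝ) < Zlo := by exact_mod_cast hlo
      have hlohi : (Zlo : ℝ) ≤ Zhi := by
        have := hw0 0 0
        have h2 : Zlo ≤ Zhi := by omega
        exact_mod_cast h2
      have hhi0 : (0 : ℝ) < Zhi := by linarith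
      have hhi' : (Zhi : ℝ) ≤ Zmax := by exact_mod_cast hhi
      set T : ℝ := 1 / (((c + d) * Zhi : ℕ) : ℝ) ^ 2 with hT
      set U : ℝ := 1 / (((c + d) * Zlo : ℕ) : ℝ) ^ 2 with hU
      have hTpos : 0 < T := by
        rw [hT]; push_cast; positivity
      have hUT : U ≤ (1 + 3 * ε) * T := by
        rw [hT, hU, mul_one_div]
        push_cast
        rw [div_le_div_iff₀ (by positivity) (by positivity), one_mul, mul_pow, mul_pow]
        have h1 : (Zhi : ℝ) ^ 2 ≤ ((1 + ε) * Zlo) ^ 2 := pow_le_pow_left₀ hhi0.le hrat 2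
        have h2 : (1 + ε) ^ 2 ≤ 1 + 3 * ε := by nlinarith
        have h3 : (Zhi : ℝ) ^ 2 ≤ (1 + 3 * ε) * Zlo ^ 2 := by
          rw [mul_pow] at h1
          exact h1.trans (mul_le_mul_of_nonneg_right h2 (by positivity))
        calc ((c : ℝ) + d) ^ 2 * Zhi ^ 2 ≤ ((c : ℝ) + d) ^ 2 * ((1 + 3 * ε) * Zlo ^ 2) :=
              mul_le_mul_of_nonneg_left h3 (by positivity)
          _ = _ := by ring
      have hTlow : (2 / 9) / (Zmax : ℝ) ^ 2 * (1 / ((c : ℝ) * d)) ≤ T := by
        rw [hT, div_mul_div_comm, mul_one]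
        push_cast
        rw [div_le_div_iff₀ (by positivity) (by positivity), one_mul, mul_pow]
        have h1 : (Zhi : ℝ) ^ 2 ≤ (Zmax : ℝ) ^ 2 := pow_le_pow_left₀ hhi0.le hhi' 2
        have h2 : 2 / 9 * ((c : ℝ) + d) ^ 2 ≤ c * d := by
          nlinarith [mul_nonneg (sub_nonneg.2 hcd') (sub_nonneg.2 hdc')]
        calc (2 / 9 : ℝ) * (((c : ℝ) + d) ^ 2 * (Zhi : ℝ) ^ 2)
            = ((2 / 9 : ℝ) * ((c : ℝ) + d) ^ 2) * (Zhi : ℝ) ^ 2 := by ring
          _ ≤ ((c : ℝ) * d) * (Zmax : ℝ) ^ 2 := mul_le_mul h2 h1 (by positivity) (by positivity)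
          _ = _ := by ring
      set A : ℝ := 1 / ((c : ℝ) * d) with hA
      set A0 : ℝ := 1 / ((x0 : ℝ) * y0) with hA0
      set A1 : ℝ := 1 / ((x1 : ℝ) * y1) with hA1
      have s1 : ‖Λ g c d‖ ≤ D * (A - A0 - A1) + ((2 - κ) * (D * A0) + (U - T)) := by
        rw [haa] at r0
        linarith
      have s2 : D * (A0 - A1) ≤ U - T := by
        have q1 : A0 - A1 ≤ U - T := by linarith [a0.2, a1.1]
        have q2 : 0 ≤ U - T := by linarith [a0.2, a0.1]
        calc D * (A0 - A1) ≤ D * (U - T) := mul_le_mul_of_nonneg_left q1 hD0ge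
          _ ≤ 1 * (U - T) := mul_le_mul_of_nonneg_right hD0le q2
          _ = U - T := one_mul _
      have s3 : κ * D * T ≤ κ * D * A0 := mul_le_mul_of_nonneg_left a0.1 (by positivity)
      have s4 : (κ * D - 6 * ε) * ((2 / 9) / (Zmax : ℝ) ^ 2 * A) ≤ (κ * D - 6 * ε) * T :=
        mul_le_mul_of_nonneg_left hTlow hgap.le
      have e5 : (D - (κ * D - 6 * ε) * (2 / 9) / (Zmax : ℝ) ^ 2) * A =
          D * A - (κ * D - 6 * ε) * ((2 / 9) / (Zmax : ℝ) ^ 2 * A) := by ring
      rw [e5]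
      linarith
    have hle := csInf_le hbb hnew
    rw [hD] at hle
    have : 0 < (κ * D - 6 * ε) * (2 / 9) / (Zmax : ℝ) ^ 2 := by positivity
    linarith
  have := hP g c d hc hd
  rw [hD0, zero_mul] at this
  exact norm_le_zero_iff.1 this

end Pool.Agent.P.MP_99daa8_nt
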