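import Mathlib

/-!
Definitions for the density-one equidistribution of modular symbols modulo prime powers.
-/

namespace Pool.Agent.P.MP_99daa8_nt

open scoped MatrixGroups Real
open Finset

/-! Definitions used by the final statement. -/

/-- `2 π i ∫_{i∞}^{r} f(z) dz`, along the vertical line `z = r + t i`, `dz = i dt`,
with `t` running from `∞` down to `0`. -/
noncomputable def period (f : UpperHalfPlane → ℂ) (r : ℚ) : ℂ :=
  2 * π * Complex.I *
    (-(∫ t in Set.Ioi (0 : ℝ), f (UpperHalfPlane.ofComplex ((r : ℂ) + t * Complex.I)) * Complex.I))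

/-- The normalised modular symbol `(1 / (2 Ω)) (2πi ∫_{i∞}^{r} f + ε 2πi ∫_{i∞}^{-r} f)`. -/
noncomputable def modSym (f : UpperHalfPlane → ℂ) (Ω : ℂ) (ε : ℤ) (r : ℚ) : ℂ :=
  1 / (2 * Ω) * (period f r + ε * period f (-r))

/-- `x` is a `p`-integral rational number. -/
def IsPIntegral (p : ℕ) (x : ℂ) : Prop :=
  ∃ q : ℚ, x = q ∧ ¬ p ∣ q.den

/-- `x` is a `p`-integral rational number congruent to the integer `a` modulo `p ^ e`. -/
def CongMod (p e : ℕ) (x : ℂ) (a : ℤ) : Prop :=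
  ∃ q : ℚ, x = q ∧ ¬ p ∣ q.den ∧ (p : ℤ) ^ e ∣ (q - a).num

/-- The weight-2 Hecke operator `T_l` at a prime `l` not dividing the level:
`(T_l f)(z) = l f(l z) + (1 / l) ∑_{0 ≤ j < l} f((z + j) / l)`. -/
noncomputable def hecke (l : ℕ) (f : UpperHalfPlane → ℂ) (z : UpperHalfPlane) : ℂ :=
  l * f (UpperHalfPlane.ofComplex (l * (z : ℂ))) +
    1 / (l : ℂ) * ∑ j ∈ range l, f (UpperHalfPlane.ofComplex (((z : ℂ) + j) / l))

/-- The numerators `a` of the fractions `a / M` in `Σ_M`: `1 ≤ a < M`, `gcd (a, M) = 1`. -/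
def sigmaSet (M : ℕ) : Finset ℕ :=
  (Ico 1 M).filter fun a => Nat.Coprime a M

open Classical in
/-- The probability of the event `E` on `Σ_M` with the uniform measure. -/
noncomputable def prob (M : ℕ) (E : ℚ → Prop) : ℝ :=
  (((sigmaSet M).filter fun a : ℕ => E ((a : ℚ) / (M : ℚ))).card : ℝ) / (sigmaSet M).card

open Classical in
/-- `S` has natural density one. -/
def HasDensityOne (S : Set ℕ) : Prop :=
  Filter.Tendsto (fun X : ℕ => (((range X).filter fun M => M ∈ S).card : ℝ) / X)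
    Filter.atTop (nhds 1)

/-! Definitions used only inside the proof. -/

/-- The action of `SL(2, ℤ)` on column vectors. -/
def act (g : SL(2, ℤ)) (v : ℤ × ℤ) : ℤ × ℤ :=
  (g 0 0 * v.1 + g 0 1 * v.2, g 1 0 * v.1 + g 1 1 * v.2)

/-- The lower unipotent generator. -/
def Lm : SL(2, ℤ) := ⟨!![1, 0; 1, 1], by simp [Matrix.det_fin_two]⟩

/-- The upper unipotent generator. -/
def Rm : SL(2, ℤ) := ⟨!![1, 1; 0, 1], by simp [Matrix.det_fin_two]⟩

/-- All entries are nonnegative. -/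
def NN (w : SL(2, ℤ)) : Prop := ∀ i j, 0 ≤ w i j

/-- Lattice points `x > 0`, `y ≥ 0` on the line `c x + d y = M`. -/
def seg (c d M : ℕ) : Finset (ℕ × ℕ) :=
  (range (M + 1) ×ˢ range (M + 1)).filter fun v => 0 < v.1 ∧ c * v.1 + d * v.2 = M

/-- Lattice points `x > 0`, `y ≥ 0` in the triangle `c x + d y ≤ X`. -/
def tri (c d X : ℕ) : Finset (ℕ × ℕ) :=
  (range (X + 1) ×ˢ range (X + 1)).filter fun v => 0 < v.1 ∧ c * v.1 + d * v.2 ≤ X

/-- Sum of `s (g v)` over `seg c d M`. -/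
noncomputable def segSum (s : ℤ × ℤ → ℂ) (g : SL(2, ℤ)) (c d M : ℕ) : ℂ :=
  ∑ v ∈ seg c d M, s (act g ((v.1 : ℤ), (v.2 : ℤ)))

/-- Sum of `s (g v)` over `tri c d X`. -/
noncomputable def triSum (s : ℤ × ℤ → ℂ) (g : SL(2, ℤ)) (c d X : ℕ) : ℂ :=
  ∑ v ∈ tri c d X, s (act g ((v.1 : ℤ), (v.2 : ℤ)))

/-- A bounded function on `ℤ²` that transforms under `Γ(N)` by a non-congruence character `θ`
of order dividing `n`. -/
structure Equivar (s : ℤ × ℤ → ℂ) (N n : ℕ) (θ : SL(2, ℤ) → ℂ) : Prop where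
  N_pos : 0 < N
  n_pos : 0 < n
  bdd : ∀ v, ‖s v‖ ≤ 1
  equiv : ∀ γ ∈ CongruenceSubgroup.Gamma N, ∀ v, s (act γ v) = θ γ * s v
  mul : ∀ γ ∈ CongruenceSubgroup.Gamma N, ∀ δ ∈ CongruenceSubgroup.Gamma N,
    θ (γ * δ) = θ γ * θ δ
  pow : ∀ γ ∈ CongruenceSubgroup.Gamma N, θ γ ^ n = 1
  noncong : ∀ q : ℕ, 0 < q → ∃ h ∈ CongruenceSubgroup.Gamma (q * N), θ h ≠ 1

/-- The period as a function of a column vector `(a, c)`, i.e. of the cusp `a / c`. -/
noncomputable def per2 (f : UpperHalfPlane → ℂ) (v : ℤ × ℤ) : ℂ :=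
  if v.2 = 0 then 0 else period f ((v.1 : ℚ) / (v.2 : ℚ))

end Pool.Agent.P.MP_99daa8_nt
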