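import Pool.Agent.P.MP_99daa8_nt.Defs

namespace Pool.Agent.P.MP_99daa8_nt

open Finset Filter Topology

/-- The sum of the reciprocals of the prime factors. -/
noncomputable def densS (M : ℕ) : ℝ := ∑ p ∈ M.primeFactors, (p : ℝ)⁻¹

theorem dens_nonneg (M : ℕ) : 0 ≤ densS M :=
  sum_nonneg fun _ _ => by positivity

theorem dens_exp_le {x : ℝ} (h0 : 0 ≤ x) (h1 : x ≤ 1 / 2) : Real.exp (-(2 * x)) ≤ 1 - x := by
  have h2 := Real.add_one_le_exp (2 * x)
  rw [Real.exp_neg, inv_le_comm₀ (Real.exp_pos _) (by linarith)]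
  refine le_trans ?_ h2
  rw [inv_le_iff_one_le_mul₀ (by linarith)]
  nlinarith

theorem dens_totient (M : ℕ) : M * Real.exp (-(2 * densS M)) ≤ Nat.totient M := by
  have h : (Nat.totient M : ℝ) = M * ∏ p ∈ M.primeFactors, (1 - (p : ℝ)⁻¹) := by
    have := congrArg (fun q : ℚ => (q : ℝ)) (Nat.totient_eq_mul_prod_factors M)
    push_cast at this
    exact this
  rw [h, densS, mul_sum, ← sum_neg_distrib, Real.exp_sum]
  refine mul_le_mul_of_nonneg_left (prod_le_prod (fun _ _ => (Real.exp_pos _).le) fun p hp => ?_)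
    (Nat.cast_nonneg M)
  have h2 : (2 : ℝ) ≤ p := by exact_mod_cast (Nat.prime_of_mem_primeFactors hp).two_le
  refine dens_exp_le (by positivity) ?_
  rw [one_div]
  exact inv_anti₀ (by norm_num) h2

theorem dens_sum (X : ℕ) : ∑ M ∈ range X, densS M ≤ 2 * X := by
  have h1 : ∀ M ∈ range X, densS M ≤
      ∑ d ∈ Ioo 0 X, if M ≠ 0 ∧ d ∣ M then (d : ℝ)⁻¹ else 0 := by
    intro M hM
    rw [← sum_filter]
    refine sum_le_sum_of_subset_of_nonneg (fun p hp => ?_) fun _ _ _ => by positivity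
    have hp1 := Nat.prime_of_mem_primeFactors hp
    have hp2 := Nat.le_of_mem_primeFactors hp
    have hp3 := mem_range.1 hM
    rw [mem_filter, mem_Ioo]
    exact ⟨⟨hp1.pos, by omega⟩, (Nat.mem_primeFactors.1 hp).2.2, Nat.dvd_of_mem_primeFactors hp⟩
  refine (sum_le_sum h1).trans ?_
  rw [sum_comm]
  have h2 : ∀ d ∈ Ioo 0 X, (∑ M ∈ range X, if M ≠ 0 ∧ d ∣ M then (d : ℝ)⁻¹ else 0)
      ≤ X * ((d : ℝ) ^ 2)⁻¹ := by
    intro d hd
    have hd0 : (0 : ℝ) < d := by exact_mod_cast (mem_Ioo.1 hd).1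
    rw [← sum_filter, sum_const, nsmul_eq_mul]
    have h3 : #{M ∈ range X | M ≠ 0 ∧ d ∣ M} ≤ X / d := by
      rw [← Nat.card_multiples' X d]
      exact card_le_card (filter_subset_filter _ (range_subset_range.2 (Nat.le_succ X)))
    have h4 : (#{M ∈ range X | M ≠ 0 ∧ d ∣ M} : ℝ) ≤ X / d :=
      le_trans (by exact_mod_cast h3) Nat.cast_div_le
    refine (mul_le_mul_of_nonneg_right h4 (by positivity)).trans (le_of_eq ?_)
    field_simp
  refine (sum_le_sum h2).trans ?_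
  rw [← mul_sum, mul_comm]
  refine mul_le_mul_of_nonneg_right ?_ (Nat.cast_nonneg X)
  simpa using sum_Ioo_inv_sq_le (α := ℝ) 0 X

theorem dens_pointwise (a : ℕ → ℝ) (h0 : ∀ M, 0 ≤ a M)
    (h1 : ∀ M, 2 ≤ M → a M ≤ Nat.totient M) {ε : ℝ} (hε : 0 < ε) {X : ℝ} (hX : 0 < X) (M : ℕ) :
    a M / Nat.totient M ≤ (if (M : ℝ) < ε * X then 1 else 0) + ε * densS M + ε
      + Real.exp (2 / ε) ^ 2 / ε ^ 3 * (a M ^ 2 / X ^ 2) + (if M = 1 then a 1 else 0) := by
  have n1 : (0 : ℝ) ≤ if (M : ℝ) < ε * X then 1 else 0 := by split_ifs <;> norm_num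
  have n2 : 0 ≤ ε * densS M := mul_nonneg hε.le (dens_nonneg M)
  have n3 : 0 ≤ Real.exp (2 / ε) ^ 2 / ε ^ 3 * (a M ^ 2 / X ^ 2) := by positivity
  have n4 : (0 : ℝ) ≤ if M = 1 then a 1 else 0 := by
    split_ifs
    · exact h0 1
    · exact le_rfl
  rcases Nat.lt_or_ge M 2 with hM | hM
  · have e : a M / Nat.totient M ≤ if M = 1 then a 1 else 0 := by
      interval_cases M <;> simp
    linarith
  have hφ : (0 : ℝ) < Nat.totient M := by exact_mod_cast Nat.totient_pos.2 (by omega)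
  have hw : a M / Nat.totient M ≤ 1 := (div_le_one hφ).2 (h1 M hM)
  by_cases c1 : (M : ℝ) < ε * X
  · rw [if_pos c1]; linarith
  by_cases c2 : 1 ≤ ε * densS M
  · linarith
  by_cases c3 : a M / Nat.totient M ≤ ε
  · linarith
  push Not at c1 c2 c3
  have e1 : Real.exp (-(2 / ε)) ≤ Real.exp (-(2 * densS M)) := by
    refine Real.exp_le_exp.2 (neg_le_neg ?_)
    rw [le_div_iff₀ hε]
    linarith
  have e2 : ε * X * Real.exp (-(2 / ε)) ≤ Nat.totient M :=
    (mul_le_mul c1 e1 (Real.exp_pos _).le (Nat.cast_nonneg M)).trans (dens_totient M)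
  have hE := Real.exp_pos (2 / ε)
  have e3 : a M / Nat.totient M ≤ Real.exp (2 / ε) * a M / (ε * X) := by
    refine (div_le_div_of_nonneg_left (h0 M) (by positivity) e2).trans (le_of_eq ?_)
    rw [Real.exp_neg]
    field_simp
  have e4 : (a M / Nat.totient M) ^ 2 ≤ (Real.exp (2 / ε) * a M / (ε * X)) ^ 2 :=
    pow_le_pow_left₀ (by linarith) e3 2
  have e5 : a M / Nat.totient M ≤ (a M / Nat.totient M) ^ 2 / ε := by
    rw [le_div_iff₀ hε, sq]
    exact mul_le_mul_of_nonneg_left c3.le (by linarith)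
  have e6 : (Real.exp (2 / ε) * a M / (ε * X)) ^ 2 / ε
      = Real.exp (2 / ε) ^ 2 / ε ^ 3 * (a M ^ 2 / X ^ 2) := by
    field_simp
  have e7 := div_le_div_of_nonneg_right e4 hε.le
  linarith

theorem dens_bound (a : ℕ → ℝ) (h0 : ∀ M, 0 ≤ a M)
    (h1 : ∀ M, 2 ≤ M → a M ≤ Nat.totient M) {ε : ℝ} (hε : 0 < ε) {X : ℕ} (hX : 0 < X) :
    (∑ M ∈ range X, a M / Nat.totient M) / (X : ℝ) ≤ 4 * ε + (1 + a 1) / X
      + Real.exp (2 / ε) ^ 2 / ε ^ 3 * ((∑ M ∈ range (X + 1), a M ^ 2) / (X : ℝ) ^ 3) := by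
  have hX' : (0 : ℝ) < X := by exact_mod_cast hX
  have h := sum_le_sum fun M (_ : M ∈ range X) => dens_pointwise a h0 h1 hε hX' M
  simp only [sum_add_distrib] at h
  have s1 : (∑ M ∈ range X, if (M : ℝ) < ε * X then (1 : ℝ) else 0) ≤ ε * X + 1 := by
    rw [← sum_filter, sum_const, nsmul_eq_mul, mul_one]
    have : ((range X).filter fun M : ℕ => (M : ℝ) < ε * X).card ≤ ⌈ε * X⌉₊ := by
      refine le_trans (card_le_card fun M hM => ?_) (card_range ⌈ε * X⌉₊).le
      exact mem_range.2 (Nat.lt_ceil.2 (mem_filter.1 hM).2)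
    exact le_trans (by exact_mod_cast this) (Nat.ceil_lt_add_one (by positivity)).le
  have s2 : ∑ M ∈ range X, ε * densS M ≤ ε * (2 * X) := by
    rw [← mul_sum]
    exact mul_le_mul_of_nonneg_left (dens_sum X) hε.le
  have s3 : ∑ _M ∈ range X, ε = X * ε := by rw [sum_const, card_range, nsmul_eq_mul]
  have s4 : ∑ M ∈ range X, Real.exp (2 / ε) ^ 2 / ε ^ 3 * (a M ^ 2 / (X : ℝ) ^ 2)
      ≤ Real.exp (2 / ε) ^ 2 / ε ^ 3 * ((∑ M ∈ range (X + 1), a M ^ 2) / (X : ℝ) ^ 2) := by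
    rw [← mul_sum, ← sum_div]
    refine mul_le_mul_of_nonneg_left (div_le_div_of_nonneg_right ?_ (by positivity))
      (by positivity)
    rw [sum_range_succ]
    exact le_add_of_nonneg_right (sq_nonneg _)
  have s5 : (∑ M ∈ range X, if M = 1 then a 1 else 0) ≤ a 1 := by
    rw [sum_ite_eq']
    split_ifs
    · exact le_rfl
    · exact h0 1
  rw [div_le_iff₀ hX']
  have e : (4 * ε + (1 + a 1) / X
      + Real.exp (2 / ε) ^ 2 / ε ^ 3 * ((∑ M ∈ range (X + 1), a M ^ 2) / (X : ℝ) ^ 3)) * X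
      = 4 * ε * X + (1 + a 1)
      + Real.exp (2 / ε) ^ 2 / ε ^ 3 * ((∑ M ∈ range (X + 1), a M ^ 2) / (X : ℝ) ^ 2) := by
    field_simp
  rw [e]
  linarith

theorem cesaro_of_second_moment (a : ℕ → ℝ) (h0 : ∀ M, 0 ≤ a M)
    (h1 : ∀ M, 2 ≤ M → a M ≤ Nat.totient M)
    (h2 : Tendsto (fun X : ℕ => (∑ M ∈ range (X + 1), a M ^ 2) / (X : ℝ) ^ 3) atTop (𝓝 0)) :
    Tendsto (fun X : ℕ => (∑ M ∈ range X, a M / Nat.totient M) / (X : ℝ)) atTop (𝓝 0) := by
  refine tendsto_order.2 ⟨fun b hb => Eventually.of_forall fun X => hb.trans_le ?_,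
    fun b hb => ?_⟩
  · exact div_nonneg (sum_nonneg fun M _ => div_nonneg (h0 M) (Nat.cast_nonneg _))
      (Nat.cast_nonneg _)
  · have hε : 0 < b / 5 := by positivity
    have t1 := (tendsto_const_div_atTop_nhds_zero_nat (1 + a 1)).add
      (h2.const_mul (Real.exp (2 / (b / 5)) ^ 2 / (b / 5) ^ 3))
    rw [mul_zero, add_zero] at t1
    filter_upwards [(tendsto_order.1 t1).2 _ hε, eventually_gt_atTop 0] with X hX1 hX2
    have := dens_bound a h0 h1 hε hX2
    linarith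

theorem dens_majorant (c : ℕ → ℝ) (h0 : ∀ X, 0 ≤ c X) (h : Tendsto c atTop (𝓝 0)) :
    ∃ g : ℕ → ℝ, Antitone g ∧ (∀ X, 0 < g X) ∧ (∀ X, c X ≤ g X ^ 2) ∧
      Tendsto g atTop (𝓝 0) := by
  obtain ⟨B, hB⟩ := h.bddAbove_range
  have hb : ∀ X, BddAbove (Set.range fun k => c (X + k)) := fun X =>
    ⟨B, by rintro _ ⟨k, rfl⟩; exact hB ⟨_, rfl⟩⟩
  have hle : ∀ X, c X ≤ ⨆ k, c (X + k) := fun X => le_ciSup (hb X) 0
  have hanti : Antitone fun X => ⨆ k, c (X + k) := by
    refine antitone_nat_of_succ_le fun X => ciSup_le fun k => ?_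
    rw [add_assoc]
    exact le_ciSup (hb X) (1 + k)
  have hlim : Tendsto (fun X => ⨆ k, c (X + k)) atTop (𝓝 0) := by
    refine tendsto_order.2 ⟨fun b hb' => Eventually.of_forall fun X =>
      hb'.trans_le ((h0 X).trans (hle X)), fun b hb' => ?_⟩
    obtain ⟨N, hN⟩ := eventually_atTop.1 ((tendsto_order.1 h).2 (b / 2) (by positivity))
    filter_upwards [eventually_ge_atTop N] with X hX
    exact lt_of_le_of_lt (ciSup_le fun k => (hN _ (by omega)).le) (by linarith)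
  have hpos : ∀ X : ℕ, 0 < (⨆ k, c (X + k)) + 1 / ((X : ℝ) + 1) := fun X =>
    add_pos_of_nonneg_of_pos ((h0 X).trans (hle X)) (by positivity)
  refine ⟨fun X => √((⨆ k, c (X + k)) + 1 / ((X : ℝ) + 1)), fun X Y hXY => ?_,
    fun X => Real.sqrt_pos.2 (hpos X), fun X => ?_, ?_⟩
  · refine Real.sqrt_le_sqrt (add_le_add (hanti hXY) ?_)
    exact Nat.one_div_le_one_div hXY
  · rw [Real.sq_sqrt (hpos X).le]
    exact (hle X).trans (le_add_of_nonneg_right (by positivity))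
  · have := (hlim.add tendsto_one_div_add_atTop_nhds_zero_nat).sqrt
    rwa [add_zero, Real.sqrt_zero] at this

theorem exists_densityOne (w : ℕ → ℝ) (h0 : ∀ M, 0 ≤ w M)
    (h : Tendsto (fun X : ℕ => (∑ M ∈ range X, w M) / (X : ℝ)) atTop (𝓝 0)) :
    ∃ S : Set ℕ, HasDensityOne S ∧ Tendsto w (atTop ⊓ 𝓟 S) (𝓝 0) := by
  classical
  obtain ⟨g, g1, g2, g3, g4⟩ := dens_majorant _
    (fun X => div_nonneg (sum_nonneg fun M _ => h0 M) (Nat.cast_nonneg X)) h
  refine ⟨{M | w M ≤ g M}, ?_, ?_⟩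
  · have t1 : Tendsto (fun X => 1 - g X) atTop (𝓝 1) := by
      simpa using g4.const_sub 1
    unfold HasDensityOne
    refine tendsto_of_tendsto_of_tendsto_of_le_of_le' t1 tendsto_const_nhds ?_ ?_
    · filter_upwards [eventually_gt_atTop 0] with X hX
      have hX' : (0 : ℝ) < X := by exact_mod_cast hX
      have c1 := card_filter_add_card_filter_not (s := range X) (fun M => w M ≤ g M)
      rw [card_range] at c1
      have c2 : (#{M ∈ range X | w M ≤ g M} : ℝ) + #{M ∈ range X | ¬ w M ≤ g M} = X := by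
        exact_mod_cast c1
      have c3 : (#{M ∈ range X | ¬ w M ≤ g M} : ℝ) * g X ≤ ∑ M ∈ range X, w M := by
        rw [← nsmul_eq_mul]
        refine (card_nsmul_le_sum _ w _ fun M hM => ?_).trans
          (sum_le_sum_of_subset_of_nonneg (filter_subset _ _) fun M _ _ => h0 M)
        rw [mem_filter, mem_range] at hM
        exact (g1 hM.1.le).trans (not_le.1 hM.2).le
      have c4 := g3 X
      rw [div_le_iff₀ hX'] at c4
      have c5 : (#{M ∈ range X | ¬ w M ≤ g M} : ℝ) ≤ g X * X := by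
        refine le_of_mul_le_mul_right ?_ (g2 X)
        linarith
      rw [le_div_iff₀ hX']
      refine le_trans (b := (#{M ∈ range X | w M ≤ g M} : ℝ)) (by linarith) (le_of_eq ?_)
      congr 2
    · filter_upwards [eventually_gt_atTop 0] with X hX
      have hX' : (0 : ℝ) < X := by exact_mod_cast hX
      rw [div_le_one hX']
      exact_mod_cast (card_filter_le _ _).trans (card_range X).le
  · refine tendsto_of_tendsto_of_tendsto_of_le_of_le' tendsto_const_nhds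
      (g4.mono_left inf_le_left) (Eventually.of_forall h0) ?_
    exact eventually_inf_principal.2 (Eventually.of_forall fun M hM => hM)

end Pool.Agent.P.MP_99daa8_nt
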