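import Pool.Agent.P.MP_99daa8_nt.Basic

namespace Pool.Agent.P.MP_99daa8_nt

open scoped MatrixGroups
open Finset

section steps

variable {K : Type*} [Field K] {N : ℕ} {μ : ℤ × ℤ → K}

theorem nc_a (h0 : ∀ x : ℤ, μ (x, 0) = 0)
    (hco : ∀ γ ∈ CongruenceSubgroup.Gamma0 N, ∀ v : ℤ × ℤ, v ≠ 0 →
      μ (act γ v) = μ (act γ (1, 0)) + μ v)
    (a c k : ℤ) (hv : (a, c) ≠ 0) : μ (a + k * c, c) = μ (a, c) := by
  let γ : SL(2, ℤ) := ⟨!![1, k; 0, 1], by simp [Matrix.det_fin_two]⟩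
  have hγ : γ ∈ CongruenceSubgroup.Gamma0 N := by
    rw [CongruenceSubgroup.Gamma0_mem]
    simp [γ]
  have h := hco γ hγ (a, c) hv
  have e1 : act γ (a, c) = (a + k * c, c) := by simp [act, γ]
  have e2 : act γ (1, 0) = (1, 0) := by simp [act, γ]
  rw [e1, e2, h0, zero_add] at h
  exact h

theorem nc_b
    (hco : ∀ γ ∈ CongruenceSubgroup.Gamma0 N, ∀ v : ℤ × ℤ, v ≠ 0 →
      μ (act γ v) = μ (act γ (1, 0)) + μ v)
    (a c k : ℤ) (hv : (a, c) ≠ 0) : μ (a, c + k * N * a) = μ (a, c) := by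
  let γ : SL(2, ℤ) := ⟨!![1, 0; k * N, 1], by simp [Matrix.det_fin_two]⟩
  have hγ : γ ∈ CongruenceSubgroup.Gamma0 N := by
    rw [CongruenceSubgroup.Gamma0_mem]
    simp [γ]
  have h1 := hco γ hγ (0, 1) (by simp)
  have e0 : act γ (0, 1) = (0, 1) := by simp [act, γ]
  rw [e0] at h1
  have h2 : μ (act γ (1, 0)) = 0 := by linear_combination -h1
  have h := hco γ hγ (a, c) hv
  have e1 : act γ (a, c) = (a, c + k * N * a) := by
    simp only [act, γ]
    ext
    · simp
    · simp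
      ring
  rw [e1, h2, zero_add] at h
  exact h

theorem nc_ne {a c : ℤ} (h : IsCoprime a c) : (a, c) ≠ 0 := by
  intro h0
  obtain ⟨h1, h2⟩ := Prod.mk.inj h0
  subst h1 h2
  exact not_isCoprime_zero_zero h

theorem nc_c {Q : ℕ} (hNQ : N ∣ Q)
    (hco : ∀ γ ∈ CongruenceSubgroup.Gamma0 N, ∀ v : ℤ × ℤ, v ≠ 0 →
      μ (act γ v) = μ (act γ (1, 0)) + μ v)
    (hv : ∀ h ∈ CongruenceSubgroup.Gamma Q, μ (act h (1, 0)) = 0)
    {a c a' c' : ℤ} (h : IsCoprime a c) (h' : IsCoprime a' c')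
    (ha : (a' : ZMod Q) = a) (hc : (c' : ZMod Q) = c) : μ (a', c') = μ (a, c) := by
  have hne := nc_ne h
  obtain ⟨x, y, hxy⟩ := h
  obtain ⟨x', y', hxy'⟩ := h'
  let k : ℤ := -x * y' + y * x'
  let γ : SL(2, ℤ) := ⟨!![a' * x + c * (k * a' + y'), a' * y - a * (k * a' + y');
      c' * x + c * k * c' - c * x', c' * y + a * (-k * c' + x')], by
    rw [Matrix.det_fin_two_of]
    linear_combination (x * a + y * c) * hxy' + hxy⟩
  have g00 : γ 0 0 = a' * x + c * (k * a' + y') := rfl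
  have g01 : γ 0 1 = a' * y - a * (k * a' + y') := rfl
  have g10 : γ 1 0 = c' * x + c * k * c' - c * x' := rfl
  have g11 : γ 1 1 = c' * y + a * (-k * c' + x') := rfl
  have z : (x : ZMod Q) * a + y * c = 1 := by exact_mod_cast congrArg (Int.cast (R := ZMod Q)) hxy
  have z' : (x' : ZMod Q) * a + y' * c = 1 := by
    rw [← ha, ← hc]
    exact_mod_cast congrArg (Int.cast (R := ZMod Q)) hxy'
  have hγ : γ ∈ CongruenceSubgroup.Gamma Q := by
    rw [CongruenceSubgroup.Gamma_mem, g00, g01, g10, g11]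
    simp only [k]
    push_cast
    rw [ha, hc]
    refine ⟨?_, ?_, ?_, ?_⟩
    · linear_combination (1 - (c : ZMod Q) * y') * z + (c : ZMod Q) * y * z'
    · linear_combination ((a : ZMod Q) * y') * z - (a : ZMod Q) * y * z'
    · linear_combination ((c : ZMod Q) * x') * z - (c : ZMod Q) * x * z'
    · linear_combination (1 - (a : ZMod Q) * x') * z + (a : ZMod Q) * x * z'
  have hγ0 : γ ∈ CongruenceSubgroup.Gamma0 N := by
    rw [CongruenceSubgroup.Gamma0_mem]
    have h10 := (CongruenceSubgroup.Gamma_mem.mp hγ).2.2.1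
    rw [ZMod.intCast_zmod_eq_zero_iff_dvd] at h10 ⊢
    exact (Int.natCast_dvd_natCast.mpr hNQ).trans h10
  have h := hco γ hγ0 (a, c) hne
  have e1 : act γ (a, c) = (a', c') := by
    simp only [act, g00, g01, g10, g11]
    ext
    · simp only
      linear_combination a' * hxy
    · simp only
      linear_combination c' * hxy
  rw [e1, hv γ hγ, zero_add] at h
  exact h

theorem nc_d {Q : ℕ} (hQ : 0 < Q) (hNQ : N ∣ Q) (h0 : ∀ x : ℤ, μ (x, 0) = 0)
    (hco : ∀ γ ∈ CongruenceSubgroup.Gamma0 N, ∀ v : ℤ × ℤ, v ≠ 0 →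
      μ (act γ v) = μ (act γ (1, 0)) + μ v)
    (hv : ∀ h ∈ CongruenceSubgroup.Gamma Q, μ (act h (1, 0)) = 0)
    {a c : ℤ} (h : IsCoprime a c) (hc : (N : ℤ) ∣ c) : μ (a, c) = μ (a, N) := by
  obtain ⟨c', rfl⟩ := hc
  by_cases hc0 : (N : ℤ) * c' = 0
  · rw [hc0] at h ⊢
    have hu : a * a = 1 := by
      rcases Int.isUnit_iff.mp (isCoprime_zero_right.mp h) with rfl | rfl <;> simp
    have := nc_b hco a 0 a (nc_ne h)
    rw [← this]
    congr 2
    linear_combination (N : ℤ) * hu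
  · obtain ⟨p, hpQ, hp, hpa⟩ := Nat.forall_exists_prime_gt_and_zmodEq Q
      (q := ((N : ℤ) * c').natAbs) (by simpa using hc0) (a := a) (by
        rw [Int.natCast_natAbs]
        exact IsCoprime.abs_right h)
    have hd : (N : ℤ) * c' ∣ (p : ℤ) - a := by
      have := hpa.symm.dvd
      rwa [Int.natCast_natAbs, abs_dvd] at this
    obtain ⟨k, hk⟩ := hd
    have hp' : (p : ℤ) = a + k * (N * c') := by linear_combination hk
    have hpQ' : IsCoprime (p : ℤ) (Q : ℤ) := by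
      rw [Nat.isCoprime_iff_coprime]
      exact (Nat.Prime.coprime_iff_not_dvd hp).mpr (Nat.not_dvd_of_pos_of_lt hQ hpQ)
    have hpN : IsCoprime (p : ℤ) (N : ℤ) :=
      hpQ'.of_isCoprime_of_dvd_right (Int.natCast_dvd_natCast.mpr hNQ)
    have hpc : IsCoprime (p : ℤ) ((N : ℤ) * c') := by
      rw [hp']
      exact h.add_mul_right_left k
    have haN : IsCoprime a (N : ℤ) := h.of_mul_right_left
    obtain ⟨u, w, huw⟩ := hpQ'
    have s1 : μ (a, N * c') = μ (p, N * c') := by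
      rw [hp', nc_a h0 hco _ _ _ (nc_ne h)]
    have s2 : μ (p, N * c') = μ (p, N * c' + (u * (1 - c')) * N * p) :=
      (nc_b hco _ _ _ (nc_ne hpc)).symm
    have s3 : μ (p, N * c' + (u * (1 - c')) * N * p) = μ (p, N) := by
      refine nc_c hNQ hco hv hpN (hpc.add_mul_right_right _) rfl ?_
      have z : (u : ZMod Q) * p = 1 := by
        have := congrArg (Int.cast (R := ZMod Q)) huw
        simpa using this
      push_cast
      linear_combination ((1 - c') * N : ZMod Q) * z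
    have s4 : μ (p, N) = μ (a, N) := by
      rw [hp', show a + k * (N * c') = a + (k * c') * N by ring, nc_a h0 hco _ _ _ (nc_ne haN)]
    rw [s1, s2, s3, s4]

theorem nc_e {Q : ℕ} (hQ : 0 < Q) (hNQ : N ∣ Q) (h0 : ∀ x : ℤ, μ (x, 0) = 0)
    (hco : ∀ γ ∈ CongruenceSubgroup.Gamma0 N, ∀ v : ℤ × ℤ, v ≠ 0 →
      μ (act γ v) = μ (act γ (1, 0)) + μ v)
    (hv : ∀ h ∈ CongruenceSubgroup.Gamma Q, μ (act h (1, 0)) = 0)
    {a a' : ℤ} (h : IsCoprime a N) (h' : IsCoprime a' N) :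
    μ (a * a', N) = μ (a, N) + μ (a', N) := by
  have hm : IsCoprime (a * a') (N : ℤ) := h.mul_left h'
  have hne := nc_ne h'
  obtain ⟨d, b, hdb⟩ := h
  obtain ⟨u, w, huw⟩ := h'
  let γ : SL(2, ℤ) := ⟨!![a, -b; N, d], by
    rw [Matrix.det_fin_two_of]
    linear_combination hdb⟩
  have hγ : γ ∈ CongruenceSubgroup.Gamma0 N := by
    rw [CongruenceSubgroup.Gamma0_mem]
    simp [γ]
  have h := hco γ hγ (a', N) hne
  have e1 : act γ (a', N) = (a * a' + -b * N, N * a' + d * N) := by simp [act, γ]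
  have e2 : act γ (1, 0) = (a, (N : ℤ)) := by simp [act, γ]
  have hcop : IsCoprime (a * a' + -b * N) (N * a' + d * N) :=
    ⟨u * d - w * N, u * b + w * a, by linear_combination (u * a' + w * N) * hdb + huw⟩
  rw [e1, e2, nc_d hQ hNQ h0 hco hv hcop ⟨a' + d, by ring⟩, nc_a h0 hco _ _ _ (nc_ne hm)] at h
  exact h

end steps

/- HINT.  Suppose chi(h) = mu (act h (1,0)) vanishes on Gamma(Q), Q = q N.
(a) mu (a + k c, c) = mu (a, c) for (a,c) nonzero (gamma = T^k fixes (1,0), h0).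
(b) mu (a, c + k N a) = mu (a, c): gamma = !![1,0; kN,1] fixes (0,1), so hco at v = (0,1) gives
    chi(gamma) = 0.
(c) if (a,c), (a',c') are coprime pairs congruent mod Q then mu (a,c) = mu (a',c'): take g, g' in SL2
    with these first columns; g^-1 g' is congruent to T^k mod Q, so h = g' T^-k g^-1 lies in Gamma(Q)
    (a subgroup of Gamma0 N) and act h (a,c) = (a',c').
(d) for coprime (a,c) with N | c:  mu (a,c) = mu (a, N).  If c = 0 then a = 1 or -1 and both sides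
    vanish by h0 and (b).  Otherwise pick a' congruent to a mod c with a' coprime to Q
    (ZMod.unitsMap_surjective, or Int/Nat CRT), write c = N c', pick y with c' + y a' = 1 mod Q;
    (a,c) ~ (a',c) ~ (a', c + N y a') ~ (a', N) ~ (a, N) by (a), (b), (c), (a).
    So eta(a) = mu (a, N) only depends on a mod N.
(e) eta(a a') = eta(a) + eta(a') for a, a' coprime to N: take gamma in Gamma0 N with first column
    (a, N), apply hco to v = (a', N) and use (d).
(f) hT at (a, N): for the unique j0 < l with l | a + j0 N, a + j0 N = l a2, the term is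
    mu (a2, N) = eta(a) - eta(l) (hsc, (e)); the other l - 1 terms are eta(a) by (d);
    mu (l a, N) = eta(l) + eta(a).  So (lam - l - 1) eta(a) = 0, contradiction with hne. -/
theorem noncong {K : Type*} [Field K] {N l : ℕ} (hN : 0 < N) (hl : l.Prime) (hlN : ¬ l ∣ N)
    (μ : ℤ × ℤ → K) (lam : K)
    (h0 : ∀ x : ℤ, μ (x, 0) = 0)
    (hsc : ∀ k : ℤ, k ≠ 0 → ∀ a c : ℤ, μ (k * a, k * c) = μ (a, c))
    (hco : ∀ γ ∈ CongruenceSubgroup.Gamma0 N, ∀ v : ℤ × ℤ, v ≠ 0 →
      μ (act γ v) = μ (act γ (1, 0)) + μ v)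
    (hT : ∀ a c : ℤ, c ≠ 0 →
      lam * μ (a, c) = μ (l * a, c) + ∑ j ∈ range l, μ (a + j * c, l * c))
    (hlam : lam ≠ l + 1)
    (hne : ∃ a c : ℤ, IsCoprime a c ∧ (N : ℤ) ∣ c ∧ μ (a, c) ≠ 0)
    (q : ℕ) (hq : 0 < q) :
    ∃ h ∈ CongruenceSubgroup.Gamma (q * N), μ (act h (1, 0)) ≠ 0 := by
  by_contra hcon
  have hv : ∀ h ∈ CongruenceSubgroup.Gamma (q * N), μ (act h (1, 0)) = 0 := by
    intro h hh
    by_contra hne'
    exact hcon ⟨h, hh, hne'⟩
  have hQ : 0 < q * N := Nat.mul_pos hq hN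
  have hNQ : N ∣ q * N := Dvd.intro_left q rfl
  obtain ⟨a, c, hac, hc, hμ⟩ := hne
  rw [nc_d hQ hNQ h0 hco hv hac hc] at hμ
  have haN : IsCoprime a (N : ℤ) := hac.of_isCoprime_of_dvd_right hc
  have hlN' : IsCoprime (l : ℤ) (N : ℤ) := by
    rw [Nat.isCoprime_iff_coprime]
    exact (Nat.Prime.coprime_iff_not_dvd hl).mpr hlN
  have hl0 : (l : ℤ) ≠ 0 := by exact_mod_cast hl.ne_zero
  have : Fact l.Prime := ⟨hl⟩
  have hNl : (N : ZMod l) ≠ 0 := by
    rw [Ne, ZMod.natCast_eq_zero_iff]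
    exact hlN
  let j0 : ℕ := (-(a : ZMod l) / N).val
  have hj0 : j0 ∈ range l := mem_range.mpr (ZMod.val_lt _)
  have hiff : ∀ j ∈ range l, ((l : ℤ) ∣ a + j * N ↔ j = j0) := by
    intro j hj
    rw [← ZMod.intCast_zmod_eq_zero_iff_dvd]
    push_cast
    constructor
    · intro h
      have : (j : ZMod l) = -(a : ZMod l) / N := by
        rw [eq_div_iff hNl]
        linear_combination h
      simp only [j0]
      rw [← this, ZMod.val_natCast, Nat.mod_eq_of_lt (mem_range.mp hj)]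
    · rintro rfl
      simp only [j0]
      rw [ZMod.natCast_zmod_val]
      field_simp
      ring
  have hterm : ∀ j ∈ range l, μ (a + j * N, l * N) =
      μ (a, N) - if j = j0 then μ (l, N) else 0 := by
    intro j hj
    have hjN : IsCoprime (a + j * N) (N : ℤ) := haN.add_mul_right_left j
    have hja : μ (a + j * N, N) = μ (a, N) := nc_a h0 hco _ _ _ (nc_ne haN)
    split_ifs with hjj
    · obtain ⟨a2, ha2⟩ := (hiff j hj).mpr hjj
      rw [ha2] at hjN hja ⊢
      rw [hsc l hl0, ← hja, nc_e hQ hNQ h0 hco hv hlN' hjN.of_mul_left_right]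
      ring
    · have hnd : ¬ (l : ℤ) ∣ a + j * N := fun h => hjj ((hiff j hj).mp h)
      have hcl : IsCoprime (a + j * N) (l : ℤ) :=
        ((Nat.prime_iff_prime_int.mp hl).irreducible.coprime_iff_not_dvd.mpr hnd).symm
      rw [nc_d hQ hNQ h0 hco hv (hcl.mul_right hjN) (Dvd.intro_left _ rfl), hja, sub_zero]
  have h := hT a N (by exact_mod_cast hN.ne')
  rw [Finset.sum_congr rfl hterm, Finset.sum_sub_distrib, Finset.sum_ite_eq' , if_pos hj0,
    nc_e hQ hNQ h0 hco hv hlN' haN, Finset.sum_const, card_range, nsmul_eq_mul] at h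
  apply hμ
  have h2 : (lam - (l + 1)) * μ (a, N) = 0 := by linear_combination h
  exact (mul_eq_zero.mp h2).resolve_left (sub_ne_zero.mpr hlam)

end Pool.Agent.P.MP_99daa8_nt
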