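import Pool.Agent.P.MP_99daa8_nt.Defs

/-! Reduction of `p`-integral rationals modulo `m`. -/

namespace Pool.Agent.P.MP_99daa8_nt

/-- Reduction modulo `m` of a rational number whose denominator is prime to `m`. -/
def red (m : ℕ) (q : ℚ) : ZMod m := (q.num : ZMod m) * ((q.den : ZMod m))⁻¹

theorem red_mul_den {m : ℕ} {q : ℚ} (h : Nat.Coprime q.den m) :
    red m q * (q.den : ZMod m) = (q.num : ZMod m) := by
  rw [red, mul_assoc, mul_comm _ ((q.den : ZMod m)), ZMod.coe_mul_inv_eq_one _ h, mul_one]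

theorem red_mul_of {m : ℕ} {q : ℚ} (h : Nat.Coprime q.den m) {d : ℕ} {u : ℤ}
    (hq : q * d = u) : red m q * (d : ZMod m) = (u : ZMod m) := by
  have h1 : q.num * (d : ℤ) = u * (q.den : ℤ) := by
    have : (q.num : ℚ) * d = u * q.den := by
      rw [← hq, ← Rat.mul_den_eq_num]
      ring
    exact_mod_cast this
  have h2 : ((q.num : ℤ) : ZMod m) * (d : ZMod m) = (u : ZMod m) * (q.den : ZMod m) := by
    have := congrArg (Int.cast : ℤ → ZMod m) h1
    push_cast at this
    exact this
  have hu : IsUnit (q.den : ZMod m) := (ZMod.isUnit_iff_coprime _ _).mpr h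
  apply hu.mul_right_cancel
  rw [← h2, ← red_mul_den h]
  ring

theorem coprime_den_add {m : ℕ} {x y : ℚ} (hx : Nat.Coprime x.den m) (hy : Nat.Coprime y.den m) :
    Nat.Coprime (x + y).den m :=
  Nat.Coprime.coprime_dvd_left (Rat.add_den_dvd x y) (Nat.Coprime.mul_left hx hy)

theorem red_add {m : ℕ} {x y : ℚ} (hx : Nat.Coprime x.den m) (hy : Nat.Coprime y.den m) :
    red m (x + y) = red m x + red m y := by
  have hD : Nat.Coprime (x.den * y.den) m := Nat.Coprime.mul_left hx hy
  have hu : IsUnit ((x.den * y.den : ℕ) : ZMod m) := (ZMod.isUnit_iff_coprime _ _).mpr hD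
  have h1 := red_mul_of (coprime_den_add hx hy) (d := x.den * y.den)
    (u := x.num * y.den + y.num * x.den) (by
      push_cast
      rw [← Rat.mul_den_eq_num x, ← Rat.mul_den_eq_num y]
      ring)
  apply hu.mul_right_cancel
  rw [h1]
  push_cast
  rw [← red_mul_den hx, ← red_mul_den hy]
  ring

theorem red_intCast (m : ℕ) (a : ℤ) : red m (a : ℚ) = (a : ZMod m) := by
  have := red_mul_den (m := m) (q := (a : ℚ)) (by simp)
  simpa using this

theorem red_zero (m : ℕ) : red m 0 = 0 := by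
  simpa using red_intCast m 0

theorem coprime_den_int_mul {m : ℕ} (k : ℤ) {x : ℚ} (hx : Nat.Coprime x.den m) :
    Nat.Coprime ((k : ℚ) * x).den m := by
  refine Nat.Coprime.coprime_dvd_left (Rat.mul_den_dvd (k : ℚ) x) ?_
  simpa using hx

theorem red_int_mul {m : ℕ} (k : ℤ) {x : ℚ} (hx : Nat.Coprime x.den m) :
    red m ((k : ℚ) * x) = (k : ZMod m) * red m x := by
  have hu : IsUnit (x.den : ZMod m) := (ZMod.isUnit_iff_coprime _ _).mpr hx
  have h1 := red_mul_of (coprime_den_int_mul k hx) (d := x.den) (u := k * x.num) (by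
    push_cast
    rw [← Rat.mul_den_eq_num x]
    ring)
  apply hu.mul_right_cancel
  rw [h1, mul_assoc, red_mul_den hx]
  push_cast
  ring

theorem coprime_den_sum {m : ℕ} {ι : Type*} (s : Finset ι) (x : ι → ℚ)
    (hx : ∀ i, Nat.Coprime (x i).den m) : Nat.Coprime (∑ i ∈ s, x i).den m := by
  classical
  induction s using Finset.induction_on with
  | empty => simp
  | insert a s ha ih =>
    rw [Finset.sum_insert ha]
    exact coprime_den_add (hx a) ih

theorem red_sum {m : ℕ} {ι : Type*} (s : Finset ι) (x : ι → ℚ)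
    (hx : ∀ i, Nat.Coprime (x i).den m) : red m (∑ i ∈ s, x i) = ∑ i ∈ s, red m (x i) := by
  classical
  induction s using Finset.induction_on with
  | empty => simpa using red_zero m
  | insert a s ha ih =>
    rw [Finset.sum_insert ha, Finset.sum_insert ha, red_add (hx a) (coprime_den_sum s x hx), ih]

theorem red_eq_zero_iff {m : ℕ} {x : ℚ} (hx : Nat.Coprime x.den m) :
    red m x = 0 ↔ (m : ℤ) ∣ x.num := by
  have hu : IsUnit (x.den : ZMod m) := (ZMod.isUnit_iff_coprime _ _).mpr hx
  rw [← ZMod.intCast_zmod_eq_zero_iff_dvd, ← red_mul_den hx, hu.mul_left_eq_zero]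

theorem red_eq_iff {m : ℕ} {x : ℚ} (hx : Nat.Coprime x.den m) (a : ℤ) :
    red m x = (a : ZMod m) ↔ (m : ℤ) ∣ (x - a).num := by
  have h1 : x - a = x + ((-a : ℤ) : ℚ) := by
    push_cast
    ring
  have h2 : Nat.Coprime ((-a : ℤ) : ℚ).den m := by simp
  rw [← red_eq_zero_iff (by rw [h1]; exact coprime_den_add hx h2), h1, red_add hx h2,
    red_intCast]
  push_cast
  rw [← sub_eq_add_neg, sub_eq_zero]

theorem isUnit_red {p : ℕ} (hp : p.Prime) (e : ℕ) {x : ℚ} (hx : ¬ p ∣ x.den)
    (h : red p x ≠ 0) : IsUnit (red (p ^ e) x) := by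
  have hc : Nat.Coprime x.den p := ((Nat.Prime.coprime_iff_not_dvd hp).mpr hx).symm
  rw [Ne, red_eq_zero_iff hc] at h
  have h1 : Nat.Coprime x.num.natAbs (p ^ e) := by
    apply Nat.Coprime.pow_right
    refine ((Nat.Prime.coprime_iff_not_dvd hp).mpr ?_).symm
    rwa [← Int.natCast_dvd]
  have h2 : IsUnit ((x.num : ℤ) : ZMod (p ^ e)) := by
    have h3 := (ZMod.isUnit_iff_coprime _ _).mpr h1
    rcases Int.natAbs_eq x.num with h4 | h4
    · rw [h4, Int.cast_natCast]
      exact h3
    · rw [h4, Int.cast_neg, Int.cast_natCast]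
      exact h3.neg
  rw [← red_mul_den (hc.pow_right e)] at h2
  exact isUnit_of_mul_isUnit_left h2

end Pool.Agent.P.MP_99daa8_nt
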