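import Pool.Agent.P.MP_99daa8_nt.LocalEq
import Pool.Agent.P.MP_99daa8_nt.Bessel

namespace Pool.Agent.P.MP_99daa8_nt

open scoped MatrixGroups
open Finset Filter Topology

theorem sm_class {s : ℤ × ℤ → ℂ} {N n : ℕ} {θ : SL(2, ℤ) → ℂ} (H : Equivar s N n θ)
    (r : SL(2, ℤ)) {ι : Type} (I : Finset ι) (c d : ι → ℕ) (k : ℕ) (hk : 0 < k)
    (hpos : ∀ i, 0 < c i ∧ 0 < d i ∧ Nat.Coprime (c i) (d i) ∧ k + 2 ≤ c i + d i)
    (hinj : ∀ i j, c i = c j → d i = d j → i = j) :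
    ∀ᶠ X : ℕ in atTop,
      ∑ i ∈ I, (c i : ℝ) * d i * ∑ M ∈ range (X + 1), ‖segSum s r (c i) (d i) M‖ ^ 2 ≤
        17 * ((X : ℝ) ^ 3 / k) := by
  set C : ℕ := I.sup fun i => c i * d i with hCdef
  have hC : ∀ i ∈ I, c i * d i ≤ C := fun i hi => Finset.le_sup (f := fun i => c i * d i) hi
  have hkR : (0 : ℝ) < k := by exact_mod_cast hk
  set A : ℝ := (I.card : ℝ) ^ 2 * C with hA
  have hA0 : 0 ≤ A := by positivity
  set ε : ℝ := 1 / (8 * (A + 1) * k) with hεdef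
  have hε : 0 < ε := by positivity
  have hAε : 8 * A * ε ≤ 1 / k := by
    rw [hεdef, mul_one_div, div_le_div_iff₀ (by positivity) hkR]
    nlinarith
  have hev : ∀ᶠ X : ℕ in atTop, ∀ i ∈ I, ∀ j ∈ I, i ≠ j → ∀ k' x : ℕ, x ≤ X + 1 →
      ‖∑ m ∈ (range x).filter (fun m => m % ((c i : ℤ) * d j - d i * c j).natAbs = k'),
        segSum s r (c i) (d i) m‖ ≤ ε * (X : ℝ) ^ 2 := by
    rw [Finset.eventually_all]
    intro i _
    rw [Finset.eventually_all]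
    intro j _
    by_cases hij : i = j
    · exact Eventually.of_forall fun X h => absurd hij h
    have hq : 0 < ((c i : ℤ) * d j - d i * c j).natAbs := by
      rw [Int.natAbs_pos]
      intro h0
      have h1 : c i * d j = d i * c j := by exact_mod_cast sub_eq_zero.mp h0
      have h2 : c i ∣ c j := (hpos i).2.2.1.dvd_of_dvd_mul_left ⟨d j, h1.symm⟩
      have h3 : c j ∣ c i :=
        (hpos j).2.2.1.dvd_of_dvd_mul_right ⟨d i, by rw [h1, mul_comm]⟩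
      have h4 := Nat.dvd_antisymm h2 h3
      apply hij (hinj i j h4 _)
      rw [h4, mul_comm] at h1
      exact (Nat.eq_of_mul_eq_mul_right (hpos j).1 h1).symm
    filter_upwards [ap_small H r (hpos i).1 (hpos i).2.1 hq hε] with X hX _ using hX
  filter_upwards [hev, eventually_ge_atTop C, eventually_ge_atTop k] with X hE hCX hkX
  obtain ⟨U, hU1, hU2⟩ := exists_thin_region k X hk
  have hb := bessel I s H.bdd r c d (fun i _ => ⟨(hpos i).1, (hpos i).2.1, (hpos i).2.2.1⟩)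
    (fun i _ j _ => hinj i j) X C hC hCX U
    (fun i _ => hU2 _ _ (hpos i).1 (hpos i).2.1 (by have := (hpos i).2.2.2; omega))
    (by positivity) hE _ rfl
  set Y := ∑ i ∈ I, (c i : ℝ) * d i * ∑ M ∈ range (X + 1), ‖segSum s r (c i) (d i) M‖ ^ 2
    with hY
  have hY0 : 0 ≤ Y := by positivity
  have hXk : (k : ℝ) ≤ X := by exact_mod_cast hkX
  have hX1 : (1 : ℝ) ≤ X := by exact_mod_cast hk.trans_le hkX
  have hXk' : (1 : ℝ) ≤ X / k := (one_le_div hkR).mpr hXk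
  have e1 : (U.card : ℝ) ≤ 8 * X * (X / k) := by
    calc (U.card : ℝ) ≤ 2 * (X + 1) * (X / k + 1) := hU1
      _ ≤ 2 * (2 * X) * (2 * (X / k)) := by gcongr <;> linarith
      _ = _ := by ring
  have e2 : A * (X + 1) * (2 * X) * (2 * (ε * (X : ℝ) ^ 2)) ≤ (X : ℝ) ^ 4 / k := by
    calc A * (X + 1) * (2 * X) * (2 * (ε * (X : ℝ) ^ 2))
        ≤ A * (2 * X) * (2 * X) * (2 * (ε * (X : ℝ) ^ 2)) := by gcongr; linarith
      _ = 8 * A * ε * (X : ℝ) ^ 4 := by ring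
      _ ≤ 1 / k * (X : ℝ) ^ 4 := by gcongr
      _ = _ := by ring
  set a : ℝ := (X : ℝ) ^ 3 / k with ha
  have ha0 : 0 ≤ a := by positivity
  have e3 : Y ^ 2 ≤ 16 * a * Y + 8 * a ^ 2 := by
    calc Y ^ 2 ≤ _ := hb
      _ ≤ 8 * X * (X / k) * (2 * X * Y + (X : ℝ) ^ 4 / k) := by gcongr
      _ = _ := by rw [ha]; ring
  by_contra hlt
  push Not at hlt
  nlinarith

theorem sm_norm {s : ℤ × ℤ → ℂ} {N n : ℕ} {θ : SL(2, ℤ) → ℂ} (H : Equivar s N n θ)
    (g r : SL(2, ℤ)) (h : g * r⁻¹ ∈ CongruenceSubgroup.Gamma N) (c d M : ℕ) :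
    ‖segSum s g c d M‖ = ‖segSum s r c d M‖ := by
  have h1 : segSum s g c d M = θ (g * r⁻¹) * segSum s r c d M := by
    unfold segSum
    rw [Finset.mul_sum]
    refine Finset.sum_congr rfl fun v _ => ?_
    rw [← H.equiv _ h, ← act_mul, inv_mul_cancel_right]
  rw [h1, norm_mul, Complex.norm_eq_one_of_pow_eq_one (H.pow _ h) H.n_pos.ne', one_mul]

theorem sm_cs {ι : Type} [Fintype ι] (w : ι → ℝ) (hw : ∀ i, 0 < w i) (h1 : ∑ i, 1 / w i = 1)
    (z : ι → ℂ) : ‖∑ i, z i‖ ^ 2 ≤ ∑ i, w i * ‖z i‖ ^ 2 := by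
  have h := Finset.sq_sum_div_le_sum_sq_div univ (fun i => ‖z i‖) (g := fun i => 1 / w i)
    fun i _ => one_div_pos.mpr (hw i)
  rw [h1, div_one] at h
  calc ‖∑ i, z i‖ ^ 2 ≤ (∑ i, ‖z i‖) ^ 2 := by
        gcongr
        exact norm_sum_le _ _
    _ ≤ _ := h
    _ = _ := Finset.sum_congr rfl fun i _ => by rw [div_div_eq_mul_div, div_one, mul_comm]

theorem second_moment {s : ℤ × ℤ → ℂ} {N n : ℕ} {θ : SL(2, ℤ) → ℂ} (H : Equivar s N n θ)
    (g₀ : SL(2, ℤ)) :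
    Tendsto (fun X : ℕ => (∑ M ∈ range (X + 1), ‖segSum s g₀ 1 1 M‖ ^ 2) / (X : ℝ) ^ 3)
      atTop (𝓝 0) := by
  classical
  have : NeZero N := ⟨H.N_pos.ne'⟩
  set φ : SL(2, ℤ) →* SL(2, ZMod N) :=
    Matrix.SpecialLinearGroup.map (Int.castRingHom (ZMod N)) with hφ
  set K : ℕ := Fintype.card SL(2, ZMod N) with hK
  refine tendsto_order.2 ⟨fun a ha => Eventually.of_forall fun X => ha.trans_le (by positivity),
    fun a ha => ?_⟩
  obtain ⟨k, hk⟩ := exists_nat_gt (17 * K / a)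
  have hkR : (0 : ℝ) < k := lt_of_le_of_lt (by positivity) hk
  have hk0 : 0 < k := by exact_mod_cast hkR
  obtain ⟨ι, _, g, c, d, hpos, hinj, hsum, hsplit⟩ := exists_tree g₀ k
  have hev : ∀ᶠ X : ℕ in atTop, ∀ κ : SL(2, ZMod N),
      ∑ i ∈ univ.filter (fun i => φ (g i) = κ), (c i : ℝ) * d i *
        ∑ M ∈ range (X + 1), ‖segSum s (Function.invFun φ κ) (c i) (d i) M‖ ^ 2 ≤
        17 * ((X : ℝ) ^ 3 / k) :=
    eventually_all.mpr fun κ => sm_class H _ _ c d k hk0 hpos hinj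
  filter_upwards [hev, eventually_gt_atTop 0] with X hX hX0
  have hXR : (0 : ℝ) < (X : ℝ) ^ 3 := by positivity
  have e1 : ∑ M ∈ range (X + 1), ‖segSum s g₀ 1 1 M‖ ^ 2 ≤
      ∑ i, (c i : ℝ) * d i * ∑ M ∈ range (X + 1), ‖segSum s (g i) (c i) (d i) M‖ ^ 2 := by
    simp only [Finset.mul_sum]
    rw [Finset.sum_comm]
    refine Finset.sum_le_sum fun M _ => ?_
    rw [hsplit]
    refine sm_cs (fun i => (c i : ℝ) * d i) (fun i => ?_) hsum _
    have h1 := (hpos i).1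
    have h2 := (hpos i).2.1
    positivity
  have e2 : ∑ i, (c i : ℝ) * d i * ∑ M ∈ range (X + 1), ‖segSum s (g i) (c i) (d i) M‖ ^ 2 ≤
      K * (17 * ((X : ℝ) ^ 3 / k)) := by
    rw [← Finset.sum_fiberwise univ (fun i => φ (g i)), hK, ← nsmul_eq_mul, ← card_univ]
    refine Finset.sum_le_card_nsmul _ _ _ fun κ _ => le_of_eq_of_le ?_ (hX κ)
    refine Finset.sum_congr rfl fun i hi => ?_
    have h1 : φ (g i) = κ := (mem_filter.mp hi).2
    have h2 : φ (Function.invFun φ κ) = κ := Function.invFun_eq ⟨g i, h1⟩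
    have h3 : g i * (Function.invFun φ κ)⁻¹ ∈ CongruenceSubgroup.Gamma N := by
      change g i * (Function.invFun φ κ)⁻¹ ∈ φ.ker
      rw [MonoidHom.mem_ker, map_mul, map_inv, h1, h2, mul_inv_cancel]
    simp only [sm_norm H _ _ h3]
  rw [div_lt_iff₀ hXR]
  rw [div_lt_iff₀ ha] at hk
  calc _ ≤ K * (17 * ((X : ℝ) ^ 3 / k)) := e1.trans e2
    _ = 17 * K / k * (X : ℝ) ^ 3 := by ring
    _ < a * (X : ℝ) ^ 3 := by
      gcongr
      rw [div_lt_iff₀ hkR]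
      linarith

end Pool.Agent.P.MP_99daa8_nt
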