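import Pool.Agent.P.MP_99daa8_nt.Symbol
import Pool.Agent.P.MP_99daa8_nt.Red
import Pool.Agent.P.MP_99daa8_nt.NonCong
import Pool.Agent.P.MP_99daa8_nt.SecondMoment
import Pool.Agent.P.MP_99daa8_nt.Density

namespace Pool.Agent.P.MP_99daa8_nt

open scoped MatrixGroups
open Finset Filter Topology

/-- The algebraic properties of a `p`-integral modular symbol with rational values. -/
structure RatSym (N p l : ℕ) (lam : ℤ) (m : ℚ → ℚ) : Prop where
  den : ∀ r, ¬ p ∣ (m r).den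
  cocycle : ∀ γ ∈ CongruenceSubgroup.Gamma0 N, ∀ v : ℤ × ℤ, v ≠ 0 →
    (if (act γ v).2 = 0 then 0 else m (((act γ v).1 : ℚ) / ((act γ v).2 : ℚ))) =
      (if (act γ (1, 0)).2 = 0 then 0 else m (((act γ (1, 0)).1 : ℚ) / ((act γ (1, 0)).2 : ℚ))) +
        (if v.2 = 0 then 0 else m ((v.1 : ℚ) / (v.2 : ℚ)))
  hecke : ∀ r, lam * m r = m (l * r) + ∑ j ∈ range l, m ((r + j) / l)
  unit : ∃ r : ℚ, N ∣ r.den ∧ ¬ (p : ℤ) ∣ (m r).num

/-- The symbol as a function of a column vector. -/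
def vec (m : ℚ → ℚ) (v : ℤ × ℤ) : ℚ := if v.2 = 0 then 0 else m ((v.1 : ℚ) / (v.2 : ℚ))

variable {N p l : ℕ} {lam : ℤ} {m : ℚ → ℚ}

theorem RatSym.vec_den (H : RatSym N p l lam m) (hp : p.Prime) (v : ℤ × ℤ) :
    ¬ p ∣ (vec m v).den := by
  unfold vec
  split_ifs
  · simpa using hp.ne_one
  · exact H.den _

theorem RatSym.vec_coprime (H : RatSym N p l lam m) (hp : p.Prime) (e : ℕ) (v : ℤ × ℤ) :
    Nat.Coprime (vec m v).den (p ^ e) :=
  (((Nat.Prime.coprime_iff_not_dvd hp).mpr (H.vec_den hp v)).symm).pow_right e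

theorem RatSym.red_cocycle (H : RatSym N p l lam m) (hp : p.Prime) (e : ℕ) {γ : SL(2, ℤ)}
    (hγ : γ ∈ CongruenceSubgroup.Gamma0 N) {v : ℤ × ℤ} (hv : v ≠ 0) :
    red (p ^ e) (vec m (act γ v)) =
      red (p ^ e) (vec m (act γ (1, 0))) + red (p ^ e) (vec m v) := by
  rw [← red_add (H.vec_coprime hp e _) (H.vec_coprime hp e _)]
  exact congrArg _ (H.cocycle γ hγ v hv)

theorem RatSym.exists_noncong (H : RatSym N p l lam m) (hN : 0 < N) (hp : p.Prime) (hl : l.Prime)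
    (hlN : ¬ l ∣ N) (hlam : ¬ (p : ℤ) ∣ lam - (l + 1)) (q : ℕ) (hq : 0 < q) :
    ∃ h ∈ CongruenceSubgroup.Gamma (q * N), red p (vec m (act h (1, 0))) ≠ 0 := by
  have : Fact p.Prime := ⟨hp⟩
  have hc : ∀ v, Nat.Coprime (vec m v).den p := fun v => by simpa using H.vec_coprime hp 1 v
  have hc' : ∀ r, Nat.Coprime (m r).den p := fun r =>
    ((Nat.Prime.coprime_iff_not_dvd hp).mpr (H.den r)).symm
  refine noncong (K := ZMod p) hN hl hlN (fun v => red p (vec m v)) (lam : ZMod p) ?_ ?_ ?_ ?_ ?_ ?_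
    q hq
  · intro x
    simp [vec, red_zero]
  · intro k hk a c
    congr 1
    unfold vec
    by_cases h : c = 0
    · simp [h]
    · have hk' : (k : ℚ) ≠ 0 := by exact_mod_cast hk
      simp only [mul_eq_zero, hk, h, or_self, if_false]
      congr 1
      push_cast
      rw [mul_div_mul_left _ _ hk']
  · intro γ hγ v hv
    rw [← red_add (hc _) (hc _)]
    exact congrArg _ (H.cocycle γ hγ v hv)
  · intro a c hc0
    have hl0 : (l : ℤ) * c ≠ 0 := mul_ne_zero (by exact_mod_cast hl.ne_zero) hc0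
    have hcq : (c : ℚ) ≠ 0 := by exact_mod_cast hc0
    have hlq : (l : ℚ) ≠ 0 := by exact_mod_cast hl.ne_zero
    simp only [vec, hc0, hl0, if_false]
    rw [← red_int_mul lam (hc' _), H.hecke, red_add (hc' _) (coprime_den_sum _ _ fun _ => hc' _),
      red_sum _ _ fun _ => hc' _]
    congr 1
    · congr 2
      push_cast
      ring
    · refine Finset.sum_congr rfl fun j _ => ?_
      congr 2
      push_cast
      field_simp
  · intro h
    apply hlam
    rw [← ZMod.intCast_zmod_eq_zero_iff_dvd]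
    push_cast
    rw [h, sub_self]
  · obtain ⟨r, hr, hu⟩ := H.unit
    have hd : (r.den : ℤ) ≠ 0 := by exact_mod_cast r.den_ne_zero
    refine ⟨r.num, r.den, ?_, by exact_mod_cast hr, ?_⟩
    · rw [Int.isCoprime_iff_gcd_eq_one]
      exact r.reduced
    · simp only [vec, hd, if_false]
      rw [Ne, red_eq_zero_iff (hc' _)]
      have e2 : ((r.num : ℤ) : ℚ) / ((r.den : ℤ) : ℚ) = r := by
        push_cast
        exact Rat.num_div_den r
      rwa [e2]

theorem isCoprime_act (γ : SL(2, ℤ)) {v : ℤ × ℤ} (h : IsCoprime v.1 v.2) :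
    IsCoprime (act γ v).1 (act γ v).2 := by
  obtain ⟨a, b, hab⟩ := h
  have hd := det_eq γ
  refine ⟨a * γ 1 1 - b * γ 1 0, b * γ 0 0 - a * γ 0 1, ?_⟩
  simp only [act]
  linear_combination (a * v.1 + b * v.2) * hd + hab

theorem isCoprime_act_iff (γ : SL(2, ℤ)) (v : ℤ × ℤ) :
    IsCoprime (act γ v).1 (act γ v).2 ↔ IsCoprime v.1 v.2 := by
  refine ⟨fun h => ?_, isCoprime_act γ⟩
  have := isCoprime_act γ⁻¹ h
  rwa [← act_mul, inv_mul_cancel, act_one] at this

theorem ne_zero_of_isCoprime {v : ℤ × ℤ} (h : IsCoprime v.1 v.2) : v ≠ 0 := by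
  rintro rfl
  exact not_isCoprime_zero_zero h

theorem gamma_le_gamma0 {γ : SL(2, ℤ)} (h : γ ∈ CongruenceSubgroup.Gamma N) :
    γ ∈ CongruenceSubgroup.Gamma0 N := by
  rw [CongruenceSubgroup.Gamma_mem] at h
  rw [CongruenceSubgroup.Gamma0_mem]
  exact h.2.2.1

open Classical in
/-- The character of the symbol, on primitive vectors. -/
noncomputable def chr (n : ℕ) (ψ : AddChar (ZMod n) ℂ) (m : ℚ → ℚ) (v : ℤ × ℤ) : ℂ :=
  if IsCoprime v.1 v.2 then ψ (red n (vec m v)) else 0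

theorem RatSym.equivar (H : RatSym N p l lam m) (hN : 0 < N) (hp : p.Prime) (hl : l.Prime)
    (hlN : ¬ l ∣ N) (hlam : ¬ (p : ℤ) ∣ lam - (l + 1)) (e : ℕ)
    (ψ : AddChar (ZMod (p ^ e)) ℂ) (hψ : ψ ≠ 0) :
    Equivar (chr (p ^ e) ψ m) N (p ^ e) (fun γ => ψ (red (p ^ e) (vec m (act γ (1, 0))))) := by
  have : NeZero (p ^ e) := ⟨pow_ne_zero e hp.ne_zero⟩
  refine ⟨hN, pow_pos hp.pos e, ?_, ?_, ?_, ?_, ?_⟩
  · intro v
    unfold chr
    split_ifs
    · rw [AddChar.norm_apply]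
    · simp
  · intro γ hγ v
    unfold chr
    by_cases h : IsCoprime v.1 v.2
    · rw [if_pos h, if_pos (isCoprime_act γ h),
        H.red_cocycle hp e (gamma_le_gamma0 hγ) (ne_zero_of_isCoprime h), AddChar.map_add_eq_mul]
    · rw [if_neg h, if_neg (fun h' => h ((isCoprime_act_iff γ v).mp h')), mul_zero]
  · intro γ hγ δ _
    have h : act δ (1, 0) ≠ 0 :=
      ne_zero_of_isCoprime (isCoprime_act δ (v := (1, 0)) isCoprime_one_left)
    rw [act_mul, H.red_cocycle hp e (gamma_le_gamma0 hγ) h, AddChar.map_add_eq_mul]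
  · intro γ _
    rw [← AddChar.map_nsmul_eq_pow, nsmul_eq_mul, ZMod.natCast_self, zero_mul,
      AddChar.map_zero_eq_one]
  · intro q hq
    obtain ⟨h, hh, hne⟩ := H.exists_noncong hN hp hl hlN hlam q hq
    refine ⟨h, hh, fun h1 => hψ ?_⟩
    obtain ⟨u, hu⟩ := isUnit_red hp e (H.vec_den hp _) hne
    ext y
    have : y = ((y * (u⁻¹ : (ZMod (p ^ e))ˣ)).val) • red (p ^ e) (vec m (act h (1, 0))) := by
      rw [nsmul_eq_mul, ZMod.natCast_zmod_val, ← hu, mul_assoc, Units.inv_mul, mul_one]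
    rw [this, AddChar.map_nsmul_eq_pow, h1, one_pow, AddChar.zero_apply]

theorem card_sigmaSet {M : ℕ} (hM : 2 ≤ M) : (sigmaSet M).card = Nat.totient M := by
  rw [Nat.totient_eq_card_coprime]
  congr 1
  ext a
  simp only [sigmaSet, mem_filter, mem_Ico, mem_range]
  constructor
  · rintro ⟨⟨_, h2⟩, h3⟩
    exact ⟨h2, h3.symm⟩
  · rintro ⟨h2, h3⟩
    refine ⟨⟨?_, h2⟩, h3.symm⟩
    rcases Nat.eq_zero_or_pos a with rfl | h
    · simp at h3
      omega
    · exact h

theorem segSum_chr (n : ℕ) (ψ : AddChar (ZMod n) ℂ) (m : ℚ → ℚ) {M : ℕ} (hM : 2 ≤ M) :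
    segSum (chr n ψ m) Lm 1 1 M = ∑ a ∈ sigmaSet M, ψ (red n (m ((a : ℚ) / M))) := by
  classical
  have hM0 : (M : ℤ) ≠ 0 := by omega
  have h1 : segSum (chr n ψ m) Lm 1 1 M = ∑ a ∈ Icc 1 M, chr n ψ m ((a : ℤ), (M : ℤ)) := by
    unfold segSum
    refine Finset.sum_bij' (fun v _ => v.1) (fun a _ => (a, M - a)) ?_ ?_ ?_ ?_ ?_
    · intro v hv
      rw [mem_seg one_pos one_pos] at hv
      rw [mem_Icc]
      omega
    · intro a ha
      rw [mem_Icc] at ha
      rw [mem_seg one_pos one_pos]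
      simp only
      omega
    · intro v hv
      rw [mem_seg one_pos one_pos] at hv
      ext
      · rfl
      · simp only
        omega
    · intro a _
      rfl
    · intro v hv
      rw [mem_seg one_pos one_pos] at hv
      rw [act_Lm]
      congr 2
      simp only
      omega
  rw [h1]
  have h2 : sigmaSet M = (Icc 1 M).filter fun a => Nat.Coprime a M := by
    ext a
    simp only [sigmaSet, mem_filter, mem_Ico, mem_Icc]
    constructor
    · rintro ⟨⟨h1, h2⟩, h3⟩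
      exact ⟨⟨h1, h2.le⟩, h3⟩
    · rintro ⟨⟨h1, h2⟩, h3⟩
      refine ⟨⟨h1, lt_of_le_of_ne h2 ?_⟩, h3⟩
      rintro rfl
      simp at h3
      omega
  rw [h2, Finset.sum_filter]
  refine Finset.sum_congr rfl fun a _ => ?_
  unfold chr
  simp only [Nat.isCoprime_iff_coprime, vec, hM0, if_false, Int.cast_natCast]

/-- The total size of the nontrivial character sums. -/
noncomputable def wt (n : ℕ) [NeZero n] (m : ℚ → ℚ) (M : ℕ) : ℝ :=
  (∑ ψ ∈ (univ : Finset (AddChar (ZMod n) ℂ)).erase 0,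
    ‖segSum (chr n ψ m) Lm 1 1 M‖ / Nat.totient M) / n

theorem wt_nonneg (n : ℕ) [NeZero n] (m : ℚ → ℚ) (M : ℕ) : 0 ≤ wt n m M := by
  unfold wt
  positivity

theorem norm_segSum_chr_le (n : ℕ) [NeZero n] (ψ : AddChar (ZMod n) ℂ) (m : ℚ → ℚ) {M : ℕ}
    (hM : 2 ≤ M) : ‖segSum (chr n ψ m) Lm 1 1 M‖ ≤ Nat.totient M := by
  rw [segSum_chr n ψ m hM, ← card_sigmaSet hM]
  refine (norm_sum_le _ _).trans ?_
  simp

theorem prob_eq (M : ℕ) (E : ℚ → Prop) [DecidablePred fun a : ℕ => E ((a : ℚ) / (M : ℚ))] :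
    prob M E = (((sigmaSet M).filter fun a : ℕ => E ((a : ℚ) / (M : ℚ))).card : ℝ) /
      (sigmaSet M).card := by
  unfold prob
  congr

theorem abs_prob_sub_le (n : ℕ) [NeZero n] (m : ℚ → ℚ) {M : ℕ} (hM : 2 ≤ M) (a : ZMod n) :
    |prob M (fun r => red n (m r) = a) - 1 / n| ≤ wt n m M := by
  classical
  have hφ : (0 : ℝ) < Nat.totient M := by
    exact_mod_cast Nat.totient_pos.mpr (by omega)
  have hn : (0 : ℝ) < n := by exact_mod_cast Nat.pos_of_ne_zero (NeZero.ne n)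
  have key : (n : ℂ) * (((sigmaSet M).filter fun b : ℕ => red n (m ((b : ℚ) / M)) = a).card : ℂ) -
      (Nat.totient M : ℂ) = ∑ ψ ∈ (univ : Finset (AddChar (ZMod n) ℂ)).erase 0,
        ψ (-a) * segSum (chr n ψ m) Lm 1 1 M := by
    have h1 : ∑ ψ : AddChar (ZMod n) ℂ, ψ (-a) * segSum (chr n ψ m) Lm 1 1 M =
        (n : ℂ) * (((sigmaSet M).filter fun b : ℕ => red n (m ((b : ℚ) / M)) = a).card : ℂ) := by
      simp_rw [segSum_chr n _ m hM, Finset.mul_sum, ← AddChar.map_add_eq_mul]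
      rw [Finset.sum_comm]
      simp_rw [AddChar.sum_apply_eq_ite, neg_add_eq_zero, ZMod.card]
      rw [Finset.card_filter]
      push_cast
      rw [Finset.mul_sum]
      refine Finset.sum_congr rfl fun b _ => ?_
      by_cases h : red n (m ((b : ℚ) / M)) = a
      · simp [h]
      · simp [h, Ne.symm h]
    rw [← h1, ← Finset.add_sum_erase _ _ (mem_univ (0 : AddChar (ZMod n) ℂ)),
      segSum_chr n _ m hM]
    simp [card_sigmaSet hM]
  have h2 : |(n : ℝ) * (((sigmaSet M).filter fun b : ℕ => red n (m ((b : ℚ) / M)) = a).card : ℝ) -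
      (Nat.totient M : ℝ)| ≤ ∑ ψ ∈ (univ : Finset (AddChar (ZMod n) ℂ)).erase 0,
        ‖segSum (chr n ψ m) Lm 1 1 M‖ := by
    have h3 := congrArg norm key
    rw [← Complex.ofReal_natCast, ← Complex.ofReal_natCast, ← Complex.ofReal_natCast,
      ← Complex.ofReal_mul, ← Complex.ofReal_sub, Complex.norm_real, Real.norm_eq_abs] at h3
    rw [h3]
    refine (norm_sum_le _ _).trans (le_of_eq ?_)
    refine Finset.sum_congr rfl fun ψ _ => ?_
    rw [norm_mul, AddChar.norm_apply, one_mul]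
  rw [prob_eq]
  unfold wt
  rw [card_sigmaSet hM, ← Finset.sum_div]
  have h4 : ∀ c : ℝ, c / Nat.totient M - 1 / n = (n * c - Nat.totient M) / Nat.totient M / n := by
    intro c
    field_simp
  rw [h4, abs_div, abs_div, abs_of_pos hφ, abs_of_pos hn]
  gcongr

theorem wt_le_one (n : ℕ) [NeZero n] (m : ℚ → ℚ) {M : ℕ} (hM : 2 ≤ M) : wt n m M ≤ 1 := by
  classical
  have hφ : (0 : ℝ) < Nat.totient M := by
    exact_mod_cast Nat.totient_pos.mpr (by omega)
  have hn : (0 : ℝ) < n := by exact_mod_cast Nat.pos_of_ne_zero (NeZero.ne n)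
  unfold wt
  rw [div_le_one hn]
  refine (Finset.sum_le_card_nsmul _ _ 1 fun ψ _ => ?_).trans ?_
  · rw [div_le_one hφ]
    exact norm_segSum_chr_le n ψ m hM
  · rw [nsmul_eq_mul, mul_one]
    have : ((univ : Finset (AddChar (ZMod n) ℂ)).erase 0).card ≤ n := by
      refine Finset.card_erase_le.trans ?_
      rw [Finset.card_univ, AddChar.card_eq, ZMod.card]
    exact_mod_cast this

theorem RatSym.cesaro_wt (H : RatSym N p l lam m) (hN : 0 < N) (hp : p.Prime) (hl : l.Prime)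
    (hlN : ¬ l ∣ N) (hlam : ¬ (p : ℤ) ∣ lam - (l + 1)) (e : ℕ) [NeZero (p ^ e)] :
    Tendsto (fun X : ℕ => (∑ M ∈ range X, wt (p ^ e) m M) / (X : ℝ)) atTop (𝓝 0) := by
  classical
  have h1 : ∀ ψ ∈ (univ : Finset (AddChar (ZMod (p ^ e)) ℂ)).erase 0,
      Tendsto (fun X : ℕ => (∑ M ∈ range X,
        ‖segSum (chr (p ^ e) ψ m) Lm 1 1 M‖ / Nat.totient M) / (X : ℝ)) atTop (𝓝 0) := by
    intro ψ hψ
    exact cesaro_of_second_moment _ (fun _ => norm_nonneg _)
      (fun M hM => norm_segSum_chr_le _ ψ m hM)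
      (second_moment (H.equivar hN hp hl hlN hlam e ψ (Finset.ne_of_mem_erase hψ)) Lm)
  have h2 := (tendsto_finsetSum _ h1).div_const ((p ^ e : ℕ) : ℝ)
  simp only [Finset.sum_const_zero, zero_div] at h2
  refine h2.congr fun X => ?_
  unfold wt
  rw [← Finset.sum_div, ← Finset.sum_div, Finset.sum_comm, div_right_comm]

/-- One set of density one for countably many bounded sequences with Cesaro mean zero. -/
theorem exists_densityOne_forall (w : ℕ → ℕ → ℝ) (h0 : ∀ e M, 0 ≤ w e M) (h1 : ∀ e M, w e M ≤ 1)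
    (h : ∀ e, Tendsto (fun X : ℕ => (∑ M ∈ range X, w e M) / (X : ℝ)) atTop (𝓝 0)) :
    ∃ S : Set ℕ, HasDensityOne S ∧ ∀ e, Tendsto (w e) (atTop ⊓ 𝓟 S) (𝓝 0) := by
  have hg : Summable fun e : ℕ => (1 / 2 : ℝ) ^ e := summable_geometric_two
  have hs : ∀ M, Summable fun e : ℕ => (1 / 2 : ℝ) ^ e * w e M := fun M =>
    Summable.of_nonneg_of_le (fun e => mul_nonneg (by positivity) (h0 e M))
      (fun e => mul_le_of_le_one_right (by positivity) (h1 e M)) hg
  have hT : Tendsto (fun X : ℕ => ∑' e : ℕ, (1 / 2 : ℝ) ^ e * ((∑ M ∈ range X, w e M) / (X : ℝ)))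
      atTop (𝓝 (∑' _e : ℕ, (0 : ℝ))) := by
    refine tendsto_tsum_of_dominated_convergence hg (fun e => ?_) (Eventually.of_forall ?_)
    · simpa using (h e).const_mul ((1 / 2 : ℝ) ^ e)
    · intro X e
      have a0 : 0 ≤ (∑ M ∈ range X, w e M) / (X : ℝ) :=
        div_nonneg (Finset.sum_nonneg fun M _ => h0 e M) (Nat.cast_nonneg X)
      have a1 : (∑ M ∈ range X, w e M) / (X : ℝ) ≤ 1 := by
        refine div_le_one_of_le₀ ?_ (Nat.cast_nonneg X)
        simpa using Finset.sum_le_card_nsmul (range X) (w e) 1 fun M _ => h1 e M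
      rw [Real.norm_of_nonneg (mul_nonneg (by positivity) a0)]
      exact mul_le_of_le_one_right (by positivity) a1
  rw [tsum_zero] at hT
  obtain ⟨S, hS, hlim⟩ := exists_densityOne (fun M => ∑' e : ℕ, (1 / 2 : ℝ) ^ e * w e M)
    (fun M => tsum_nonneg fun e => mul_nonneg (by positivity) (h0 e M)) (by
      refine hT.congr fun X => ?_
      rw [← Summable.tsum_finsetSum fun M _ => hs M, ← tsum_div_const]
      refine tsum_congr fun e => ?_
      rw [← Finset.mul_sum, mul_div_assoc])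
  refine ⟨S, hS, fun e => ?_⟩
  have h2 := hlim.const_mul ((2 : ℝ) ^ e)
  rw [mul_zero] at h2
  refine squeeze_zero (h0 e) (fun M => ?_) h2
  have h3 := (hs M).le_tsum e fun j _ => mul_nonneg (by positivity) (h0 j M)
  calc w e M = 2 ^ e * ((1 / 2 : ℝ) ^ e * w e M) := by
        rw [← mul_assoc, ← mul_pow]
        norm_num
    _ ≤ _ := by gcongr

theorem RatSym.main (H : RatSym N p l lam m) (hN : 0 < N) (hp : p.Prime) (hl : l.Prime)
    (hlN : ¬ l ∣ N) (hlam : ¬ (p : ℤ) ∣ lam - (l + 1)) :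
    ∃ S : Set ℕ, HasDensityOne S ∧ ∀ (e : ℕ) (a : ℤ),
      Tendsto (fun M => prob M fun r => red (p ^ e) (m r) = (a : ZMod (p ^ e)))
        (atTop ⊓ 𝓟 S) (𝓝 (1 / (p : ℝ) ^ e)) := by
  have : ∀ e, NeZero (p ^ e) := fun e => ⟨pow_ne_zero e hp.ne_zero⟩
  obtain ⟨S, hS, hlim⟩ := exists_densityOne_forall (fun e M => min (wt (p ^ e) m M) 1)
    (fun e M => le_min (wt_nonneg _ _ _) zero_le_one) (fun e M => min_le_right _ _) (fun e => by
      refine squeeze_zero (fun X => ?_) (fun X => ?_) (H.cesaro_wt hN hp hl hlN hlam e)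
      · exact div_nonneg (Finset.sum_nonneg fun M _ => le_min (wt_nonneg _ _ _) zero_le_one)
          (Nat.cast_nonneg X)
      · gcongr
        exact min_le_left _ _)
  refine ⟨S, hS, fun e a => ?_⟩
  rw [tendsto_iff_dist_tendsto_zero]
  refine squeeze_zero' (Eventually.of_forall fun _ => dist_nonneg) ?_ (hlim e)
  filter_upwards [mem_inf_of_left (eventually_ge_atTop 2)] with M hM
  rw [Real.dist_eq, min_eq_left (wt_le_one _ m hM)]
  have := abs_prob_sub_le (p ^ e) m hM (a : ZMod (p ^ e))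
  rwa [Nat.cast_pow] at this

end Pool.Agent.P.MP_99daa8_nt
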