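import Pool.Agent.P.MP_99daa8_nt.Basic

namespace Pool.Agent.P.MP_99daa8_nt

open scoped MatrixGroups
open Finset

/-- integer power of the lower unipotent generator -/
def swapL (k : ℤ) : SL(2, ℤ) := ⟨!![1, 0; k, 1], by simp [Matrix.det_fin_two]⟩

/-- integer power of the upper unipotent generator -/
def swapR (k : ℤ) : SL(2, ℤ) := ⟨!![1, k; 0, 1], by simp [Matrix.det_fin_two]⟩

@[simp] theorem swapL_00 (k : ℤ) : swapL k 0 0 = 1 := rfl
@[simp] theorem swapL_01 (k : ℤ) : swapL k 0 1 = 0 := rfl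
@[simp] theorem swapL_10 (k : ℤ) : swapL k 1 0 = k := rfl
@[simp] theorem swapL_11 (k : ℤ) : swapL k 1 1 = 1 := rfl
@[simp] theorem swapR_00 (k : ℤ) : swapR k 0 0 = 1 := rfl
@[simp] theorem swapR_01 (k : ℤ) : swapR k 0 1 = k := rfl
@[simp] theorem swapR_10 (k : ℤ) : swapR k 1 0 = 0 := rfl
@[simp] theorem swapR_11 (k : ℤ) : swapR k 1 1 = 1 := rfl

theorem swap_ext {g h : SL(2, ℤ)} (h00 : g 0 0 = h 0 0) (h01 : g 0 1 = h 0 1)
    (h10 : g 1 0 = h 1 0) (h11 : g 1 1 = h 1 1) : g = h := by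
  ext i j
  fin_cases i <;> fin_cases j
  exacts [h00, h01, h10, h11]

theorem swapL_add (a b : ℤ) : swapL a * swapL b = swapL (a + b) := by
  apply swap_ext <;> simp [mul_entry]

theorem swapR_add (a b : ℤ) : swapR a * swapR b = swapR (a + b) := by
  apply swap_ext <;> simp [mul_entry, add_comm]

theorem swapL_zero : swapL 0 = 1 := by
  apply swap_ext <;> simp

theorem swapR_zero : swapR 0 = 1 := by
  apply swap_ext <;> simp

theorem swapL_one : swapL 1 = Lm := rfl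

theorem swapR_one : swapR 1 = Rm := rfl

theorem swapL_neg (a : ℤ) : swapL (-a) = (swapL a)⁻¹ := by
  rw [eq_inv_iff_mul_eq_one, swapL_add, neg_add_cancel, swapL_zero]

theorem swapR_neg (a : ℤ) : swapR (-a) = (swapR a)⁻¹ := by
  rw [eq_inv_iff_mul_eq_one, swapR_add, neg_add_cancel, swapR_zero]

theorem swapL_pow (a : ℤ) (m : ℕ) : swapL a ^ m = swapL (m * a) := by
  induction m with
  | zero => simp [swapL_zero]
  | succ m ih =>
    rw [pow_succ, ih, swapL_add]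
    congr 1
    push_cast
    ring

theorem swapR_pow (a : ℤ) (m : ℕ) : swapR a ^ m = swapR (m * a) := by
  induction m with
  | zero => simp [swapR_zero]
  | succ m ih =>
    rw [pow_succ, ih, swapR_add]
    congr 1
    push_cast
    ring

theorem swapL_mem (N : ℕ) (k : ℤ) : swapL (N * k) ∈ CongruenceSubgroup.Gamma N := by
  rw [CongruenceSubgroup.Gamma_mem]
  simp

theorem swapR_mem (N : ℕ) (k : ℤ) : swapR (N * k) ∈ CongruenceSubgroup.Gamma N := by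
  rw [CongruenceSubgroup.Gamma_mem]
  simp

theorem swap_nn_mul {a b : SL(2, ℤ)} (ha : NN a) (hb : NN b) : NN (a * b) := fun i j => by
  rw [mul_entry]
  exact add_nonneg (mul_nonneg (ha _ _) (hb _ _)) (mul_nonneg (ha _ _) (hb _ _))

theorem swap_nn_of {a : SL(2, ℤ)} (h00 : 0 ≤ a 0 0) (h01 : 0 ≤ a 0 1) (h10 : 0 ≤ a 1 0)
    (h11 : 0 ≤ a 1 1) : NN a := fun i j => by
  fin_cases i <;> fin_cases j
  exacts [h00, h01, h10, h11]

theorem swap_nn_det (a : SL(2, ℤ)) (h00 : 1 ≤ a 0 0) (h10 : 1 ≤ a 1 0) (h11 : 1 ≤ a 1 1) :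
    NN a := by
  refine swap_nn_of (by linarith) ?_ (by linarith) (by linarith)
  have h1 := det_eq a
  have h2 := one_le_mul_of_one_le_of_one_le h00 h11
  have h3 : 0 ≤ a 0 1 * a 1 0 := by linarith
  exact nonneg_of_mul_nonneg_left h3 (by linarith)

theorem swapL_nn {k : ℤ} (hk : 0 ≤ k) : NN (swapL k) := swap_nn_of (by simp) (by simp) hk (by simp)

theorem swapR_nn {k : ℤ} (hk : 0 ≤ k) : NN (swapR k) := swap_nn_of (by simp) hk (by simp) (by simp)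

theorem swap_box (M : SL(2, ℤ)) {lo hi : ℤ} (h00 : 0 ≤ M 0 0) (h10 : 0 ≤ M 1 0) (h11 : 0 ≤ M 1 1)
    (hlo : lo ≤ M 0 1) (hhi : M 0 0 + M 0 1 + M 1 0 + M 1 1 ≤ hi) (i j : Fin 2) :
    lo ≤ (Lm * M * Lm) i j ∧ (Lm * M * Lm) i j ≤ hi := by
  have e00 : (Lm * M * Lm) 0 0 = M 0 0 + M 0 1 := by simp [mul_entry]
  have e01 : (Lm * M * Lm) 0 1 = M 0 1 := by simp [mul_entry]
  have e10 : (Lm * M * Lm) 1 0 = M 0 0 + M 1 0 + (M 0 1 + M 1 1) := by simp [mul_entry]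
  have e11 : (Lm * M * Lm) 1 1 = M 0 1 + M 1 1 := by simp [mul_entry]
  fin_cases i <;> fin_cases j
  · show lo ≤ (Lm * M * Lm) 0 0 ∧ (Lm * M * Lm) 0 0 ≤ hi
    rw [e00]
    constructor <;> linarith
  · show lo ≤ (Lm * M * Lm) 0 1 ∧ (Lm * M * Lm) 0 1 ≤ hi
    rw [e01]
    constructor <;> linarith
  · show lo ≤ (Lm * M * Lm) 1 0 ∧ (Lm * M * Lm) 1 0 ≤ hi
    rw [e10]
    constructor <;> linarith
  · show lo ≤ (Lm * M * Lm) 1 1 ∧ (Lm * M * Lm) 1 1 ≤ hi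
    rw [e11]
    constructor <;> linarith

theorem swap_sand (E B : ℤ) (h : SL(2, ℤ)) :
    (swapR E * h * swapR B) 0 0 = h 0 0 + E * h 1 0 ∧
    (swapR E * h * swapR B) 0 1 = (h 0 0 + E * h 1 0) * B + (h 0 1 + E * h 1 1) ∧
    (swapR E * h * swapR B) 1 0 = h 1 0 ∧
    (swapR E * h * swapR B) 1 1 = h 1 0 * B + h 1 1 := by
  simp [mul_entry]

theorem swap_kappa_fin (F : Finset ℂ) (h : ∀ z ∈ F, ‖1 + z‖ < 2) :
    ∃ κ : ℝ, 0 < κ ∧ ∀ z ∈ F, ‖1 + z‖ ≤ 2 - κ := by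
  classical
  induction F using Finset.induction_on with
  | empty => exact ⟨1, one_pos, by simp⟩
  | insert a F _ ih =>
    obtain ⟨κ, hκ, hF⟩ := ih fun z hz => h z (mem_insert_of_mem hz)
    have ha := h a (mem_insert_self _ _)
    refine ⟨min κ (2 - ‖1 + a‖), lt_min hκ (by linarith), fun z hz => ?_⟩
    rcases mem_insert.1 hz with rfl | hz
    · have := min_le_right κ (2 - ‖1 + z‖)
      linarith
    · have := min_le_left κ (2 - ‖1 + a‖)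
      have := hF z hz
      linarith

theorem swap_norm_one {n : ℕ} (hn : 0 < n) {z : ℂ} (hz : z ^ n = 1) : ‖z‖ = 1 := by
  have h : ‖z‖ ^ n = 1 := by rw [← norm_pow, hz, norm_one]
  exact (pow_eq_one_iff_of_nonneg (norm_nonneg z) hn.ne').1 h

theorem swap_kappa {n : ℕ} (hn : 0 < n) :
    ∃ κ : ℝ, 0 < κ ∧ ∀ z : ℂ, z ^ n = 1 → z ≠ 1 → ‖1 + z‖ ≤ 2 - κ := by
  classical
  obtain ⟨κ, hκ, hF⟩ := swap_kappa_fin ((Polynomial.nthRoots n (1 : ℂ)).toFinset.erase 1) (by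
    intro z hz
    rw [mem_erase, Multiset.mem_toFinset, Polynomial.mem_nthRoots hn] at hz
    have h1 := swap_norm_one hn hz.2
    have h2 : ‖1 + z‖ ≤ ‖(1 : ℂ)‖ + ‖z‖ := norm_add_le _ _
    refine lt_of_le_of_ne (by rw [norm_one, h1] at h2; linarith) fun h3 => hz.1 ?_
    refine (eq_of_norm_eq_of_norm_add_eq (x := (1 : ℂ)) (y := z) (by rw [norm_one, h1]) ?_).symm
    rw [h3, norm_one, h1]
    norm_num)
  refine ⟨κ, hκ, fun z h1 h2 => hF z ?_⟩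
  rw [mem_erase, Multiset.mem_toFinset, Polynomial.mem_nthRoots hn]
  exact ⟨h2, h1⟩

section
variable {s : ℤ × ℤ → ℂ} {N n : ℕ} {θ : SL(2, ℤ) → ℂ}

theorem swap_th_one (H : Equivar s N n θ) : θ 1 = 1 := by
  have h1 := H.mul 1 (one_mem _) 1 (one_mem _)
  have h2 := H.pow 1 (one_mem _)
  have h3 : θ 1 ≠ 0 := fun h => by
    rw [h, zero_pow H.n_pos.ne'] at h2
    exact zero_ne_one h2
  rw [mul_one] at h1
  exact (mul_left_cancel₀ h3 (h1.symm.trans (mul_one _).symm))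

theorem swap_th_pow (H : Equivar s N n θ) {γ : SL(2, ℤ)} (hγ : γ ∈ CongruenceSubgroup.Gamma N)
    (m : ℕ) : θ (γ ^ m) = θ γ ^ m := by
  induction m with
  | zero => rw [pow_zero, pow_zero, swap_th_one H]
  | succ m ih => rw [pow_succ, H.mul _ (pow_mem hγ m) _ hγ, ih, pow_succ]

theorem swap_th_conj (H : Equivar s N n θ) (x : SL(2, ℤ)) {γ : SL(2, ℤ)}
    (hγ : γ ∈ CongruenceSubgroup.Gamma N) :
    x * γ ^ n * x⁻¹ ∈ CongruenceSubgroup.Gamma N ∧ θ (x * γ ^ n * x⁻¹) = 1 := by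
  have h := (CongruenceSubgroup.Gamma_normal N).conj_mem γ hγ x
  rw [← conj_pow]
  exact ⟨pow_mem h n, by rw [swap_th_pow H h, H.pow _ h]⟩

theorem swap_th_L (H : Equivar s N n θ) (x : SL(2, ℤ)) (k : ℤ) :
    x * swapL ((n : ℤ) * N * k) * x⁻¹ ∈ CongruenceSubgroup.Gamma N ∧
      θ (x * swapL ((n : ℤ) * N * k) * x⁻¹) = 1 := by
  rw [mul_assoc (n : ℤ), ← swapL_pow]
  exact swap_th_conj H x (swapL_mem N k)

theorem swap_th_R (H : Equivar s N n θ) (x : SL(2, ℤ)) (k : ℤ) :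
    x * swapR ((n : ℤ) * N * k) * x⁻¹ ∈ CongruenceSubgroup.Gamma N ∧
      θ (x * swapR ((n : ℤ) * N * k) * x⁻¹) = 1 := by
  rw [mul_assoc (n : ℤ), ← swapR_pow]
  exact swap_th_conj H x (swapR_mem N k)

end

theorem swap_gamma_two {N : ℕ} {h : SL(2, ℤ)} (hh : h ∈ CongruenceSubgroup.Gamma (2 * N)) :
    h ∈ CongruenceSubgroup.Gamma N ∧ h 0 0 ≠ 0 := by
  rw [CongruenceSubgroup.Gamma_mem] at hh
  obtain ⟨h1, h2, h3, h4⟩ := hh
  have one : ∀ a : ℤ, ((a : ℤ) : ZMod (2 * N)) = 1 → ((2 * N : ℕ) : ℤ) ∣ a - 1 := fun a ha => by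
    rw [← ZMod.intCast_zmod_eq_zero_iff_dvd]
    push_cast
    rw [ha, sub_self]
  have hd : (N : ℤ) ∣ ((2 * N : ℕ) : ℤ) := ⟨2, by push_cast; ring⟩
  have one' : ∀ a : ℤ, ((a : ℤ) : ZMod (2 * N)) = 1 → ((a : ℤ) : ZMod N) = 1 := fun a ha => by
    have := (ZMod.intCast_zmod_eq_zero_iff_dvd _ N).2 (hd.trans (one a ha))
    push_cast at this
    exact sub_eq_zero.1 this
  have zero' : ∀ a : ℤ, ((a : ℤ) : ZMod (2 * N)) = 0 → ((a : ℤ) : ZMod N) = 0 := fun a ha =>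
    (ZMod.intCast_zmod_eq_zero_iff_dvd _ N).2
      (hd.trans ((ZMod.intCast_zmod_eq_zero_iff_dvd _ _).1 ha))
  refine ⟨?_, fun h0 => ?_⟩
  · rw [CongruenceSubgroup.Gamma_mem]
    exact ⟨one' _ h1, zero' _ h2, zero' _ h3, one' _ h4⟩
  · obtain ⟨c, hc⟩ := one _ h1
    rw [h0] at hc
    push_cast at hc
    have : (0 : ℤ) - 1 = 2 * (N * c) := by linarith
    omega

/-- the numerical core: both words have all entries in a short window -/
theorem swap_core (P : ℤ) (hP : 1 ≤ P) (h : SL(2, ℤ)) (hga : 1 ≤ h 1 0) (ε : ℝ) (hε : 0 < ε) :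
    ∃ (t : ℤ) (Zlo Zhi : ℕ), 1 ≤ t ∧ 0 < Zlo ∧ (Zhi : ℝ) ≤ (1 + ε) * Zlo ∧
      NN (swapR (P * (2 * (P * t)) - P * t - 1) * h * swapR (P * t)) ∧
      (∀ i j, (Zlo : ℤ) ≤ (Lm * (swapR (P * t) * swapL (P * (2 * h 1 0)) * swapR (P * t)) * Lm) i j ∧
        (Lm * (swapR (P * t) * swapL (P * (2 * h 1 0)) * swapR (P * t)) * Lm) i j ≤ Zhi) ∧
      (∀ i j, (Zlo : ℤ) ≤ (Lm * (swapR (P * (2 * (P * t))) * h * swapR (P * t)) * Lm) i j ∧
        (Lm * (swapR (P * (2 * (P * t))) * h * swapR (P * t)) * Lm) i j ≤ Zhi) := by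
  set al := h 0 0 with hal
  set be := h 0 1 with hbe
  set ga := h 1 0 with hgad
  set de := h 1 1 with hde
  obtain ⟨D, hD1, hDa, hDa', hDb, hDb', hDd, hDd', hDg⟩ : ∃ D : ℤ, 1 ≤ D ∧ al ≤ D ∧ -D ≤ al ∧
      be ≤ D ∧ -D ≤ be ∧ de ≤ D ∧ -D ≤ de ∧ ga ≤ D := by
    refine ⟨|al| + |be| + |de| + ga, ?_⟩
    have := abs_nonneg al
    have := abs_nonneg be
    have := abs_nonneg de
    have := le_abs_self al
    have := le_abs_self be
    have := le_abs_self de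
    have := neg_abs_le al
    have := neg_abs_le be
    have := neg_abs_le de
    refine ⟨?_, ?_, ?_, ?_, ?_, ?_, ?_, ?_⟩ <;> linarith
  obtain ⟨K, hK⟩ : ∃ K : ℤ, K = 20 * (P * P * D) := ⟨_, rfl⟩
  obtain ⟨t, ht1, ht2⟩ : ∃ t : ℤ, K < t ∧ (2 + ε) * K ≤ ε * t := by
    obtain ⟨m, hm⟩ := exists_nat_ge ((2 + ε) * K / ε)
    refine ⟨max (K + 1) m, lt_of_lt_of_le (by linarith) (le_max_left _ _), ?_⟩
    have h1 : ((m : ℤ) : ℝ) ≤ ((max (K + 1) (m : ℤ) : ℤ) : ℝ) := by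
      exact_mod_cast le_max_right _ _
    rw [div_le_iff₀ hε] at hm
    rw [Int.cast_natCast] at h1
    have h2 := mul_le_mul_of_nonneg_left h1 hε.le
    linarith
  obtain ⟨Q, hQ⟩ : ∃ Q : ℤ, Q = P * P * D := ⟨_, rfl⟩
  have hP0 : 0 ≤ P := by linarith
  have hD0 : 0 ≤ D := by linarith
  have hga0 : 0 ≤ ga := by linarith
  have hPP : P ≤ P * P := le_mul_of_one_le_right hP0 hP
  have hPD : P * D ≤ Q := by rw [hQ]; exact mul_le_mul_of_nonneg_right hPP hD0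
  have hD' : D ≤ P * D := le_mul_of_one_le_left hD0 hP
  have hP' : P ≤ P * D := le_mul_of_one_le_right hP0 hD1
  have hDQ : D ≤ Q := hD'.trans hPD
  have hPQ : P ≤ Q := hP'.trans hPD
  have hQ1 : 1 ≤ Q := hD1.trans hDQ
  rw [← hQ] at hK
  have ht : 1 ≤ t := by linarith
  have hDt : D + 2 ≤ t := by linarith
  have ht0 : 0 ≤ t := by linarith
  have hPt : t ≤ P * t := le_mul_of_one_le_left ht0 hP
  obtain ⟨W, hW⟩ : ∃ W : ℤ, W = Q * t := ⟨_, rfl⟩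
  have hQW : Q ≤ W := by rw [hW]; exact le_mul_of_one_le_right (by linarith) ht
  have w1 : P * t ≤ W := by rw [hW]; exact mul_le_mul_of_nonneg_right hPQ ht0
  have hPPt : 0 ≤ P * P * t := by positivity
  have hPt0 : 0 ≤ P * t := by positivity
  have w2 : ∀ a : ℤ, a ≤ D → P * P * t * a ≤ W := fun a ha => by
    have := mul_le_mul_of_nonneg_left ha hPPt
    rw [hW, hQ]
    linarith
  have w3 : ∀ a : ℤ, a ≤ D → P * t * a ≤ W := fun a ha => by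
    have h1 : P * t * a ≤ P * t * D := mul_le_mul_of_nonneg_left ha hPt0
    have h2 : P * D * t ≤ Q * t := mul_le_mul_of_nonneg_right hPD ht0
    rw [hW]
    linarith
  have w4 : P * ga ≤ W := by
    have : P * ga ≤ P * D := mul_le_mul_of_nonneg_left hDg hP0
    linarith
  obtain ⟨Z, hZ⟩ : ∃ Z : ℤ, Z = 2 * (P * P * P) * ga * (t * t) := ⟨_, rfl⟩
  have hZt : t * t ≤ Z := by
    have h0 : 1 ≤ P * P * P :=
      one_le_mul_of_one_le_of_one_le (one_le_mul_of_one_le_of_one_le hP hP) hP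
    have h1 : 1 ≤ 2 * (P * P * P) * ga := one_le_mul_of_one_le_of_one_le (by linarith) hga
    rw [hZ]
    exact le_mul_of_one_le_left (mul_self_nonneg t) h1
  have hKt : K * t = 20 * W := by rw [hK, hW]; ring
  have hlo : 0 < Z - 20 * W := by
    have := mul_lt_mul_of_pos_right ht1 (show 0 < t by linarith)
    linarith
  have hW0 : 0 ≤ W := by linarith
  have clo : ((Z - 20 * W).toNat : ℤ) = Z - 20 * W := Int.toNat_of_nonneg hlo.le
  have chi : ((Z + 20 * W).toNat : ℤ) = Z + 20 * W := Int.toNat_of_nonneg (by linarith)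
  have d1 : 1 ≤ ga * (P * t) + de := by
    have := le_mul_of_one_le_left hPt0 hga
    linarith
  refine ⟨t, (Z - 20 * W).toNat, (Z + 20 * W).toNat, ht, by omega, ?_, ?_, ?_, ?_⟩
  · have e1 : (((Z - 20 * W).toNat : ℕ) : ℝ) = (Z : ℝ) - K * t := by
      have : (((Z - 20 * W).toNat : ℤ) : ℝ) = ((Z - K * t : ℤ) : ℝ) := by rw [clo, hKt]
      push_cast at this
      exact this
    have e2 : (((Z + 20 * W).toNat : ℕ) : ℝ) = (Z : ℝ) + K * t := by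
      have : (((Z + 20 * W).toNat : ℤ) : ℝ) = ((Z + K * t : ℤ) : ℝ) := by rw [chi, hKt]
      push_cast at this
      exact this
    have e3 : (t : ℝ) * t ≤ Z := by exact_mod_cast hZt
    have e4 : (1 : ℝ) ≤ t := by exact_mod_cast ht
    rw [e1, e2]
    have e5 : (2 + ε) * K * t ≤ ε * t * t := mul_le_mul_of_nonneg_right ht2 (by linarith)
    have e6 : ε * (t * t) ≤ ε * Z := mul_le_mul_of_nonneg_left e3 hε.le
    linarith
  · obtain ⟨e00, e01, e10, e11⟩ := swap_sand (P * (2 * (P * t)) - P * t - 1) (P * t) h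
    have hE : D + 1 ≤ P * (2 * (P * t)) - P * t - 1 := by
      have := le_mul_of_one_le_left hPt0 hP
      linarith
    have a1 : 1 ≤ (swapR (P * (2 * (P * t)) - P * t - 1) * h * swapR (P * t)) 0 0 := by
      rw [e00, ← hal, ← hgad]
      have := le_mul_of_one_le_right (show 0 ≤ P * (2 * (P * t)) - P * t - 1 by linarith) hga
      linarith
    have a2 : 1 ≤ (swapR (P * (2 * (P * t)) - P * t - 1) * h * swapR (P * t)) 1 0 := by
      rw [e10]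
      exact hga
    have a3 : 1 ≤ (swapR (P * (2 * (P * t)) - P * t - 1) * h * swapR (P * t)) 1 1 := by
      rw [e11]
      exact d1
    exact swap_nn_det _ a1 a2 a3
  · obtain ⟨e00, e01, e10, e11⟩ := swap_sand (P * t) (P * t) (swapL (P * (2 * ga)))
    simp only [swapL_00, swapL_01, swapL_10, swapL_11] at e00 e01 e10 e11
    have b1 := w2 ga hDg
    have b2 : 0 ≤ P * P * t * ga := by positivity
    have b3 : 0 ≤ P * ga := by positivity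
    rw [clo, chi]
    refine swap_box _ ?_ ?_ ?_ ?_ ?_
    · rw [e00]
      linarith
    · rw [e10]
      linarith
    · rw [e11]
      linarith
    · rw [e01]
      linarith
    · rw [e00, e01, e10, e11]
      linarith
  · obtain ⟨e00, e01, e10, e11⟩ := swap_sand (P * (2 * (P * t))) (P * t) h
    rw [← hal, ← hgad] at e00
    rw [← hal, ← hgad, ← hbe, ← hde] at e01
    rw [← hgad] at e10
    rw [← hgad, ← hde] at e11
    have b1 := w2 ga hDg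
    have b2 := w2 de hDd
    have b2' := w2 (-de) (by linarith)
    have b3 := w3 al hDa
    have b3' := w3 (-al) (by linarith)
    have b4 := w3 ga hDg
    have b5 : t ≤ P * P * t * ga := by
      have h1 := le_mul_of_one_le_right hPPt hga
      have h2 := le_mul_of_one_le_left hPt0 hP
      linarith
    rw [clo, chi]
    refine swap_box _ ?_ ?_ ?_ ?_ ?_
    · rw [e00]
      linarith
    · rw [e10]
      linarith
    · rw [e11]
      linarith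
    · rw [e01]
      linarith
    · rw [e00, e01, e10, e11]
      linarith

/-- the conclusion of `swap` for one matrix `g` and one bound `Z` -/
def SwapGood (s : ℤ × ℤ → ℂ) (κ ε : ℝ) (g : SL(2, ℤ)) (Z : ℕ) : Prop :=
  ∃ (p u₀ u₁ : SL(2, ℤ)) (Zlo Zhi : ℕ) (ζ : ℂ), NN p ∧ NN u₀ ∧ NN u₁ ∧ 0 < Zlo ∧
    Zhi ≤ Z ∧ (Zhi : ℝ) ≤ (1 + ε) * Zlo ∧
    (∀ i j, (Zlo : ℤ) ≤ (p * Lm * u₀) i j ∧ (p * Lm * u₀) i j ≤ Zhi) ∧
    (∀ i j, (Zlo : ℤ) ≤ (p * Rm * u₁) i j ∧ (p * Rm * u₁) i j ≤ Zhi) ∧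
    ‖ζ‖ = 1 ∧ ‖1 + ζ‖ ≤ 2 - κ ∧
    ∀ v, s (act (g * (p * Rm * u₁)) v) = ζ * s (act (g * (p * Lm * u₀)) v)

theorem swapGood_mono {s : ℤ × ℤ → ℂ} {κ ε : ℝ} {g : SL(2, ℤ)} {Z Z' : ℕ} (hZ : Z ≤ Z')
    (h : SwapGood s κ ε g Z) : SwapGood s κ ε g Z' := by
  obtain ⟨p, u₀, u₁, Zlo, Zhi, ζ, h1, h2, h3, h4, h5, h6⟩ := h
  exact ⟨p, u₀, u₁, Zlo, Zhi, ζ, h1, h2, h3, h4, h5.trans hZ, h6⟩

theorem swapGood_mul {s : ℤ × ℤ → ℂ} {N n : ℕ} {θ : SL(2, ℤ) → ℂ} (H : Equivar s N n θ)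
    {κ ε : ℝ} {g k : SL(2, ℤ)} {Z : ℕ} (hk : k ∈ CongruenceSubgroup.Gamma N)
    (h : SwapGood s κ ε g Z) : SwapGood s κ ε (k * g) Z := by
  obtain ⟨p, u₀, u₁, Zlo, Zhi, ζ, h1, h2, h3, h4, h5, h6, h7, h8, h9, h10, h11⟩ := h
  refine ⟨p, u₀, u₁, Zlo, Zhi, ζ, h1, h2, h3, h4, h5, h6, h7, h8, h9, h10, fun v => ?_⟩
  rw [mul_assoc k g, mul_assoc k g, act_mul k, act_mul k, H.equiv k hk, H.equiv k hk, h11]
  ring

theorem swapGood_exists {s : ℤ × ℤ → ℂ} {N n : ℕ} {θ : SL(2, ℤ) → ℂ} (H : Equivar s N n θ)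
    {κ : ℝ} (hκ : ∀ z : ℂ, z ^ n = 1 → z ≠ 1 → ‖1 + z‖ ≤ 2 - κ) {ε : ℝ} (hε : 0 < ε)
    (g : SL(2, ℤ)) : ∃ Z, SwapGood s κ ε g Z := by
  obtain ⟨h, hh, hθ⟩ := H.noncong 2 two_pos
  obtain ⟨x, hx⟩ : ∃ x, x = g * Lm := ⟨_, rfl⟩
  have hhN := (swap_gamma_two hh).1
  have hh' : x⁻¹ * h * x⁻¹⁻¹ ∈ CongruenceSubgroup.Gamma (2 * N) :=
    (CongruenceSubgroup.Gamma_normal _).conj_mem h hh x⁻¹
  rw [inv_inv] at hh'
  have hal := (swap_gamma_two hh').2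
  obtain ⟨P, hP⟩ : ∃ P : ℤ, P = (n : ℤ) * N := ⟨_, rfl⟩
  have hP1 : 1 ≤ P := by
    have h1 : (1 : ℤ) ≤ n := by exact_mod_cast H.n_pos
    have h2 : (1 : ℤ) ≤ N := by exact_mod_cast H.N_pos
    rw [hP]
    nlinarith
  obtain ⟨k, hk⟩ : ∃ k : ℤ, 1 ≤ (swapL (P * k) * (x⁻¹ * h * x)) 1 0 := by
    generalize x⁻¹ * h * x = h' at hal
    refine ⟨h' 0 0 * (|h' 1 0| + 1), ?_⟩
    rw [mul_entry, swapL_10, swapL_11]
    have h1 : 1 ≤ h' 0 0 * h' 0 0 := by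
      have := mul_self_pos.2 hal
      omega
    have h2 := neg_abs_le (h' 1 0)
    have h3 := abs_nonneg (h' 1 0)
    have h4 : 1 ≤ P * (h' 0 0 * h' 0 0) := by nlinarith
    nlinarith
  obtain ⟨h1, hh1⟩ : ∃ h1, h1 = swapL (P * k) * (x⁻¹ * h * x) := ⟨_, rfl⟩
  rw [← hh1] at hk
  obtain ⟨t, Zlo, Zhi, ht, hlo, hrat, hnn, hw0, hw1⟩ := swap_core P hP1 h1 hk ε hε
  have hLm : NN Lm := swapL_nn (k := 1) zero_le_one
  have hPt : 0 ≤ P * t := by positivity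
  have e0 : Lm * swapR (P * t) * Lm * (swapL (P * (2 * h1 1 0) - 1) * swapR (P * t) * Lm)
      = Lm * (swapR (P * t) * swapL (P * (2 * h1 1 0)) * swapR (P * t)) * Lm := by
    have : swapL (P * (2 * h1 1 0)) = Lm * swapL (P * (2 * h1 1 0) - 1) := by
      rw [← swapL_one, swapL_add]
      congr 1
      ring
    rw [this]
    simp only [mul_assoc]
  have e1 : Lm * swapR (P * t) * Rm *
      (swapR (P * (2 * (P * t)) - P * t - 1) * h1 * swapR (P * t) * Lm)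
      = Lm * (swapR (P * (2 * (P * t))) * h1 * swapR (P * t)) * Lm := by
    have : swapR (P * (2 * (P * t)))
        = swapR (P * t) * (Rm * swapR (P * (2 * (P * t)) - P * t - 1)) := by
      rw [← swapR_one, swapR_add, swapR_add]
      congr 1
      ring
    rw [this]
    simp only [mul_assoc]
  have hpow := H.pow h hhN
  refine ⟨Zhi, Lm * swapR (P * t), swapL (P * (2 * h1 1 0) - 1) * swapR (P * t) * Lm,
    swapR (P * (2 * (P * t)) - P * t - 1) * h1 * swapR (P * t) * Lm, Zlo, Zhi, θ h,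
    swap_nn_mul hLm (swapR_nn hPt),
    swap_nn_mul (swap_nn_mul (swapL_nn (by nlinarith)) (swapR_nn hPt)) hLm,
    swap_nn_mul hnn hLm, hlo, le_rfl, hrat, ?_, ?_, swap_norm_one H.n_pos hpow,
    hκ _ hpow hθ, fun v => ?_⟩
  · rw [e0]
    exact hw0
  · rw [e1]
    exact hw1
  · rw [e0, e1]
    obtain ⟨m1, t1⟩ := swap_th_R H x (2 * (P * t))
    obtain ⟨m2, t2⟩ := swap_th_L H x k
    obtain ⟨m3, t3⟩ := swap_th_L H x (-(2 * h1 1 0))
    obtain ⟨m4, t4⟩ := swap_th_R H x (-t)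
    rw [← hP] at m1 t1 m2 t2 m3 t3 m4 t4
    rw [mul_neg, swapL_neg] at m3 t3
    rw [mul_neg, swapR_neg] at m4 t4
    generalize swapL (P * (2 * h1 1 0)) = c at m3 t3 ⊢
    generalize swapR (P * (2 * (P * t))) = e at m1 t1 ⊢
    generalize swapR (P * t) = a at m4 t4 ⊢
    generalize swapL (P * k) = l at m2 t2 hh1
    have key : g * (Lm * (e * h1 * a) * Lm) = ((x * e * x⁻¹) * ((x * l * x⁻¹) *
        (h * ((x * c⁻¹ * x⁻¹) * (x * a⁻¹ * x⁻¹))))) * (g * (Lm * (a * c * a) * Lm)) := by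
      rw [hh1, hx]
      group
    have n34 := mul_mem m3 m4
    have n5 := mul_mem hhN n34
    have n6 := mul_mem m2 n5
    rw [key, act_mul, H.equiv _ (mul_mem m1 n6), H.mul _ m1 _ n6, H.mul _ m2 _ n5,
      H.mul _ hhN _ n34, H.mul _ m3 _ m4, t1, t2, t3, t4]
    ring

theorem swap {s : ℤ × ℤ → ℂ} {N n : ℕ} {θ : SL(2, ℤ) → ℂ} (H : Equivar s N n θ) :
    ∃ κ : ℝ, 0 < κ ∧ ∀ ε : ℝ, 0 < ε → ∃ Zmax : ℕ, ∀ g : SL(2, ℤ),
      ∃ (p u₀ u₁ : SL(2, ℤ)) (Zlo Zhi : ℕ) (ζ : ℂ), NN p ∧ NN u₀ ∧ NN u₁ ∧ 0 < Zlo ∧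
        Zhi ≤ Zmax ∧ (Zhi : ℝ) ≤ (1 + ε) * Zlo ∧
        (∀ i j, (Zlo : ℤ) ≤ (p * Lm * u₀) i j ∧ (p * Lm * u₀) i j ≤ Zhi) ∧
        (∀ i j, (Zlo : ℤ) ≤ (p * Rm * u₁) i j ∧ (p * Rm * u₁) i j ≤ Zhi) ∧
        ‖ζ‖ = 1 ∧ ‖1 + ζ‖ ≤ 2 - κ ∧
        ∀ v, s (act (g * (p * Rm * u₁)) v) = ζ * s (act (g * (p * Lm * u₀)) v) := by
  obtain ⟨κ, hκ0, hκ⟩ := swap_kappa H.n_pos
  refine ⟨κ, hκ0, fun ε hε => ?_⟩
  have : NeZero N := ⟨H.N_pos.ne'⟩
  let φ : SL(2, ℤ) →* SL(2, ZMod N) := Matrix.SpecialLinearGroup.map (Int.castRingHom (ZMod N))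
  have hc : ∀ c : SL(2, ZMod N), ∃ Z, ∀ g, φ g = c → SwapGood s κ ε g Z := by
    intro c
    by_cases hex : ∃ g, φ g = c
    · obtain ⟨g0, hg0⟩ := hex
      obtain ⟨Z, hZ⟩ := swapGood_exists H hκ hε g0
      refine ⟨Z, fun g hg => ?_⟩
      have hk : g * g0⁻¹ ∈ CongruenceSubgroup.Gamma N := by
        show g * g0⁻¹ ∈ φ.ker
        rw [MonoidHom.mem_ker, map_mul, map_inv, hg, hg0, mul_inv_cancel]
      have := swapGood_mul H hk hZ
      rwa [inv_mul_cancel_right] at this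
    · exact ⟨0, fun g hg => absurd ⟨g, hg⟩ hex⟩
  choose Zf hZf using hc
  obtain ⟨Zmax, hZmax⟩ := (Set.finite_range Zf).bddAbove
  exact ⟨Zmax, fun g => swapGood_mono (hZmax ⟨φ g, rfl⟩) (hZf (φ g) g rfl)⟩

end Pool.Agent.P.MP_99daa8_nt
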