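import Pool.Agent.P.MP_99daa8_nt.Contract
import Pool.Agent.P.MP_99daa8_nt.Swap

namespace Pool.Agent.P.MP_99daa8_nt

open scoped MatrixGroups
open Finset Filter Topology

private theorem norm_sum_le_card {s : ℤ × ℤ → ℂ} (hs : ∀ v, ‖s v‖ ≤ 1) (g : SL(2, ℤ))
    (A : Finset (ℕ × ℕ)) : ‖∑ v ∈ A, s (act g ((v.1 : ℤ), (v.2 : ℤ)))‖ ≤ A.card := by
  refine (norm_sum_le _ _).trans ?_
  have h := Finset.sum_le_card_nsmul A (fun v => ‖s (act g ((v.1 : ℤ), (v.2 : ℤ)))‖) 1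
    fun v _ => hs _
  simpa using h

private theorem norm_triSum_le_sq {s : ℤ × ℤ → ℂ} (hs : ∀ v, ‖s v‖ ≤ 1) (g : SL(2, ℤ))
    (c d X : ℕ) : ‖triSum s g c d X‖ ≤ ((X : ℝ) + 1) ^ 2 := by
  refine (norm_sum_le_card hs g _).trans ?_
  have h : (tri c d X).card ≤ (X + 1) ^ 2 := by
    refine (card_filter_le _ _).trans ?_
    rw [card_product, card_range, sq]
  exact_mod_cast h

private theorem card_tri_le {c d : ℕ} (hc : 0 < c) (hd : 0 < d) (X : ℕ) :
    ((tri c d X).card : ℝ) ≤ (X : ℝ) / c * ((X : ℝ) / d + 1) := by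
  have h : tri c d X ⊆ Icc 1 (X / c) ×ˢ range (X / d + 1) := by
    intro v hv
    rw [mem_tri hc hd] at hv
    rw [mem_product, mem_Icc, mem_range, Nat.lt_succ_iff, Nat.le_div_iff_mul_le hc,
      Nat.le_div_iff_mul_le hd, mul_comm v.1, mul_comm v.2]
    omega
  have h2 := card_le_card h
  rw [card_product, Nat.card_Icc, card_range, Nat.add_sub_cancel] at h2
  have h3 : ((tri c d X).card : ℝ) ≤ ((X / c : ℕ) : ℝ) * (((X / d : ℕ) : ℝ) + 1) := by
    exact_mod_cast h2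
  refine h3.trans (mul_le_mul Nat.cast_div_le ?_ (by positivity) (by positivity))
  have := Nat.cast_div_le (α := ℝ) (m := X) (n := d)
  linarith

private theorem card_seg_one (M : ℕ) : (seg 1 1 M).card = M := by
  have h : seg 1 1 M = (range M).image fun y => (M - y, y) := by
    ext v
    rw [mem_seg one_pos one_pos, mem_image]
    constructor
    · rintro ⟨h1, h2⟩
      refine ⟨v.2, mem_range.2 (by omega), ?_⟩
      ext
      · simp only
        omega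
      · rfl
    · rintro ⟨y, hy, rfl⟩
      rw [mem_range] at hy
      simp only
      omega
  rw [h, card_image_of_injective, card_range]
  intro a b hab
  exact congrArg Prod.snd hab

private theorem card_tri_diag {Z : ℕ} (hZ : 0 < Z) (X : ℕ) :
    2 * (tri Z Z X).card = (X / Z) * (X / Z + 1) := by
  have h : tri Z Z X = tri 1 1 (X / Z) := by
    ext v
    rw [mem_tri hZ hZ, mem_tri one_pos one_pos, Nat.le_div_iff_mul_le hZ, one_mul, one_mul,
      add_mul, mul_comm v.1, mul_comm v.2]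
  have h2 := sum_tri_eq (fun _ => (1 : ℕ)) one_pos one_pos (X / Z)
  simp only [sum_const, smul_eq_mul, mul_one, card_seg_one] at h2
  have h3 := Finset.sum_range_id_mul_two (X / Z + 1)
  rw [Nat.add_sub_cancel] at h3
  rw [h, h2, mul_comm, h3, mul_comm]

private theorem tri_subset {c d c' d' : ℕ} (hc : 0 < c) (hd : 0 < d) (h1 : c ≤ c') (h2 : d ≤ d')
    (X : ℕ) : tri c' d' X ⊆ tri c d X := by
  intro v hv
  rw [mem_tri (by omega) (by omega)] at hv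
  rw [mem_tri hc hd]
  have h3 := Nat.mul_le_mul_right v.1 h1
  have h4 := Nat.mul_le_mul_right v.2 h2
  exact ⟨hv.1, by omega⟩

private theorem norm_sub_small {s : ℤ × ℤ → ℂ} (hs : ∀ v, ‖s v‖ ≤ 1) (g : SL(2, ℤ))
    {c d Z Z' : ℕ} (hZ : 0 < Z) (h1 : Z ≤ c) (h2 : Z ≤ d) (h3 : c ≤ Z') (h4 : d ≤ Z') (X : ℕ) :
    ‖triSum s g c d X - triSum s g Z' Z' X‖ ≤ ((tri Z Z X).card : ℝ) - (tri Z' Z' X).card := by
  have hsub : tri Z' Z' X ⊆ tri c d X := tri_subset (by omega) (by omega) h3 h4 X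
  have hsub2 : tri c d X ⊆ tri Z Z X := tri_subset hZ hZ h1 h2 X
  unfold triSum
  rw [← sum_sdiff hsub, add_sub_cancel_right]
  refine (norm_sum_le_card hs g _).trans ?_
  have h5 := card_sdiff_add_card_eq_card hsub
  have h6 := card_le_card hsub2
  have h7 : ((tri c d X \ tri Z' Z' X).card : ℝ) + (tri Z' Z' X).card ≤ (tri Z Z X).card := by
    exact_mod_cast h5.le.trans h6
  linarith

private theorem norm_tri_sub_le {s : ℤ × ℤ → ℂ} (hs : ∀ v, ‖s v‖ ≤ 1) (g : SL(2, ℤ))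
    {c d c' d' Z Z' : ℕ} (hZ : 0 < Z) (h1 : Z ≤ c) (h2 : Z ≤ d) (h1' : Z ≤ c') (h2' : Z ≤ d')
    (h3 : c ≤ Z') (h4 : d ≤ Z') (h3' : c' ≤ Z') (h4' : d' ≤ Z') (X : ℕ) :
    ‖triSum s g c d X - triSum s g c' d' X‖ ≤
      (X : ℝ) / Z * ((X : ℝ) / Z + 1) - ((X : ℝ) / Z' - 1) * ((X : ℝ) / Z') := by
  have hZ' : 0 < Z' := by omega
  have e1 := norm_sub_small hs g hZ h1 h2 h3 h4 X
  have e2 := norm_sub_small hs g hZ h1' h2' h3' h4' X
  have e3 : ‖triSum s g c d X - triSum s g c' d' X‖ ≤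
      ‖triSum s g c d X - triSum s g Z' Z' X‖ + ‖triSum s g c' d' X - triSum s g Z' Z' X‖ := by
    rw [← sub_sub_sub_cancel_right _ _ (triSum s g Z' Z' X)]
    exact norm_sub_le _ _
  have e4 : 2 * ((tri Z Z X).card : ℝ) = ((X / Z : ℕ) : ℝ) * (((X / Z : ℕ) : ℝ) + 1) := by
    exact_mod_cast card_tri_diag hZ X
  have e5 : 2 * ((tri Z' Z' X).card : ℝ) = ((X / Z' : ℕ) : ℝ) * (((X / Z' : ℕ) : ℝ) + 1) := by
    exact_mod_cast card_tri_diag hZ' X
  have e6 : ((X / Z : ℕ) : ℝ) ≤ (X : ℝ) / Z := Nat.cast_div_le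
  have e7 : (X : ℝ) / Z' ≤ ((X / Z' : ℕ) : ℝ) + 1 := by
    have hZr : (0 : ℝ) < Z' := by exact_mod_cast hZ'
    rw [div_le_iff₀ hZr]
    have := Nat.lt_div_mul_add (a := X) hZ'
    have h8 : (X : ℝ) ≤ ((X / Z' : ℕ) : ℝ) * Z' + Z' := by exact_mod_cast this.le
    linarith
  have e8 : (0 : ℝ) ≤ ((X / Z : ℕ) : ℝ) := by positivity
  have e9 : (0 : ℝ) ≤ ((X / Z' : ℕ) : ℝ) := by positivity
  have e10 : (0 : ℝ) ≤ (X : ℝ) / Z' := by positivity
  have e11 : ((X / Z : ℕ) : ℝ) * (((X / Z : ℕ) : ℝ) + 1) ≤ (X : ℝ) / Z * ((X : ℝ) / Z + 1) :=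
    mul_le_mul e6 (by linarith) (by linarith) (by linarith)
  have e12 : ((X : ℝ) / Z' - 1) * ((X : ℝ) / Z') ≤
      ((X / Z' : ℕ) : ℝ) * (((X / Z' : ℕ) : ℝ) + 1) := by
    nlinarith [mul_nonneg (sub_nonneg.2 e7) (add_nonneg e9 e10)]
  linarith

/-- passing an estimate `‖T X‖ ≤ a X ^ 2 + b X` to the limit -/
private theorem norm_lim_le {U : Filter ℕ} [U.NeBot] (hU : U ≤ atTop) {T : ℕ → ℂ} {L : ℂ}
    (hT : Tendsto (fun X : ℕ => T X / (X : ℂ) ^ 2) U (𝓝 L)) {a b : ℝ}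
    (h : ∀ X : ℕ, ‖T X‖ ≤ a * (X : ℝ) ^ 2 + b * X) : ‖L‖ ≤ a := by
  have h1 : Tendsto (fun X : ℕ => a + b / (X : ℝ)) U (𝓝 (a + 0)) :=
    (tendsto_const_nhds.add (tendsto_const_div_atTop_nhds_zero_nat b)).mono_left hU
  rw [add_zero] at h1
  refine le_of_tendsto_of_tendsto hT.norm h1 ?_
  filter_upwards [hU (eventually_gt_atTop 0)] with X hX
  have hX' : (0 : ℝ) < X := by exact_mod_cast hX
  rw [norm_div, norm_pow, Complex.norm_natCast, div_le_iff₀ (by positivity)]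
  refine (h X).trans (le_of_eq ?_)
  field_simp

theorem triSum_small {s : ℤ × ℤ → ℂ} {N n : ℕ} {θ : SL(2, ℤ) → ℂ} (H : Equivar s N n θ)
    (g : SL(2, ℤ)) {c d : ℕ} (hc : 0 < c) (hd : 0 < d) :
    Tendsto (fun X : ℕ => triSum s g c d X / (X : ℂ) ^ 2) atTop (𝓝 0) := by
  rw [tendsto_iff_ultrafilter]
  intro U hU
  have hex : ∀ (g : SL(2, ℤ)) (c d : ℕ), ∃ L : ℂ,
      Tendsto (fun X : ℕ => triSum s g c d X / (X : ℂ) ^ 2) U (𝓝 L) := by
    intro g c d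
    obtain ⟨L, -, hL⟩ := (isCompact_closedBall (0 : ℂ) 4).ultrafilter_le_nhds
      (U.map fun X : ℕ => triSum s g c d X / (X : ℂ) ^ 2) (by
        rw [le_principal_iff, Ultrafilter.coe_map, Filter.mem_map]
        filter_upwards [hU (eventually_gt_atTop 0)] with X hX
        have hX' : (1 : ℝ) ≤ X := by exact_mod_cast hX
        rw [Set.mem_preimage, mem_closedBall_zero_iff, norm_div, norm_pow, Complex.norm_natCast,
          div_le_iff₀ (by positivity)]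
        refine (norm_triSum_le_sq H.bdd g c d X).trans ?_
        nlinarith)
    exact ⟨L, hL⟩
  choose Λ hΛ using hex
  have key : Λ g c d = 0 := by
    refine contract Λ ?_ ?_ ?_ ?_ g hc hd
    · intro g c d hc hd
      refine tendsto_nhds_unique (hΛ g c d) ?_
      refine ((hΛ (g * Lm) (c + d) d).add (hΛ (g * Rm) c (c + d))).congr fun X => ?_
      rw [triSum_split s g hc hd, add_div]
    · intro g c d hc hd
      refine norm_lim_le hU (hΛ g c d) (b := 1 / (c : ℝ)) fun X => ?_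
      refine (norm_sum_le_card H.bdd g _).trans ((card_tri_le hc hd X).trans (le_of_eq ?_))
      have hc' : (0 : ℝ) < c := by exact_mod_cast hc
      have hd' : (0 : ℝ) < d := by exact_mod_cast hd
      field_simp
    · intro g c d c' d' Z Z' hZ h1 h2 h1' h2' h3 h4 h3' h4'
      refine norm_lim_le hU (T := fun X => triSum s g c d X - triSum s g c' d' X)
        (((hΛ g c d).sub (hΛ g c' d')).congr fun X => (sub_div _ _ _).symm)
        (b := 1 / (Z : ℝ) + 1 / (Z' : ℝ)) fun X => ?_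
      refine (norm_tri_sub_le H.bdd g hZ h1 h2 h1' h2' h3 h4 h3' h4' X).trans (le_of_eq ?_)
      ring
    · obtain ⟨κ, hκ, h⟩ := swap H
      refine ⟨κ, hκ, fun ε hε => ?_⟩
      obtain ⟨Zmax, h⟩ := h ε hε
      refine ⟨Zmax, fun g => ?_⟩
      obtain ⟨p, u₀, u₁, Zlo, Zhi, ζ, a1, a2, a3, a4, a5, a6, a7, a8, a9, a10, a11⟩ := h g
      refine ⟨p, u₀, u₁, Zlo, Zhi, ζ, a1, a2, a3, a4, a5, a6, a7, a8, a9, a10, fun c d => ?_⟩
      refine tendsto_nhds_unique (hΛ _ c d) ?_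
      refine ((hΛ (g * (p * Lm * u₀)) c d).const_mul ζ).congr fun X => ?_
      unfold triSum
      rw [← mul_div_assoc, mul_sum]
      simp only [a11]
  exact key ▸ hΛ g c d

private theorem gamma_iff {N : ℕ} {γ : SL(2, ℤ)} : γ ∈ CongruenceSubgroup.Gamma N ↔
    (N : ℤ) ∣ γ 0 0 - 1 ∧ (N : ℤ) ∣ γ 0 1 ∧ (N : ℤ) ∣ γ 1 0 ∧ (N : ℤ) ∣ γ 1 1 - 1 := by
  rw [CongruenceSubgroup.Gamma_mem]
  simp only [← ZMod.intCast_zmod_eq_zero_iff_dvd, Int.cast_sub, Int.cast_one, sub_eq_zero]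

private theorem gamma_mono {q N : ℕ} {γ : SL(2, ℤ)} (h : γ ∈ CongruenceSubgroup.Gamma (q * N)) :
    γ ∈ CongruenceSubgroup.Gamma N ∧ γ ∈ CongruenceSubgroup.Gamma q := by
  rw [gamma_iff] at h
  have h1 : (N : ℤ) ∣ ((q * N : ℕ) : ℤ) := by push_cast; exact dvd_mul_left _ _
  have h2 : (q : ℤ) ∣ ((q * N : ℕ) : ℤ) := by push_cast; exact dvd_mul_right _ _
  exact ⟨gamma_iff.2 ⟨h1.trans h.1, h1.trans h.2.1, h1.trans h.2.2.1, h1.trans h.2.2.2⟩,
    gamma_iff.2 ⟨h2.trans h.1, h2.trans h.2.1, h2.trans h.2.2.1, h2.trans h.2.2.2⟩⟩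

/-- restriction of `s` to a residue class of the linear form -/
private noncomputable def cut (s : ℤ × ℤ → ℂ) (g : SL(2, ℤ)) (c d q k : ℕ) (u : ℤ × ℤ) : ℂ :=
  if ((c : ℤ) * (act g⁻¹ u).1 + d * (act g⁻¹ u).2) % q = k then s u else 0

private theorem cut_equivar {s : ℤ × ℤ → ℂ} {N n : ℕ} {θ : SL(2, ℤ) → ℂ} (H : Equivar s N n θ)
    (g : SL(2, ℤ)) (c d : ℕ) {q : ℕ} (hq : 0 < q) (k : ℕ) :
    Equivar (cut s g c d q k) (q * N) n θ where
  N_pos := Nat.mul_pos hq H.N_pos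
  n_pos := H.n_pos
  bdd v := by
    unfold cut
    split_ifs
    · exact H.bdd v
    · simp
  equiv γ hγ v := by
    obtain ⟨h1, h2⟩ := gamma_mono hγ
    obtain ⟨⟨a, ha⟩, ⟨b, hb⟩, ⟨e, he⟩, ⟨f, hf⟩⟩ := gamma_iff.1 h2
    have h3 : ((c : ℤ) * (act g⁻¹ (act γ v)).1 + d * (act g⁻¹ (act γ v)).2) % q =
        ((c : ℤ) * (act g⁻¹ v).1 + d * (act g⁻¹ v).2) % q := by
      generalize g⁻¹ = w
      rw [Int.emod_eq_emod_iff_emod_sub_eq_zero]
      refine Int.emod_eq_zero_of_dvd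
        ⟨(c * w 0 0 + d * w 1 0) * (a * v.1 + b * v.2) +
          (c * w 0 1 + d * w 1 1) * (e * v.1 + f * v.2), ?_⟩
      simp only [act]
      rw [sub_eq_iff_eq_add.1 ha, hb, he, sub_eq_iff_eq_add.1 hf]
      ring
    unfold cut
    rw [h3, H.equiv γ h1 v, mul_ite, mul_zero]
  mul γ hγ δ hδ := H.mul γ (gamma_mono hγ).1 δ (gamma_mono hδ).1
  pow γ hγ := H.pow γ (gamma_mono hγ).1
  noncong q' hq' := by
    rw [← mul_assoc]
    exact H.noncong (q' * q) (Nat.mul_pos hq' hq)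

private theorem segSum_cut (s : ℤ × ℤ → ℂ) (g : SL(2, ℤ)) {c d : ℕ} (hc : 0 < c) (hd : 0 < d)
    (q k m : ℕ) :
    segSum (cut s g c d q k) g c d m = if m % q = k then segSum s g c d m else 0 := by
  unfold segSum
  have h : ∀ v ∈ seg c d m, cut s g c d q k (act g ((v.1 : ℤ), (v.2 : ℤ))) =
      if m % q = k then s (act g ((v.1 : ℤ), (v.2 : ℤ))) else 0 := by
    intro v hv
    rw [mem_seg hc hd] at hv
    unfold cut
    rw [← act_mul, inv_mul_cancel, act_one]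
    have h1 : (c : ℤ) * (v.1 : ℤ) + d * (v.2 : ℤ) = (m : ℤ) := by exact_mod_cast hv.2
    simp only [h1]
    congr 1
    rw [← Int.natCast_mod, Nat.cast_inj]
  rw [sum_congr rfl h]
  split_ifs
  · rfl
  · simp

private theorem unif_small {T : ℕ → ℂ} (hT : Tendsto (fun X : ℕ => T X / (X : ℂ) ^ 2) atTop (𝓝 0))
    (hb : ∀ y : ℕ, ‖T y‖ ≤ ((y : ℝ) + 1) ^ 2) {ε : ℝ} (hε : 0 < ε) :
    ∀ᶠ X : ℕ in atTop, ∀ y ≤ X, ‖T y‖ ≤ ε * (X : ℝ) ^ 2 := by
  have h1 := (hT.norm.eventually (gt_mem_nhds (show ‖(0 : ℂ)‖ < ε by simpa using hε))).and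
    (eventually_gt_atTop 0)
  obtain ⟨x0, hx0⟩ := eventually_atTop.1 h1
  have h2 : Tendsto (fun X : ℕ => ε * (X : ℝ) ^ 2) atTop atTop :=
    ((tendsto_pow_atTop two_ne_zero).comp tendsto_natCast_atTop_atTop).const_mul_atTop hε
  filter_upwards [h2.eventually_ge_atTop (((x0 : ℝ) + 1) ^ 2)] with X hX y hy
  rcases le_or_gt x0 y with h | h
  · obtain ⟨h3, h4⟩ := hx0 y h
    have hy' : (0 : ℝ) < y := by exact_mod_cast h4
    have hyX : (y : ℝ) ≤ X := by exact_mod_cast hy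
    rw [norm_div, norm_pow, Complex.norm_natCast, div_lt_iff₀ (by positivity)] at h3
    refine h3.le.trans ?_
    gcongr
  · refine (hb y).trans (le_trans ?_ hX)
    have hy' : (y : ℝ) ≤ x0 := by exact_mod_cast h.le
    gcongr

theorem ap_small {s : ℤ × ℤ → ℂ} {N n : ℕ} {θ : SL(2, ℤ) → ℂ} (H : Equivar s N n θ)
    (g : SL(2, ℤ)) {c d q : ℕ} (hc : 0 < c) (hd : 0 < d) (hq : 0 < q) {ε : ℝ} (hε : 0 < ε) :
    ∀ᶠ X : ℕ in atTop, ∀ k x : ℕ, x ≤ X + 1 →
      ‖∑ m ∈ (range x).filter (fun m => m % q = k), segSum s g c d m‖ ≤ ε * (X : ℝ) ^ 2 := by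
  have h1 : ∀ᶠ X : ℕ in atTop, ∀ k ∈ range q, ∀ y ≤ X,
      ‖triSum (cut s g c d q k) g c d y‖ ≤ ε * (X : ℝ) ^ 2 :=
    (eventually_all_finset _).2 fun k _ =>
      unif_small (triSum_small (cut_equivar H g c d hq k) g hc hd)
        (norm_triSum_le_sq (cut_equivar H g c d hq k).bdd g c d) hε
  filter_upwards [h1] with X hX k x hx
  have h0 : 0 ≤ ε * (X : ℝ) ^ 2 := by positivity
  rcases lt_or_ge k q with hk | hk
  · rcases x with _ | y
    · simpa using h0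
    · have h2 := hX k (mem_range.2 hk) y (by omega)
      rw [triSum_eq _ g hc hd] at h2
      simp only [segSum_cut s g hc hd] at h2
      rwa [sum_filter]
  · rw [filter_false_of_mem, sum_empty, norm_zero]
    · exact h0
    · intro m _
      have := Nat.mod_lt m hq
      omega

end Pool.Agent.P.MP_99daa8_nt
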