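import Pool.Agent.P.MP_99daa8_nt.Basic

namespace Pool.Agent.P.MP_99daa8_nt

open scoped MatrixGroups Real
open Finset

section Aux

open UpperHalfPlane hiding I
open Filter Topology Complex
open scoped ModularForm

/-- A holomorphic function on the upper half plane has a primitive (Cayley transform). -/
theorem pc_exact (F : ℂ → ℂ) (hF : DifferentiableOn ℂ F {z | 0 < z.im}) :
    ∃ G : ℂ → ℂ, ∀ z : ℂ, 0 < z.im → HasDerivAt G (F z) z := by
  have hop : IsOpen {z : ℂ | 0 < z.im} := isOpen_lt continuous_const Complex.continuous_im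
  have hne : ∀ w ∈ Metric.ball (0 : ℂ) 1, (1 : ℂ) - w ≠ 0 := by
    intro w hw h
    rw [sub_eq_zero] at h
    rw [← h] at hw
    simp at hw
  have him : ∀ w ∈ Metric.ball (0 : ℂ) 1, 0 < (I * (1 + w) / (1 - w)).im := by
    intro w hw
    have h1 := hne w hw
    rw [mem_ball_zero_iff] at hw
    have h2 : Complex.normSq w < 1 := by
      rw [Complex.normSq_eq_norm_sq]
      nlinarith [norm_nonneg w]
    have h3 : 0 < Complex.normSq (1 - w) := Complex.normSq_pos.2 h1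
    rw [Complex.normSq_apply] at h2
    rw [Complex.div_im, ← sub_div]
    apply div_pos _ h3
    simp
    nlinarith
  have hd : DifferentiableOn ℂ (fun w => F (I * (1 + w) / (1 - w)) * (2 * I / (1 - w) ^ 2))
      (Metric.ball (0 : ℂ) 1) := by
    intro w hw
    have h1 := hne w hw
    apply DifferentiableAt.differentiableWithinAt
    apply DifferentiableAt.mul
    · have hz : DifferentiableAt ℂ (fun w : ℂ => I * (1 + w) / (1 - w)) w := by
        apply DifferentiableAt.div (by fun_prop) (by fun_prop) h1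
      exact DifferentiableAt.comp w
        ((hF _ (him w hw)).differentiableAt (hop.mem_nhds (him w hw))) hz
    · exact DifferentiableAt.div (c := fun _ : ℂ => 2 * I) (d := fun w : ℂ => (1 - w) ^ 2)
        (by fun_prop) (by fun_prop) (pow_ne_zero 2 h1)
  obtain ⟨Ψ, hΨ⟩ := hd.isExactOn_ball
  refine ⟨fun z => Ψ ((z - I) / (z + I)), fun z hz => ?_⟩
  have hzi : z + I ≠ 0 := by
    intro h
    have := congrArg Complex.im h
    simp at this
    linarith
  have hw : (z - I) / (z + I) ∈ Metric.ball (0 : ℂ) 1 := by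
    rw [mem_ball_zero_iff, norm_div, div_lt_one (norm_pos_iff.2 hzi)]
    apply lt_of_pow_lt_pow_left₀ 2 (norm_nonneg _)
    rw [← Complex.normSq_eq_norm_sq, ← Complex.normSq_eq_norm_sq, Complex.normSq_apply,
      Complex.normSq_apply]
    simp
    nlinarith
  have hc : HasDerivAt (fun z : ℂ => (z - I) / (z + I))
      ((1 * (z + I) - (z - I) * 1) / (z + I) ^ 2) z :=
    ((hasDerivAt_id z).sub_const I).div ((hasDerivAt_id z).add_const I) hzi
  have h1 : (1 : ℂ) - (z - I) / (z + I) = 2 * I / (z + I) := by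
    field_simp
    ring
  have h2 : (1 : ℂ) + (z - I) / (z + I) = 2 * z / (z + I) := by
    field_simp
    ring
  have h3 : I * (1 + (z - I) / (z + I)) / (1 - (z - I) / (z + I)) = z := by
    rw [h1, h2]
    field_simp
  have := (hΨ _ hw).comp z hc
  refine HasDerivAt.congr_deriv this ?_
  beta_reduce
  rw [h3, h1]
  have hI : (I : ℂ) ≠ 0 := Complex.I_ne_zero
  field_simp
  ring

theorem pc_horiz (H : ℂ → ℂ) (h : ℍ → ℂ) (hd : ∀ τ : ℍ, HasDerivAt H (h τ) τ)
    (h0 : IsZeroAtImInfty h) (x y : ℝ) (L : ℂ)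
    (hx : Tendsto (fun s : ℝ => H (x + s * I)) atTop (𝓝 L)) :
    Tendsto (fun s : ℝ => H (y + s * I)) atTop (𝓝 L) := by
  have key : Tendsto (fun s : ℝ => H (y + s * I) - H (x + s * I)) atTop (𝓝 0) := by
    rw [Metric.tendsto_nhds]
    intro ε hε
    have hpos : 0 < |y - x| + 1 := by positivity
    obtain ⟨A, hA⟩ := isZeroAtImInfty_iff.1 h0 (ε / (|y - x| + 1)) (div_pos hε hpos)
    filter_upwards [eventually_ge_atTop (max A 1)] with s hs
    have hconv : Convex ℝ {z : ℂ | max A 1 ≤ z.im} := convex_halfSpace_im_ge _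
    have hp : ∀ z ∈ {z : ℂ | max A 1 ≤ z.im}, 0 < z.im := fun z hz =>
      lt_of_lt_of_le one_pos (le_trans (le_max_right A 1) hz)
    have := hconv.norm_image_sub_le_of_norm_hasDerivWithin_le (f := H)
      (f' := fun z => h (ofComplex z)) (C := ε / (|y - x| + 1))
      (x := x + s * I) (y := y + s * I)
      (fun z hz => by
        have := hd ⟨z, hp z hz⟩
        rw [ofComplex_apply_of_im_pos (hp z hz)]
        exact this.hasDerivWithinAt)
      (fun z hz => by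
        rw [ofComplex_apply_of_im_pos (hp z hz)]
        exact hA _ (le_trans (le_max_left A 1) hz))
      (by simpa using hs) (by simpa using hs)
    rw [dist_zero_right]
    refine lt_of_le_of_lt this ?_
    have e : (y : ℂ) + s * I - (x + s * I) = ((y - x : ℝ) : ℂ) := by
      push_cast
      ring
    rw [e, Complex.norm_real, Real.norm_eq_abs, div_mul_eq_mul_div, div_lt_iff₀ hpos]
    nlinarith
  have := key.add hx
  simpa using this

theorem pc_vert (f : ℍ → ℂ) (G : ℂ → ℂ)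
    (hG : ∀ z : ℂ, 0 < z.im → HasDerivAt G (f (ofComplex z)) z) (r : ℝ)
    (hint : MeasureTheory.IntegrableOn
      (fun t : ℝ => f (ofComplex ((r : ℂ) + t * I))) (Set.Ioi 0)) :
    ∃ A : ℂ, Tendsto (fun t : ℝ => G (r + t * I)) atTop (𝓝 A) ∧
      Tendsto (fun t : ℝ => G (r + t * I)) (𝓝[>] 0)
        (𝓝 (A - ∫ t in Set.Ioi (0 : ℝ), f (ofComplex ((r : ℂ) + t * I)) * I)) := by
  have hder : ∀ t ∈ Set.Ioi (0 : ℝ), HasDerivAt (fun t : ℝ => G (r + t * I))
      (f (ofComplex ((r : ℂ) + t * I)) * I) t := by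
    intro t ht
    have h1 : HasDerivAt (fun w : ℂ => (r : ℂ) + w * I) (1 * I) (t : ℂ) :=
      ((hasDerivAt_id (t : ℂ)).mul_const I).const_add _
    have h2 := (hG ((r : ℂ) + t * I) (by simpa using ht)).comp (t : ℂ) h1
    have h3 := h2.comp_ofReal
    simpa using h3
  have hint' : MeasureTheory.IntegrableOn
      (fun t : ℝ => f (ofComplex ((r : ℂ) + t * I)) * I) (Set.Ioi 0) := hint.mul_const I
  have hA := MeasureTheory.tendsto_limUnder_of_hasDerivAt_of_integrableOn_Ioi hder hint'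
  refine ⟨_, hA, ?_⟩
  have hc := hint'.continuousWithinAt_Ici_primitive_Ioi.mono_left
    (nhdsWithin_mono 0 Set.Ioi_subset_Ici_self)
  refine (tendsto_const_nhds.sub hc).congr' ?_
  filter_upwards [self_mem_nhdsWithin] with b hb
  have := MeasureTheory.integral_Ioi_of_hasDerivAt_of_tendsto (a := b)
    (hder b hb).continuousAt.continuousWithinAt
    (fun x hx => hder x (Set.Ioi_subset_Ioi (le_of_lt hb) hx)) (hint'.mono_set (Set.Ioi_subset_Ioi (le_of_lt hb))) hA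
  rw [this]
  ring

theorem pc_mob_deriv (f : ℍ → ℂ) (G : ℂ → ℂ)
    (hG : ∀ z : ℂ, 0 < z.im → HasDerivAt G (f (ofComplex z)) z) (g : SL(2, ℤ)) (τ : ℍ) :
    HasDerivAt (fun z : ℂ => G ((g • ofComplex z : ℍ) : ℂ)) ((f ∣[(2 : ℤ)] g) τ) τ := by
  have hdet : (g : GL (Fin 2) ℝ).val.det = 1 :=
    (Matrix.SpecialLinearGroup.map (Int.castRingHom ℝ) g).det_coe
  have h1 := (hasStrictDerivAt_smul (g := (g : GL (Fin 2) ℝ)) (by rw [hdet]; exact one_pos)
    τ).hasDerivAt
  have h2 : HasDerivAt G (f (g • τ)) (((g : GL (Fin 2) ℝ) • ofComplex (τ : ℂ) : ℍ) : ℂ) := by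
    have := hG ((g • τ : ℍ) : ℂ) (g • τ).im_pos
    rw [ofComplex_apply] at this ⊢
    exact this
  have h3 := h2.comp (τ : ℂ) h1
  refine HasDerivAt.congr_deriv h3 ?_
  rw [ModularForm.SL_slash_apply, hdet, zpow_neg, Complex.ofReal_one, one_div]
  rfl

theorem pc_coe_smul (g : SL(2, ℤ)) (z : ℂ) (hz : 0 < z.im) :
    ((g • ofComplex z : ℍ) : ℂ) =
      ((g 0 0 : ℂ) * z + (g 0 1 : ℂ)) / ((g 1 0 : ℂ) * z + (g 1 1 : ℂ)) := by
  rw [coe_specialLinearGroup_apply, ofComplex_apply_of_im_pos hz]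
  simp

theorem pc_limit (f : ℍ → ℂ) (G : ℂ → ℂ)
    (hG : ∀ z : ℂ, 0 < z.im → HasDerivAt G (f (ofComplex z)) z)
    (hz : ∀ g : SL(2, ℤ), IsZeroAtImInfty (f ∣[(2 : ℤ)] g))
    (hint : ∀ r : ℚ, MeasureTheory.IntegrableOn
      (fun t : ℝ => f (ofComplex ((r : ℂ) + t * I))) (Set.Ioi 0)) :
    ∃ A : ℂ, ∀ g : SL(2, ℤ),
      Tendsto (fun s : ℝ => G ((g • ofComplex (((0 : ℝ) : ℂ) + s * I) : ℍ) : ℂ)) atTop
        (𝓝 (A + per2 f (g 0 0, g 1 0) / (2 * π * I))) := by
  have hint2 : ∀ r : ℚ, MeasureTheory.IntegrableOn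
      (fun t : ℝ => f (ofComplex ((((r : ℚ) : ℝ) : ℂ) + t * I))) (Set.Ioi 0) := by
    intro r
    simpa using hint r
  obtain ⟨A, hA, -⟩ := pc_vert f G hG ((0 : ℚ) : ℝ) (hint2 0)
  have hf0 : IsZeroAtImInfty f := by simpa using hz 1
  have hGd : ∀ τ : ℍ, HasDerivAt G (f τ) τ := by
    intro τ
    have := hG τ τ.im_pos
    rwa [ofComplex_apply] at this
  have hAll : ∀ y : ℝ, Tendsto (fun s : ℝ => G (y + s * I)) atTop (𝓝 A) := fun y =>
    pc_horiz G f hGd hf0 _ y A hA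
  refine ⟨A, fun g => ?_⟩
  have hdet := det_eq g
  by_cases hc : g 1 0 = 0
  · have e : per2 f (g 0 0, g 1 0) = 0 := by simp [per2, hc]
    rw [e, zero_div, add_zero]
    rw [hc, mul_zero, sub_zero] at hdet
    refine (hAll ((g 0 0 * g 0 1 : ℤ) : ℝ)).congr' ?_
    filter_upwards [eventually_gt_atTop 0] with s hs
    rw [pc_coe_smul g _ (by simpa using hs), hc]
    congr 1
    rcases Int.eq_one_or_neg_one_of_mul_eq_one' hdet with ⟨h1, h2⟩ | ⟨h1, h2⟩
    · rw [h1, h2]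
      push_cast
      ring
    · rw [h1, h2]
      push_cast
      field_simp
      ring
  · refine pc_horiz (fun z : ℂ => G ((g • ofComplex z : ℍ) : ℂ)) _ (pc_mob_deriv f G hG g) (hz g)
      (-(g 1 1 : ℝ) / (g 1 0 : ℝ)) 0 _ ?_
    obtain ⟨A', hA', hB⟩ := pc_vert f G hG ((((g 0 0 : ℤ) : ℚ) / ((g 1 0 : ℤ) : ℚ) : ℚ) : ℝ)
      (hint2 _)
    have hAA : A' = A := tendsto_nhds_unique hA' (hAll _)
    have hcR : ((g 1 0 : ℤ) : ℝ) ≠ 0 := by exact_mod_cast hc
    have hcC : ((g 1 0 : ℤ) : ℂ) ≠ 0 := by exact_mod_cast hc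
    have hpi : (2 * π * I : ℂ) ≠ 0 := Complex.two_pi_I_ne_zero
    have e : A + per2 f (g 0 0, g 1 0) / (2 * π * I) = A' - ∫ t in Set.Ioi (0 : ℝ),
        f (ofComplex ((((((g 0 0 : ℤ) : ℚ) / ((g 1 0 : ℤ) : ℚ) : ℚ) : ℝ) : ℂ) + t * I)) * I := by
      rw [hAA]
      simp only [per2, hc, if_false, period]
      rw [mul_div_cancel_left₀ _ hpi, Complex.ofReal_ratCast, sub_eq_add_neg]
    rw [e]
    have ht : Tendsto (fun s : ℝ => (((g 1 0 : ℤ) : ℝ) ^ 2 * s)⁻¹) atTop (𝓝[>] 0) :=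
      tendsto_inv_atTop_nhdsGT_zero.comp
        (Tendsto.const_mul_atTop (by positivity) tendsto_id)
    refine (hB.comp ht).congr' ?_
    filter_upwards [eventually_gt_atTop 0] with s hs
    simp only [Function.comp]
    rw [pc_coe_smul g _ (by simpa using hs)]
    congr 1
    have hsC : (s : ℂ) ≠ 0 := by exact_mod_cast hs.ne'
    have hdetC : ((g 0 0 : ℤ) : ℂ) * ((g 1 1 : ℤ) : ℂ) - ((g 0 1 : ℤ) : ℂ) * ((g 1 0 : ℤ) : ℂ) = 1 := by
      exact_mod_cast hdet
    have hden : ((g 1 0 : ℤ) : ℂ) * ((((-(g 1 1 : ℝ) / (g 1 0 : ℝ) : ℝ)) : ℂ) + s * I)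
        + ((g 1 1 : ℤ) : ℂ) = ((g 1 0 : ℤ) : ℂ) * s * I := by
      push_cast
      field_simp
      ring
    rw [hden, eq_div_iff (mul_ne_zero (mul_ne_zero hcC hsC) Complex.I_ne_zero)]
    push_cast
    field_simp
    linear_combination (1 : ℂ) * hdetC + Complex.I_sq

theorem pc_col {N : ℕ} [NeZero N] (f : CuspForm (CongruenceSubgroup.Gamma0 N) 2)
    (hint : ∀ r : ℚ, MeasureTheory.IntegrableOn
      (fun t : ℝ => f (UpperHalfPlane.ofComplex ((r : ℂ) + t * Complex.I))) (Set.Ioi 0))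
    {γ : SL(2, ℤ)} (hγ : γ ∈ CongruenceSubgroup.Gamma0 N) (g : SL(2, ℤ)) :
    per2 f ((γ * g) 0 0, (γ * g) 1 0) = per2 f (γ 0 0, γ 1 0) + per2 f (g 0 0, g 1 0) := by
  have hol : DifferentiableOn ℂ (f ∘ ofComplex) {z | 0 < z.im} :=
    UpperHalfPlane.mdifferentiable_iff.1 (ModularFormClass.holo f)
  obtain ⟨G, hG⟩ := pc_exact _ hol
  have hG' : ∀ z : ℂ, 0 < z.im → HasDerivAt G (f (ofComplex z)) z := hG
  obtain ⟨A, hA⟩ := pc_limit f G hG' (fun g => CuspFormClass.zero_at_infty_slash f g) hint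
  have hinv : (f : ℍ → ℂ) ∣[(2 : ℤ)] γ = f := by
    rw [ModularForm.SL_slash]
    exact SlashInvariantForm.slash_action_eqn f _ ⟨γ, hγ, rfl⟩
  have hop : IsOpen {z : ℂ | 0 < z.im} := isOpen_lt continuous_const Complex.continuous_im
  have hder : ∀ z : ℂ, 0 < z.im →
      HasDerivAt (fun z : ℂ => G ((γ • ofComplex z : ℍ) : ℂ) - G z) 0 z := by
    intro z hz
    have h1 := pc_mob_deriv f G hG' γ ⟨z, hz⟩
    rw [hinv] at h1
    have h2 := hG' z hz
    rw [ofComplex_apply_of_im_pos hz] at h2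
    have := h1.sub h2
    rw [sub_self] at this
    exact this
  obtain ⟨κ, hκ⟩ := hop.exists_is_const_of_deriv_eq_zero
    (f := fun z : ℂ => G ((γ • ofComplex z : ℍ) : ℂ) - G z)
    (convex_halfSpace_im_gt 0).isPreconnected
    (fun z hz => (hder z hz).differentiableAt.differentiableWithinAt)
    (fun z hz => (hder z hz).deriv)
  have hshift : ∀ g : SL(2, ℤ),
      A + per2 f ((γ * g) 0 0, (γ * g) 1 0) / (2 * π * I) =
        A + per2 f (g 0 0, g 1 0) / (2 * π * I) + κ := by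
    intro g
    refine tendsto_nhds_unique (hA (γ * g)) (((hA g).add_const κ).congr fun s => ?_)
    have := hκ _ (g • ofComplex (((0 : ℝ) : ℂ) + s * I) : ℍ).im_pos
    simp only [ofComplex_apply] at this
    rw [mul_smul, ← this]
    ring
  have h1 := hshift 1
  have h2 := hshift g
  rw [mul_one] at h1
  have h0 : per2 f ((1 : SL(2, ℤ)) 0 0, (1 : SL(2, ℤ)) 1 0) = 0 := by simp [per2]
  rw [h0] at h1
  have hpi : (2 * π * I : ℂ) ≠ 0 := Complex.two_pi_I_ne_zero
  have h3 : per2 f ((γ * g) 0 0, (γ * g) 1 0) / (2 * π * I) =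
      (per2 f (γ 0 0, γ 1 0) + per2 f (g 0 0, g 1 0)) / (2 * π * I) := by
    rw [add_div]
    linear_combination h2 - h1
  exact (div_left_inj' hpi).1 h3

theorem pc_homog (f : ℍ → ℂ) (m a c : ℤ) (hm : m ≠ 0) :
    per2 f (a * m, c * m) = per2 f (a, c) := by
  unfold per2
  by_cases hc : c = 0
  · simp [hc]
  · have : c * m ≠ 0 := mul_ne_zero hc hm
    simp only [hc, this, if_false]
    congr 1
    have hm' : (m : ℚ) ≠ 0 := by exact_mod_cast hm
    push_cast
    rw [mul_div_mul_right _ _ hm']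

end Aux

theorem per2_cocycle {N : ℕ} [NeZero N] (f : CuspForm (CongruenceSubgroup.Gamma0 N) 2)
    (hint : ∀ r : ℚ, MeasureTheory.IntegrableOn
      (fun t : ℝ => f (UpperHalfPlane.ofComplex ((r : ℂ) + t * Complex.I))) (Set.Ioi 0))
    {γ : SL(2, ℤ)} (hγ : γ ∈ CongruenceSubgroup.Gamma0 N) {v : ℤ × ℤ} (hv : v ≠ 0) :
    per2 f (act γ v) = per2 f (act γ (1, 0)) + per2 f v := by
  obtain ⟨x, y⟩ := v
  have hg : 0 < Int.gcd x y := by
    rw [Int.gcd_pos_iff]
    by_contra h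
    push Not at h
    exact hv (by rw [h.1, h.2]; rfl)
  obtain ⟨a, c, hac, hx, hy⟩ := Int.exists_gcd_one hg
  have hm : ((Int.gcd x y : ℕ) : ℤ) ≠ 0 := by exact_mod_cast hg.ne'
  generalize ((Int.gcd x y : ℕ) : ℤ) = m at hx hy hm
  obtain ⟨g, h1, h2⟩ := (Int.isCoprime_iff_gcd_eq_one.2 hac).exists_SL2_col 0
  have key := pc_col f hint hγ g
  have e1 : act γ (x, y) = ((γ * g) 0 0 * m, (γ * g) 1 0 * m) := by
    rw [mul_entry, mul_entry, h1, h2, hx, hy]
    simp only [act]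
    ext <;> simp only <;> ring
  have e2 : act γ (1, 0) = (γ 0 0, γ 1 0) := by simp [act]
  rw [e1, e2, pc_homog _ _ _ _ hm, key, h1, h2, hx, hy, pc_homog _ _ _ _ hm]

end Pool.Agent.P.MP_99daa8_nt
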