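import Pool.Agent.P.MP_99daa8_nt.Basic

namespace Pool.Agent.P.MP_99daa8_nt

open scoped MatrixGroups Real
open Finset

section aux

open UpperHalfPlane Filter Asymptotics MeasureTheory ModularForm

theorem pi_bound_of_isBigO {F : UpperHalfPlane → ℂ} {c : ℝ}
    (h : F =O[atImInfty] fun τ => Real.exp (-c * τ.im)) :
    ∃ C A : ℝ, 0 ≤ C ∧ 0 < A ∧ ∀ τ : UpperHalfPlane, A ≤ τ.im →
      ‖F τ‖ ≤ C * Real.exp (-c * τ.im) := by
  obtain ⟨C, hC, hb⟩ := h.exists_nonneg
  have hb' := hb.bound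
  rw [Filter.Eventually, atImInfty_mem] at hb'
  obtain ⟨A, hA⟩ := hb'
  refine ⟨C, max A 1, hC, by positivity, fun τ hτ => ?_⟩
  have := hA τ ((le_max_left _ _).trans hτ)
  simpa [Real.norm_eq_abs, abs_of_pos (Real.exp_pos _)] using this

theorem pi_im_pos (r : ℚ) {t : ℝ} (ht : 0 < t) : 0 < ((r : ℂ) + t * Complex.I).im := by
  simpa using ht

theorem pi_ofComplex_im (r : ℚ) {t : ℝ} (ht : 0 < t) :
    (ofComplex ((r : ℂ) + t * Complex.I)).im = t := by
  rw [ofComplex_apply_of_im_pos (pi_im_pos r ht), ← coe_im]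
  simp

theorem pi_continuousOn {f : UpperHalfPlane → ℂ} (hf : Continuous f) (r : ℚ) :
    ContinuousOn (fun t : ℝ => f (ofComplex ((r : ℂ) + t * Complex.I))) (Set.Ioi 0) := by
  intro t ht
  have h1 : ContinuousAt ofComplex ((r : ℂ) + t * Complex.I) :=
    (contMDiffAt_ofComplex (n := 0) (pi_im_pos r ht)).continuousAt
  have h2 : ContinuousAt (fun t : ℝ => (r : ℂ) + t * Complex.I) t := by fun_prop
  exact (hf.continuousAt.comp (ContinuousAt.comp (f := fun t : ℝ => (r : ℂ) + t * Complex.I)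
    h1 h2)).continuousWithinAt

open ConjAct Pointwise in
theorem pi_slash_decay {N : ℕ} [NeZero N] (f : CuspForm (CongruenceSubgroup.Gamma0 N) 2)
    (g : SL(2, ℤ)) :
    ∃ c > 0, (⇑f ∣[(2 : ℤ)] g) =O[atImInfty] fun τ => Real.exp (-c * τ.im) := by
  have : ((toConjAct (g : GL (Fin 2) ℝ)⁻¹) •
      ((CongruenceSubgroup.Gamma0 N : Subgroup SL(2, ℤ)) : Subgroup (GL (Fin 2) ℝ))).IsArithmetic := by
    simpa [(show Rat.castHom ℝ = algebraMap ℚ ℝ by rfl), map_inv,
      Matrix.SpecialLinearGroup.map_mapGL]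
      using! Subgroup.IsArithmetic.conj
        ((CongruenceSubgroup.Gamma0 N : Subgroup SL(2, ℤ)) : Subgroup (GL (Fin 2) ℝ))
        (Matrix.SpecialLinearGroup.mapGL ℚ g)⁻¹
  exact CuspFormClass.exp_decay_atImInfty' (CuspForm.translate f g)

theorem pi_near_zero {N : ℕ} [NeZero N] (f : CuspForm (CongruenceSubgroup.Gamma0 N) 2)
    (r : ℚ) : ∃ δ K : ℝ, 0 < δ ∧ ∀ t : ℝ, 0 < t → t ≤ δ →
      ‖f (ofComplex ((r : ℂ) + t * Complex.I))‖ ≤ K := by
  have hcop : IsCoprime r.num (r.den : ℤ) := by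
    rw [Int.isCoprime_iff_gcd_eq_one]
    exact r.reduced
  obtain ⟨g, hg0, hg1⟩ := hcop.exists_SL2_col 0
  obtain ⟨k, hk, hO⟩ := pi_slash_decay f g
  obtain ⟨C, A, hC, hA, hb⟩ := pi_bound_of_isBigO hO
  have hc : (0 : ℝ) < r.den := by exact_mod_cast r.den_pos
  set c : ℝ := (r.den : ℝ) with hcdef
  refine ⟨1 / (c ^ 2 * A), C * (c ^ 2 * (2 / k ^ 2)), by positivity, fun t ht htδ => ?_⟩
  set y : ℝ := 1 / (c ^ 2 * t) with hy
  have hypos : 0 < y := by positivity
  have hyA : A ≤ y := by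
    rw [hy, le_div_iff₀ (by positivity)]
    rw [le_div_iff₀ (by positivity)] at htδ
    nlinarith
  let z : UpperHalfPlane := ⟨((-(g 1 1 : ℝ) / c : ℝ) : ℂ) + (y : ℂ) * Complex.I, by simpa using hypos⟩
  have hzc : (z : ℂ) = ((-(g 1 1 : ℝ) / c : ℝ) : ℂ) + (y : ℂ) * Complex.I := rfl
  have hzim : z.im = y := by
    rw [← coe_im, hzc]
    simp
  have hcC : (c : ℂ) ≠ 0 := by exact_mod_cast hc.ne'
  have htC : (t : ℂ) ≠ 0 := by exact_mod_cast ht.ne'
  have hg1' : ((g 1 0 : ℤ) : ℂ) = (c : ℂ) := by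
    rw [hg1, hcdef]
    push_cast
    rfl
  have hden : ((g 1 0 : ℤ) : ℂ) * z + ((g 1 1 : ℤ) : ℂ) = Complex.I / (c * t) := by
    rw [hg1', hzc, hy]
    push_cast
    field_simp
    ring
  have hdet : ((g 0 0 : ℤ) : ℂ) * (g 1 1 : ℤ) - (g 0 1 : ℤ) * (c : ℂ) = 1 := by
    rw [← hg1']
    exact_mod_cast det_eq g
  have hr : (r : ℂ) = ((g 0 0 : ℤ) : ℂ) / c := by
    rw [hg0, hcdef]
    push_cast
    exact_mod_cast (Rat.num_div_den r).symm
  have hgz : g • z = ofComplex ((r : ℂ) + t * Complex.I) := by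
    rw [ofComplex_apply_of_im_pos (pi_im_pos r ht)]
    ext
    rw [coe_specialLinearGroup_apply]
    simp only [eq_intCast, Complex.ofReal_intCast]
    rw [hden, hzc, hy, hr]
    have hb' : ((g 0 1 : ℤ) : ℂ) = (((g 0 0 : ℤ) : ℂ) * (g 1 1 : ℤ) - 1) / c := by
      field_simp
      linear_combination -hdet
    rw [hb']
    push_cast
    field_simp
    ring_nf
    rw [Complex.I_sq]
    ring
  have h1 := hb z (hzim ▸ hyA)
  rw [SL_slash_apply, hgz, ModularGroup.denom_apply, hzim] at h1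
  have hden' : (((g 1 0 : ℤ) : ℂ) * z + ((g 1 1 : ℤ) : ℂ)) ^ (-(2 : ℤ)) = -((c * t) ^ 2 : ℝ) := by
    rw [hden, zpow_neg, zpow_ofNat, div_pow, Complex.I_sq]
    push_cast
    field_simp
  rw [hden', norm_mul, norm_neg, Complex.norm_real, Real.norm_eq_abs,
    abs_of_pos (by positivity)] at h1
  have h2 : (k * y) ^ 2 / 2 ≤ Real.exp (k * y) := by
    have := Real.pow_div_factorial_le_exp (k * y) (by positivity) 2
    simpa [Nat.factorial] using this
  have h3 : Real.exp (-k * y) ≤ 2 / (k * y) ^ 2 := by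
    rw [neg_mul, Real.exp_neg, inv_le_comm₀ (Real.exp_pos _) (by positivity), inv_div]
    exact h2
  have h4 : ‖f (ofComplex ((r : ℂ) + t * Complex.I))‖ * (c * t) ^ 2 ≤ C * (2 / (k * y) ^ 2) :=
    h1.trans (mul_le_mul_of_nonneg_left h3 hC)
  have h5 : C * (2 / (k * y) ^ 2) = C * (c ^ 2 * (2 / k ^ 2)) * (c * t) ^ 2 := by
    rw [hy]
    field_simp
  rw [h5] at h4
  exact le_of_mul_le_mul_right h4 (by positivity)

end aux

theorem period_integrable {N : ℕ} [NeZero N] (f : CuspForm (CongruenceSubgroup.Gamma0 N) 2)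
    (r : ℚ) :
    MeasureTheory.IntegrableOn
      (fun t : ℝ => f (UpperHalfPlane.ofComplex ((r : ℂ) + t * Complex.I))) (Set.Ioi 0) := by
  obtain ⟨δ, K, hδ, hK⟩ := pi_near_zero f r
  have hcont := pi_continuousOn (f := f) (ModularFormClass.continuous f) r
  have hsplit : Set.Ioi (0 : ℝ) = Set.Ioc 0 δ ∪ Set.Ici δ := by
    ext t
    simp only [Set.mem_Ioi, Set.mem_union, Set.mem_Ioc, Set.mem_Ici]
    constructor
    · intro h
      rcases le_total t δ with h' | h'
      · exact Or.inl ⟨h, h'⟩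
      · exact Or.inr h'
    · rintro (h | h)
      · exact h.1
      · exact hδ.trans_le h
  rw [hsplit]
  refine MeasureTheory.IntegrableOn.union ?_ ?_
  · refine MeasureTheory.Integrable.mono' (g := fun _ => K) (by simp) ?_ ?_
    · exact (hcont.mono Set.Ioc_subset_Ioi_self).aestronglyMeasurable measurableSet_Ioc
    · exact (MeasureTheory.ae_restrict_iff' measurableSet_Ioc).mpr
        (Filter.Eventually.of_forall fun t ht => hK t ht.1 ht.2)
  · obtain ⟨k, hk, hO⟩ := CuspFormClass.exp_decay_atImInfty' f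
    obtain ⟨C, A, hC, hA, hb⟩ := pi_bound_of_isBigO hO
    have hsub : Set.Ici δ ⊆ Set.Ioi (0 : ℝ) := fun t ht => hδ.trans_le ht
    refine ((hcont.mono hsub).locallyIntegrableOn measurableSet_Ici).integrableOn_of_isBigO_atTop
      (g := fun t : ℝ => Real.exp (-k * t)) ?_ ?_
    · refine Asymptotics.IsBigO.of_bound C ?_
      filter_upwards [Filter.eventually_ge_atTop A] with t ht
      have ht0 : 0 < t := hA.trans_le ht
      have := hb (UpperHalfPlane.ofComplex ((r : ℂ) + t * Complex.I))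
        (by rw [pi_ofComplex_im r ht0]; exact ht)
      rw [pi_ofComplex_im r ht0] at this
      simpa [Real.norm_eq_abs, abs_of_pos (Real.exp_pos _)] using this
    · exact ⟨Set.Ioi 0, Filter.Ioi_mem_atTop 0, exp_neg_integrableOn_Ioi 0 hk⟩

theorem pi_period_eq (f : UpperHalfPlane → ℂ) (r : ℚ) :
    period f r = 2 * π * ∫ t in Set.Ioi (0 : ℝ),
      f (UpperHalfPlane.ofComplex ((r : ℂ) + t * Complex.I)) := by
  unfold period
  rw [MeasureTheory.integral_mul_const]
  linear_combination (-(2 * π * ∫ t in Set.Ioi (0 : ℝ),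
      f (UpperHalfPlane.ofComplex ((r : ℂ) + t * Complex.I)))) * Complex.I_sq

theorem period_hecke (f : UpperHalfPlane → ℂ)
    (hint : ∀ r : ℚ, MeasureTheory.IntegrableOn
      (fun t : ℝ => f (UpperHalfPlane.ofComplex ((r : ℂ) + t * Complex.I))) (Set.Ioi 0))
    {l : ℕ} (hl : 0 < l) (lam : ℂ) (hT : ∀ z, hecke l f z = lam * f z) (r : ℚ) :
    lam * period f r = period f (l * r) + ∑ j ∈ range l, period f ((r + j) / l) := by
  have hlR : (0 : ℝ) < l := by exact_mod_cast hl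
  have hlC : (l : ℂ) ≠ 0 := by exact_mod_cast hl.ne'
  set F : ℚ → ℝ → ℂ := fun s t => f (UpperHalfPlane.ofComplex ((s : ℂ) + t * Complex.I)) with hF
  have key : ∀ t ∈ Set.Ioi (0 : ℝ), lam * F r t =
      (l : ℂ) * F (l * r) ((l : ℝ) * t) +
        ∑ j ∈ range l, (1 / (l : ℂ)) * F ((r + j) / l) ((l : ℝ)⁻¹ * t) := by
    intro t ht
    have h := hT (UpperHalfPlane.ofComplex ((r : ℂ) + t * Complex.I))
    have hc : ((UpperHalfPlane.ofComplex ((r : ℂ) + t * Complex.I) : UpperHalfPlane) : ℂ) =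
        (r : ℂ) + t * Complex.I := by
      rw [UpperHalfPlane.ofComplex_apply_of_im_pos (pi_im_pos r ht)]
    rw [hecke, hc] at h
    simp only [hF]
    rw [← h, Finset.mul_sum]
    congr 1
    · congr 3
      push_cast
      ring
    · refine Finset.sum_congr rfl fun j _ => ?_
      congr 3
      push_cast
      field_simp
      ring
  have i1 : MeasureTheory.IntegrableOn (fun t : ℝ => F (l * r) ((l : ℝ) * t)) (Set.Ioi 0) := by
    rw [MeasureTheory.integrableOn_Ioi_comp_mul_left_iff (F (l * r)) 0 hlR, mul_zero]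
    exact hint _
  have i2 : ∀ j : ℕ, MeasureTheory.IntegrableOn
      (fun t : ℝ => F ((r + j) / l) ((l : ℝ)⁻¹ * t)) (Set.Ioi 0) := by
    intro j
    rw [MeasureTheory.integrableOn_Ioi_comp_mul_left_iff (F ((r + j) / l)) 0 (inv_pos.mpr hlR),
      mul_zero]
    exact hint _
  have e1 : ∫ t in Set.Ioi (0 : ℝ), F (l * r) ((l : ℝ) * t) =
      (l : ℂ)⁻¹ * ∫ t in Set.Ioi (0 : ℝ), F (l * r) t := by
    rw [MeasureTheory.integral_comp_mul_left_Ioi (F (l * r)) 0 hlR, mul_zero]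
    simp
  have e2 : ∀ j : ℕ, ∫ t in Set.Ioi (0 : ℝ), F ((r + j) / l) ((l : ℝ)⁻¹ * t) =
      (l : ℂ) * ∫ t in Set.Ioi (0 : ℝ), F ((r + j) / l) t := by
    intro j
    rw [MeasureTheory.integral_comp_mul_left_Ioi (F ((r + j) / l)) 0 (inv_pos.mpr hlR), mul_zero]
    simp
  have main : lam * ∫ t in Set.Ioi (0 : ℝ), F r t =
      (∫ t in Set.Ioi (0 : ℝ), F (l * r) t) +
        ∑ j ∈ range l, ∫ t in Set.Ioi (0 : ℝ), F ((r + j) / l) t := by
    rw [← MeasureTheory.integral_const_mul,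
      MeasureTheory.setIntegral_congr_fun measurableSet_Ioi key,
      MeasureTheory.integral_add (i1.const_mul _)
        (MeasureTheory.integrable_finsetSum _ fun j _ => (i2 j).const_mul _),
      MeasureTheory.integral_finsetSum _ fun j _ => (i2 j).const_mul _,
      MeasureTheory.integral_const_mul, e1]
    congr 1
    · field_simp
    · refine Finset.sum_congr rfl fun j _ => ?_
      rw [MeasureTheory.integral_const_mul, e2]
      field_simp
  simp only [pi_period_eq]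
  rw [← Finset.mul_sum, ← mul_add]
  simp only [hF] at main
  rw [← main]
  ring

end Pool.Agent.P.MP_99daa8_nt
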