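import Pool.Agent.P.MP_99daa8_nt.Basic

namespace Pool.Agent.P.MP_99daa8_nt

open scoped MatrixGroups
open Finset

/- HINT.  Induction on k with iota replaced by Sum iota iota: the left copy has
(g Lm, c + d, d), the right copy (g Rm, c, c + d); segSum_split.  Left children have c > d, right
children have c < d, so injectivity is kept. -/
theorem exists_tree (g₀ : SL(2, ℤ)) (k : ℕ) :
    ∃ (ι : Type) (_ : Fintype ι) (g : ι → SL(2, ℤ)) (c d : ι → ℕ),
      (∀ i, 0 < c i ∧ 0 < d i ∧ Nat.Coprime (c i) (d i) ∧ k + 2 ≤ c i + d i) ∧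
      (∀ i j, c i = c j → d i = d j → i = j) ∧
      (∑ i, (1 : ℝ) / ((c i : ℝ) * d i) = 1) ∧
      ∀ (s : ℤ × ℤ → ℂ) (M : ℕ), segSum s g₀ 1 1 M = ∑ i, segSum s (g i) (c i) (d i) M := by
  induction k with
  | zero =>
    exact ⟨Unit, inferInstance, fun _ => g₀, fun _ => 1, fun _ => 1, fun _ => by simp,
      fun _ _ _ _ => rfl, by simp, fun s M => by simp⟩
  | succ k ih =>
    obtain ⟨ι, _, g, c, d, h1, h2, h3, h4⟩ := ih
    refine ⟨ι ⊕ ι, inferInstance, Sum.elim (fun i => g i * Lm) (fun i => g i * Rm),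
      Sum.elim (fun i => c i + d i) c, Sum.elim d (fun i => c i + d i), ?_, ?_, ?_, ?_⟩
    · rintro (i | i)
      · obtain ⟨a1, a2, a3, a4⟩ := h1 i
        simp only [Sum.elim_inl]
        exact ⟨by omega, a2, Nat.coprime_add_self_left.2 a3, by omega⟩
      · obtain ⟨a1, a2, a3, a4⟩ := h1 i
        simp only [Sum.elim_inr]
        exact ⟨a1, by omega, Nat.coprime_self_add_right.2 a3, by omega⟩
    · rintro (i | i) (j | j) e1 e2 <;> simp only [Sum.elim_inl, Sum.elim_inr] at e1 e2
      · rw [h2 i j (by omega) e2]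
      · have := h1 i; have := h1 j; omega
      · have := h1 i; have := h1 j; omega
      · rw [h2 i j e1 (by omega)]
    · rw [Fintype.sum_sum_type, ← sum_add_distrib]
      refine (sum_congr rfl fun i _ => ?_).trans h3
      obtain ⟨a1, a2, -⟩ := h1 i
      have b1 : (0 : ℝ) < c i := by exact_mod_cast a1
      have b2 : (0 : ℝ) < d i := by exact_mod_cast a2
      simp only [Sum.elim_inl, Sum.elim_inr]
      push_cast
      field_simp
    · intro s M
      rw [h4, Fintype.sum_sum_type, ← sum_add_distrib]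
      exact sum_congr rfl fun i _ => segSum_split s (g i) (h1 i).1 (h1 i).2.1 M

theorem tree_param {c d M : ℕ} (hc : 0 < c) (hd : 0 < d) (hcd : Nat.Coprime c d)
    {v w : ℕ × ℕ} (hv : v ∈ seg c d M) (hw : w ∈ seg c d M) :
    ∃ t : ℤ, (w.1 : ℤ) = v.1 + t * d ∧ (w.2 : ℤ) = v.2 - t * c := by
  have h1 := ((mem_seg hc hd).1 hv).2
  have h2 := ((mem_seg hc hd).1 hw).2
  have h3 : (c : ℤ) * v.1 + d * v.2 = c * w.1 + d * w.2 := by exact_mod_cast h1.trans h2.symm
  have h4 : (d : ℤ) ∣ c * ((w.1 : ℤ) - v.1) := ⟨(v.2 : ℤ) - w.2, by linear_combination -h3⟩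
  obtain ⟨t, ht⟩ := (Nat.isCoprime_iff_coprime.2 hcd).symm.dvd_of_dvd_mul_left h4
  refine ⟨t, by linear_combination ht, ?_⟩
  have hd' : (d : ℤ) ≠ 0 := by exact_mod_cast hd.ne'
  apply mul_left_cancel₀ hd'
  linear_combination -h3 - c * ht

/- HINT.  The first coordinates x of points of seg c d M determine the point, are pairwise congruent
mod d, and satisfy c x <= M; so x -> x / d is injective into range (M / (c d) + 1). -/
theorem card_seg_le {c d : ℕ} (hc : 0 < c) (hd : 0 < d) (hcd : Nat.Coprime c d) (M : ℕ) :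
    c * d * (seg c d M).card ≤ M + c * d := by
  have h : (seg c d M).card ≤ (range (M / (c * d) + 1)).card := by
    refine card_le_card_of_injOn (fun v => v.1 / d) (fun v hv => ?_) (fun v hv w hw h => ?_)
    · have h1 := ((mem_seg hc hd).1 hv).2
      have h2 : v.1 ≤ M / c := (Nat.le_div_iff_mul_le hc).2 (by rw [mul_comm]; omega)
      rw [coe_range, Set.mem_Iio, Nat.lt_succ_iff, ← Nat.div_div_eq_div_mul]
      exact Nat.div_le_div_right h2
    · obtain ⟨t, h1, h2⟩ := tree_param hc hd hcd hv hw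
      have h3 : v.1 % d = w.1 % d := Nat.modEq_iff_dvd.2 ⟨t, by rw [h1]; ring⟩
      have h4 : v.1 = w.1 := by
        have h5 : v.1 / d = w.1 / d := h
        rw [← Nat.div_add_mod v.1 d, ← Nat.div_add_mod w.1 d, h3, h5]
      have hd' : (d : ℤ) ≠ 0 := by exact_mod_cast hd.ne'
      have h6 : t = 0 := by
        rw [h4] at h1
        exact (mul_eq_zero.1 (by linarith : t * d = 0)).resolve_right hd'
      rw [h6] at h2
      exact Prod.ext h4 (by omega)
  rw [card_range] at h
  calc c * d * (seg c d M).card ≤ c * d * (M / (c * d) + 1) := Nat.mul_le_mul_left _ h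
    _ = c * d * (M / (c * d)) + c * d := by ring
    _ ≤ M + c * d := Nat.add_le_add_right (Nat.mul_div_le _ _) _

/- HINT.  U = points of the box range (X+1) x range (X+1) with k * min v.1 v.2 <= X. -/
theorem exists_thin_region (k X : ℕ) (hk : 0 < k) :
    ∃ U : Finset (ℕ × ℕ), (U.card : ℝ) ≤ 2 * (X + 1) * (X / k + 1) ∧
      ∀ c d : ℕ, 0 < c → 0 < d → k ≤ c + d → tri c d X ⊆ U := by
  refine ⟨(range (X / k + 1) ×ˢ range (X + 1)) ∪ (range (X + 1) ×ˢ range (X / k + 1)), ?_, ?_⟩
  · have h1 := card_union_le (range (X / k + 1) ×ˢ range (X + 1))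
      (range (X + 1) ×ˢ range (X / k + 1))
    simp only [card_product, card_range] at h1
    have h2 : ((X / k : ℕ) : ℝ) ≤ X / k := Nat.cast_div_le
    calc _ ≤ (((X / k + 1) * (X + 1) + (X + 1) * (X / k + 1) : ℕ) : ℝ) := by exact_mod_cast h1
      _ = 2 * (X + 1) * (((X / k : ℕ) : ℝ) + 1) := by push_cast; ring
      _ ≤ _ := by gcongr
  · intro c d hc hd hk' v hv
    have h1 := ((mem_tri hc hd).1 hv).2
    have h2 : v.1 ≤ c * v.1 := Nat.le_mul_of_pos_left _ hc
    have h3 : v.2 ≤ d * v.2 := Nat.le_mul_of_pos_left _ hd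
    simp only [mem_union, mem_product, mem_range, Nat.lt_succ_iff, Nat.le_div_iff_mul_le hk]
    rcases le_total v.1 v.2 with h | h
    · left
      exact ⟨by nlinarith, by omega⟩
    · right
      exact ⟨by omega, by nlinarith⟩

/- HINT.  Let T be the index set and A its image under the map v -> c v.1 + d v.2, which is injective
on the line (the determinant c d' - d c' is nonzero because the coprime pairs are distinct).  Two
points of the line differ by an integer multiple of (d', -c'), so all elements of A are congruent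
mod q, and if lo = min A, hi = max A then A = {m : lo <= m <= hi, m % q = lo % q} by convexity of the
quadrant (the point v_lo + s e, 0 <= s <= t, lies between v_lo and v_hi = v_lo + t e).  So the sum is
the difference of the hE sums for x = hi + 1 and x = lo. -/
theorem cross_le (B : ℕ → ℂ) {c d c' d' : ℕ} (hc : 0 < c) (hd : 0 < d) (hc' : 0 < c')
    (hd' : 0 < d') (hcd : Nat.Coprime c d) (hcd' : Nat.Coprime c' d') (hne : ¬ (c = c' ∧ d = d'))
    (X : ℕ) {E : ℝ}
    (hE : ∀ k x : ℕ, x ≤ X + 1 →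
      ‖∑ m ∈ (range x).filter (fun m => m % ((c : ℤ) * d' - d * c').natAbs = k), B m‖ ≤ E)
    (m' : ℕ) :
    ‖∑ v ∈ (seg c' d' m').filter (fun v => c * v.1 + d * v.2 ≤ X), B (c * v.1 + d * v.2)‖
      ≤ 2 * E := by
  have hE0 : 0 ≤ E := (norm_nonneg _).trans (hE 0 0 (by omega))
  set T := (seg c' d' m').filter (fun v => c * v.1 + d * v.2 ≤ X) with hT
  set D : ℤ := (c : ℤ) * d' - d * c' with hD
  have hD0 : D ≠ 0 := by
    intro h
    have h1 : c * d' = d * c' := by
      have : (c : ℤ) * d' = d * c' := by linarith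
      exact_mod_cast this
    have h2 : c ∣ c' := hcd.dvd_of_dvd_mul_left ⟨d', h1.symm⟩
    have h3 : c' ∣ c := hcd'.dvd_of_dvd_mul_right ⟨d, by rw [h1, mul_comm]⟩
    have h4 : c = c' := Nat.dvd_antisymm h2 h3
    refine hne ⟨h4, ?_⟩
    rw [← h4, mul_comm d] at h1
    exact (Nat.eq_of_mul_eq_mul_left hc h1).symm
  let f : ℕ × ℕ → ℕ := fun v => c * v.1 + d * v.2
  have par : ∀ v ∈ T, ∀ w ∈ T, ∃ t : ℤ, (w.1 : ℤ) = v.1 + t * d' ∧ (w.2 : ℤ) = v.2 - t * c' ∧
      (f w : ℤ) = f v + t * D := by
    intro v hv w hw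
    obtain ⟨t, h1, h2⟩ := tree_param hc' hd' hcd' (mem_filter.1 hv).1 (mem_filter.1 hw).1
    refine ⟨t, h1, h2, ?_⟩
    simp only [f]
    push_cast
    rw [h1, h2, hD]
    ring
  have inj : Set.InjOn f T := by
    intro v hv w hw h
    obtain ⟨t, h1, h2, h3⟩ := par v hv w hw
    rw [h] at h3
    have h4 : t = 0 := (mul_eq_zero.1 (by linarith : t * D = 0)).resolve_right hD0
    rw [h4] at h1 h2
    exact Prod.ext (by omega) (by omega)
  rcases T.eq_empty_or_nonempty with hne' | hne'
  · rw [hne', sum_empty, norm_zero]; linarith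
  obtain ⟨v, hv, hlo⟩ := exists_min_image T f hne'
  obtain ⟨w, hw, hhi⟩ := exists_max_image T f hne'
  have hwX : f w ≤ X := (mem_filter.1 hw).2
  have hvw : f v ≤ f w := hlo w hw
  have hsub : (range (f v)).filter (fun m => m % D.natAbs = f v % D.natAbs) ⊆
      (range (f w + 1)).filter (fun m => m % D.natAbs = f v % D.natAbs) :=
    filter_subset_filter _ (range_subset_range.2 (by omega))
  have himg : T.image f = (range (f w + 1)).filter (fun m => m % D.natAbs = f v % D.natAbs) \
      (range (f v)).filter (fun m => m % D.natAbs = f v % D.natAbs) := by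
    ext m
    simp only [mem_image, mem_sdiff, mem_filter, mem_range]
    constructor
    · rintro ⟨u, hu, rfl⟩
      have hu' : u ∈ T := hu
      obtain ⟨t, -, -, h3⟩ := par u hu' v hv
      have h4 := hlo u hu'
      have h5 := hhi u hu'
      refine ⟨⟨by omega, Nat.modEq_iff_dvd.2 (Int.natAbs_dvd.2 ⟨t, by rw [h3]; ring⟩)⟩,
        fun h => by omega⟩
    · rintro ⟨⟨h1, h2⟩, h3⟩
      have h4 : f v ≤ m := by
        by_contra h
        exact h3 ⟨by omega, h2⟩
      obtain ⟨s, hs⟩ := Int.natAbs_dvd.1 (Nat.modEq_iff_dvd.1 h2.symm)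
      obtain ⟨t, t1, t2, t3⟩ := par v hv w hw
      have hv' := (mem_seg hc' hd').1 (mem_filter.1 hv).1
      have hw' := (mem_seg hc' hd').1 (mem_filter.1 hw).1
      have a1 : 0 ≤ D * s := by rw [← hs]; omega
      have a2 : D * s ≤ D * t := by rw [← hs, mul_comm D t]; omega
      have a3 : (0 ≤ s ∧ s ≤ t) ∨ (t ≤ s ∧ s ≤ 0) := by
        rcases lt_or_gt_of_ne hD0 with h | h
        · right; constructor <;> nlinarith
        · left; constructor <;> nlinarith
      have c0 : (0 : ℤ) < c' := by exact_mod_cast hc'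
      have d0 : (0 : ℤ) < d' := by exact_mod_cast hd'
      have v1 : (0 : ℤ) < v.1 := by exact_mod_cast hv'.1
      have w1 : (0 : ℤ) < w.1 := by exact_mod_cast hw'.1
      have v2 : (0 : ℤ) ≤ v.2 := Int.natCast_nonneg _
      have w2 : (0 : ℤ) ≤ w.2 := Int.natCast_nonneg _
      have b1 : 0 < (v.1 : ℤ) + s * d' := by rcases a3 with h | h <;> nlinarith [h.1, h.2]
      have b2 : 0 ≤ (v.2 : ℤ) - s * c' := by rcases a3 with h | h <;> nlinarith [h.1, h.2]
      obtain ⟨x, hx⟩ := Int.eq_ofNat_of_zero_le b1.le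
      obtain ⟨y, hy⟩ := Int.eq_ofNat_of_zero_le b2
      have e1 : c' * x + d' * y = m' := by
        have e2 : (c' : ℤ) * v.1 + d' * v.2 = m' := by exact_mod_cast hv'.2
        have : (c' : ℤ) * x + d' * y = m' := by rw [← hx, ← hy]; linear_combination e2
        exact_mod_cast this
      have e3 : f (x, y) = m := by
        have : (c : ℤ) * x + d * y = m := by
          have e4 : (f v : ℤ) = c * v.1 + d * v.2 := by simp only [f]; push_cast; ring
          rw [← hx, ← hy]
          rw [hD] at hs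
          linear_combination -hs - e4
        simp only [f]
        exact_mod_cast this
      refine ⟨(x, y), mem_filter.2 ⟨(mem_seg hc' hd').2 ⟨by simp only; omega, e1⟩, ?_⟩, e3⟩
      have : c * x + d * y = m := e3
      simp only
      omega
  have hsum : ∑ u ∈ T, B (c * u.1 + d * u.2) = ∑ m ∈ T.image f, B m := (sum_image inj).symm
  rw [hsum, himg, sum_sdiff_eq_sub hsub]
  refine (norm_sub_le _ _).trans ?_
  have := hE (f v % D.natAbs) (f w + 1) (by omega)
  have := hE (f v % D.natAbs) (f v) (by omega)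
  linarith

end Pool.Agent.P.MP_99daa8_nt
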