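import Pool.Agent.P.MP_99daa8_nt.PeriodInt
import Pool.Agent.P.MP_99daa8_nt.PeriodCocycle

/-! The cocycle and Hecke relations of the normalised modular symbols. -/

namespace Pool.Agent.P.MP_99daa8_nt

open scoped MatrixGroups
open Finset

/-- The modular symbol as a function of a column vector. -/
noncomputable def sym2 (f : UpperHalfPlane → ℂ) (Ω : ℂ) (ε : ℤ) (v : ℤ × ℤ) : ℂ :=
  if v.2 = 0 then 0 else modSym f Ω ε ((v.1 : ℚ) / (v.2 : ℚ))

theorem sym2_eq (f : UpperHalfPlane → ℂ) (Ω : ℂ) (ε : ℤ) (v : ℤ × ℤ) :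
    sym2 f Ω ε v = 1 / (2 * Ω) * (per2 f v + ε * per2 f (-v.1, v.2)) := by
  unfold sym2 per2 modSym
  by_cases h : v.2 = 0
  · simp [h]
  · simp only [h, if_false]
    congr 4
    push_cast
    ring

theorem per2_neg (f : UpperHalfPlane → ℂ) (a c : ℤ) : per2 f (a, -c) = per2 f (-a, c) := by
  unfold per2
  by_cases h : c = 0
  · simp [h]
  · simp only [neg_eq_zero, h, if_false]
    congr 1
    push_cast
    ring

/-- Conjugation by `diag (1, -1)`. -/
def flip (γ : SL(2, ℤ)) : SL(2, ℤ) :=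
  ⟨!![γ 0 0, -γ 0 1; -γ 1 0, γ 1 1], by
    have := det_eq γ
    simp only [Matrix.det_fin_two_of]
    linarith⟩

variable {N : ℕ} [NeZero N] (f : CuspForm (CongruenceSubgroup.Gamma0 N) 2)

theorem sym2_cocycle (Ω : ℂ) (ε : ℤ) {γ : SL(2, ℤ)} (hγ : γ ∈ CongruenceSubgroup.Gamma0 N)
    {v : ℤ × ℤ} (hv : v ≠ 0) :
    sym2 f Ω ε (act γ v) = sym2 f Ω ε (act γ (1, 0)) + sym2 f Ω ε v := by
  have hγ' : flip γ ∈ CongruenceSubgroup.Gamma0 N := by
    rw [CongruenceSubgroup.Gamma0_mem] at hγ ⊢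
    change ((-γ 1 0 : ℤ) : ZMod N) = 0
    push_cast
    rw [hγ, neg_zero]
  have hv' : (-v.1, v.2) ≠ (0 : ℤ × ℤ) := by
    intro h
    apply hv
    rw [Prod.ext_iff] at h ⊢
    simpa using h
  have h1 := per2_cocycle f (period_integrable f) hγ hv
  have h2 := per2_cocycle f (period_integrable f) hγ' hv'
  have e1 : act (flip γ) (-v.1, v.2) = (-(act γ v).1, (act γ v).2) := by
    simp only [act]
    change (γ 0 0 * -v.1 + -γ 0 1 * v.2, -γ 1 0 * -v.1 + γ 1 1 * v.2) = _
    ext <;> simp only <;> ring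
  have e2 : act (flip γ) (1, 0) = ((act γ (1, 0)).1, -(act γ (1, 0)).2) := by
    simp only [act]
    change (γ 0 0 * 1 + -γ 0 1 * 0, -γ 1 0 * 1 + γ 1 1 * 0) = _
    ext <;> simp only <;> ring
  rw [e1, e2, per2_neg] at h2
  rw [sym2_eq, sym2_eq, sym2_eq, h1, h2]
  ring

theorem period_add_one (r : ℚ) : period f (r + 1) = period f r := by
  have hT : Rm ∈ CongruenceSubgroup.Gamma0 N := by
    rw [CongruenceSubgroup.Gamma0_mem]
    simp
  have hd : (r.den : ℤ) ≠ 0 := by exact_mod_cast r.den_ne_zero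
  have hv : (r.num, (r.den : ℤ)) ≠ (0 : ℤ × ℤ) := by
    intro h
    exact hd (congrArg Prod.snd h)
  have h := per2_cocycle f (period_integrable f) hT hv
  rw [act_Rm, act_Rm] at h
  simp only [per2, hd, if_false, if_true, zero_add] at h
  have hd' : (r.den : ℚ) ≠ 0 := by exact_mod_cast r.den_ne_zero
  have e1 : ((r.num + (r.den : ℤ) : ℤ) : ℚ) / ((r.den : ℤ) : ℚ) = r + 1 := by
    push_cast
    rw [add_div, Rat.num_div_den, div_self hd']
  have e2 : ((r.num : ℤ) : ℚ) / ((r.den : ℤ) : ℚ) = r := by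
    push_cast
    exact Rat.num_div_den r
  rwa [e1, e2] at h

theorem modSym_hecke (Ω : ℂ) (ε : ℤ) {l : ℕ} (hl : 0 < l) (lam : ℂ)
    (hT : ∀ z, hecke l f z = lam * f z) (r : ℚ) :
    lam * modSym f Ω ε r =
      modSym f Ω ε (l * r) + ∑ j ∈ range l, modSym f Ω ε ((r + j) / l) := by
  have h1 := period_hecke f (period_integrable f) hl lam hT r
  have h2 := period_hecke f (period_integrable f) hl lam hT (-r)
  have hl' : (l : ℚ) ≠ 0 := by exact_mod_cast hl.ne'
  have h3 : ∑ j ∈ range l, period f (-((r + j) / l)) =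
      ∑ j ∈ range l, period f ((-r + j) / l) := by
    have a1 : ∑ j ∈ range l, period f (-((r + j) / l)) =
        ∑ j ∈ range l, period f ((-r + ((l - 1 - j + 1 : ℕ) : ℚ)) / l) := by
      refine Finset.sum_congr rfl fun j hj => ?_
      rw [mem_range] at hj
      rw [← period_add_one f (-((r + j) / l))]
      congr 1
      have : (l - 1 - j + 1 : ℕ) = l - j := by omega
      rw [this, Nat.cast_sub hj.le]
      field_simp
      ring
    rw [a1, Finset.sum_range_reflect (fun j => period f ((-r + ((j + 1 : ℕ) : ℚ)) / l)) l]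
    have a2 := Finset.sum_range_succ (fun j : ℕ => period f ((-r + (j : ℚ)) / l)) l
    have a3 := Finset.sum_range_succ' (fun j : ℕ => period f ((-r + (j : ℚ)) / l)) l
    have a4 : period f ((-r + (l : ℚ)) / l) = period f ((-r + ((0 : ℕ) : ℚ)) / l) := by
      rw [← period_add_one f ((-r + ((0 : ℕ) : ℚ)) / l)]
      congr 1
      field_simp
      ring
    rw [a3, a4] at a2
    exact add_right_cancel a2
  unfold modSym
  rw [← Finset.mul_sum, Finset.sum_add_distrib, ← Finset.mul_sum, h3]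
  have e : -((l : ℚ) * r) = l * -r := by ring
  rw [e]
  linear_combination (1 / (2 * Ω)) * h1 + (1 / (2 * Ω)) * ε * h2

end Pool.Agent.P.MP_99daa8_nt
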